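import Pool.Agent.Lib.MP_c23930_al.AQ.GoodAll

set_option autoImplicit false

namespace Pool.Agent.Lib.MP_c23930_al.AQ

namespace AWleAux

variable {R : ℕ → ℕ} {θ : ℤ → Bool}

theorem dvd_le (hT : Toep R θ) {m n : ℕ} (h : m ≤ n) : R m ∣ R n := by
  induction n, h using Nat.le_induction with
  | base => exact dvd_rfl
  | succ n _ ih => exact ih.trans (hT.dvd n)

theorem le_R (hT : Toep R θ) (n : ℕ) : n ≤ R n := by
  induction n with
  | zero => exact Nat.zero_le _
  | succ n ih => exact Nat.succ_le_of_lt (lt_of_le_of_lt ih (hT.lt n))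

theorem inj_of_is3 {π : Equiv.Perm ℤ} {U : Set ℤ} {a b : ℤ} (ha : a ≠ 0) (hb : b ≠ 0)
    (h : Is3 π U (fun x => x) (fun x => x + a) (fun x => x + b)) :
    Inj3 U (fun x : ℤ => x) (fun x => x + a) (fun x => x + b) where
  ff u _ v _ e := e
  gg u _ v _ e := by simpa using e
  hh u _ v _ e := by simpa using e
  fg u hu v hv e := by
    have e' : u = v + a := e
    have h1 : π u = u + a := h.fg u hu
    have h2 : π (v + a) = v + b := h.gh v hv
    have h3 : π (v + b) = v := h.hf v hv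
    have h4 : π (u + a) = u + b := h.gh u hu
    rw [e', h2] at h1
    have hb2 : b = 2 * a := by linarith
    have e2 : u + a = v + b := by rw [e', hb2]; ring
    rw [e2, h3] at h4
    apply ha
    linarith
  gh u hu v hv e := by
    have e' : u + a = v + b := e
    have h1 : π (u + a) = u + b := h.gh u hu
    have h2 : π (v + b) = v := h.hf v hv
    rw [e', h2] at h1
    have h3 : π (u + b) = u := h.hf u hu
    have h4 : π v = v + a := h.fg v hv
    rw [← h1, h4] at h3
    apply hb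
    linarith
  hf u hu v hv e := by
    have e' : u + b = v := e
    have h1 : π (u + b) = u := h.hf u hu
    have h2 : π v = v + a := h.fg v hv
    rw [e', h2] at h1
    have h3 : π u = u + a := h.fg u hu
    have h4 : π (v + a) = v + b := h.gh v hv
    rw [h1, h3] at h4
    apply hb
    linarith

end AWleAux

open AWleAux

variable {R : ℕ → ℕ} {θ : ℤ → Bool} {X : Type} [Fintype X] [DecidableEq X]

theorem AW_le (hT : Toep R θ) (h3 : 3 ≤ Fintype.card X) (n : ℕ) (β : LZ X ≃ ℤ)
    (hβ : ∀ σ k, β (σ, k) = (R n : ℤ) * k + β (σ, 0)) (Γ : Subgroup (Equiv.Perm (LZ X)))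
    (hΓ : ∀ (σ₀ : Lst X) (K : Set ℤ), Clop (fun k => θ (R n * k)) K → ∀ π : Equiv.Perm (LZ X),
      Lamp {w | w.1 = σ₀ ∧ w.2 ∈ K} π → π ∈ Γ) : AW θ β ≤ Γ := by
  classical
  have hne : NeZero (Fintype.card X) := ⟨by omega⟩
  have hβ2 : ∀ (p : LZ X) (k : ℤ), β (shf p k) = β p + R n * k := by
    intro p k
    obtain ⟨σ, i⟩ := p
    simp only [shf]
    rw [hβ σ (i + k), hβ σ i]
    ring
  suffices hmain : AA θ ≤ Γ.comap β.symm.permCongrHom.toMonoidHom by
    intro π hπ
    have h1 := hmain (show β.permCongrHom.toMonoidHom π ∈ AA θ from hπ)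
    rw [Subgroup.mem_comap] at h1
    have h2 : β.symm.permCongrHom.toMonoidHom (β.permCongrHom.toMonoidHom π) = π := by
      ext x <;> simp [Equiv.permCongr_apply]
    rwa [h2] at h1
  unfold AA
  rw [Subgroup.closure_le]
  rintro π' ⟨U, a, b, hU, ha, hb, hab, h⟩
  have hinj := inj_of_is3 ha hb h
  set τ : Equiv.Perm (LZ X) := β.symm.permCongr π' with hτ
  change τ ∈ Γ
  have hτ3 : Is3 τ U (fun x => β.symm x) (fun x => β.symm (x + a)) (fun x => β.symm (x + b)) :=
    (Is3.permCongr β.symm).2 h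
  have hinj3 : Inj3 U (fun x => β.symm x) (fun x => β.symm (x + a)) (fun x => β.symm (x + b)) :=
    { ff := fun u hu v hv e => hinj.ff u hu v hv (β.symm.injective e)
      gg := fun u hu v hv e => hinj.gg u hu v hv (β.symm.injective e)
      hh := fun u hu v hv e => hinj.hh u hu v hv (β.symm.injective e)
      fg := fun u hu v hv e => hinj.fg u hu v hv (β.symm.injective e)
      gh := fun u hu v hv e => hinj.gh u hu v hv (β.symm.injective e)
      hf := fun u hu v hv e => hinj.hf u hu v hv (β.symm.injective e) }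
  -- the good triples
  have hgood : ∀ σ₀ : Lst X, Good (fun k => θ (R n * k)) Γ (σ₀, 0)
      (β.symm (β (σ₀, 0) + a)) (β.symm (β (σ₀, 0) + b)) := by
    intro σ₀
    refine good_all h3 hΓ ?_ ?_ ?_
    · intro e
      have := congrArg β e
      rw [Equiv.apply_symm_apply] at this
      apply ha; linarith
    · intro e
      have := β.symm.injective e
      apply hab; linarith
    · intro e
      have := congrArg β e
      rw [Equiv.apply_symm_apply] at this
      apply hb; linarith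
  choose D hD using hgood
  set M : ℕ := ∑ σ₀ : Lst X, D σ₀ with hM
  have hDM : ∀ σ₀, D σ₀ ≤ M := fun σ₀ => Finset.single_le_sum (f := D) (fun _ _ => Nat.zero_le _)
    (Finset.mem_univ σ₀)
  set n' : ℕ := n + R n * (M + 1) with hn'
  have hRn' : R n * (M + 1) ≤ R n' := le_trans (by omega) (le_R hT n')
  have hdv : R n ∣ R n' := dvd_le hT (by omega)
  have hRpos : 0 < R n := hT.pos n
  have : NeZero (R n') := ⟨(hT.pos n').ne'⟩
  refine is3_cover (κ := ZMod (R n')) (fun x : ℤ => (x : ZMod (R n'))) hinj3 ?_ hτ3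
  intro t τ' hτ'
  set x₀ : ℤ := (t.val : ℤ) with hx₀
  have hx₀t : (x₀ : ZMod (R n')) = t := by simp [hx₀]
  set σ₀ : Lst X := (β.symm x₀).1 with hσ₀
  set k₀ : ℤ := (β.symm x₀).2 with hk₀
  have hx₀β : β (σ₀, k₀) = x₀ := by simp [hσ₀, hk₀]
  set K : Set ℤ := {k | β (σ₀, k) ∈ U ∧ ((β (σ₀, k) : ℤ) : ZMod (R n')) = t} with hK
  have hmod : ∀ x : ℤ, ((x : ZMod (R n')) = t) ↔ (R n' : ℤ) ∣ x - x₀ := by
    intro x
    rw [← hx₀t, ← ZMod.intCast_zmod_eq_zero_iff_dvd, Int.cast_sub, sub_eq_zero]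
  have hKclop : Clop (fun k => θ (R n * k)) K := by
    have h1 := clop_sub hT n (β (σ₀, 0)) (hU.inter (clop_dvd hT n' x₀))
    have h2 : K = {k | (R n : ℤ) * k + β (σ₀, 0) ∈ U ∩ {x | (R n' : ℤ) ∣ x - x₀}} := by
      ext k
      simp only [hK, Set.mem_ofPred_eq, Set.mem_inter_iff, hmod, hβ σ₀ k]
    rw [h2]
    exact h1
  have hsep : Sep (D σ₀) K := by
    intro k hk l hl hkl
    have h1 := (hmod _).1 hk.2
    have h2 := (hmod _).1 hl.2
    have h4 : (R n' : ℤ) ∣ R n * (k - l) := by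
      have := dvd_sub h1 h2
      rw [hβ σ₀ k, hβ σ₀ l] at this
      have e : (R n : ℤ) * k + β (σ₀, 0) - x₀ - (R n * l + β (σ₀, 0) - x₀) = R n * (k - l) := by ring
      rwa [e] at this
    have h5 : (R n : ℤ) * (k - l) ≠ 0 :=
      mul_ne_zero (by exact_mod_cast hRpos.ne') (sub_ne_zero.2 hkl)
    have h6 : (R n' : ℤ) ≤ |(R n : ℤ) * (k - l)| :=
      Int.le_of_dvd (abs_pos.2 h5) ((dvd_abs _ _).2 h4)
    rw [abs_mul, abs_of_pos (by exact_mod_cast hRpos : (0 : ℤ) < R n)] at h6
    have h7 : (R n : ℤ) * (M + 1) ≤ R n * |k - l| := by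
      refine le_trans ?_ h6
      exact_mod_cast hRn'
    have h8 : ((M : ℤ) + 1) ≤ |k - l| := le_of_mul_le_mul_left h7 (by exact_mod_cast hRpos)
    have h9 : (D σ₀ : ℤ) ≤ M := by exact_mod_cast hDM σ₀
    linarith
  have himg : (fun k : ℤ => β (σ₀, k)) '' K = {x | x ∈ U ∧ ((x : ZMod (R n')) = t)} := by
    ext x
    constructor
    · rintro ⟨k, hk, rfl⟩
      exact hk
    · rintro ⟨hxU, hxt⟩
      have h1 := (hmod x).1 hxt
      have h2 : (R n : ℤ) ∣ x - x₀ := dvd_trans (by exact_mod_cast hdv) h1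
      obtain ⟨j, hj⟩ := h2
      have h4 : β (σ₀, k₀ + j) = x := by
        have := hβ2 (σ₀, k₀) j
        simp only [shf] at this
        rw [this, hx₀β]
        linarith
      refine ⟨k₀ + j, ?_, h4⟩
      simp only [hK, Set.mem_ofPred_eq, h4]
      exact ⟨hxU, hxt⟩
  have h10 := (Is3.reindex (fun k : ℤ => β (σ₀, k)) K himg).1 hτ'
  refine hD σ₀ K hKclop hsep τ' (h10.congr ?_ ?_ ?_)
  · intro k _
    simp [shf]
  · intro k _
    rw [Equiv.symm_apply_eq, hβ2, Equiv.apply_symm_apply]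
    have := hβ2 (σ₀, 0) k
    simp only [shf, zero_add] at this
    rw [this]; ring
  · intro k _
    rw [Equiv.symm_apply_eq, hβ2, Equiv.apply_symm_apply]
    have := hβ2 (σ₀, 0) k
    simp only [shf, zero_add] at this
    rw [this]; ring

end Pool.Agent.Lib.MP_c23930_al.AQ
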