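import Pool.Agent.Lib.MP_c23930_al.AQ.Defs

set_option autoImplicit false

namespace Pool.Agent.Lib.MP_c23930_al.AQ

theorem exists_beta (X : Type) [Fintype X] [Nonempty X] : ∃ β : LZ X ≃ ℤ, ∀ σ k,
    β (σ, k) = ((Fintype.card X).factorial : ℤ) * k + β (σ, 0) := by
  classical
  have hc : Fintype.card (Lst X) = (Fintype.card X).factorial := by
    have h1 : Nonempty (ZMod (Fintype.card X) ≃ X) := by
      rw [← Fintype.card_eq, ZMod.card]
    rw [Fintype.card_equiv h1.some, ZMod.card]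
  set r := (Fintype.card X).factorial with hr
  have hrpos : 0 < r := Nat.factorial_pos _
  have hr0 : (r : ℤ) ≠ 0 := by exact_mod_cast hrpos.ne'
  let ι : Lst X ≃ Fin r := Fintype.equivFinOfCardEq hc
  have hlt : ∀ x : ℤ, (x % (r : ℤ)).toNat < r := by
    intro x
    have h1 := Int.emod_nonneg x hr0
    have h2 := Int.emod_lt_of_pos x (by exact_mod_cast hrpos : (0 : ℤ) < r)
    omega
  refine ⟨⟨fun p => (r : ℤ) * p.2 + ((ι p.1 : Fin r) : ℕ),
    fun x => (ι.symm ⟨(x % (r : ℤ)).toNat, hlt x⟩, x / r), ?_, ?_⟩, ?_⟩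
  · rintro ⟨σ, k⟩
    have h3 : (((ι σ : Fin r) : ℕ) : ℤ) < r := by exact_mod_cast (ι σ).2
    have h4 : (0 : ℤ) ≤ (((ι σ : Fin r) : ℕ) : ℤ) := Int.natCast_nonneg _
    have h1 : ((r : ℤ) * k + (((ι σ : Fin r) : ℕ) : ℤ)) / r = k := by
      rw [add_comm, Int.add_mul_ediv_left _ _ hr0, Int.ediv_eq_zero_of_lt h4 h3, zero_add]
    have h2 : ((r : ℤ) * k + (((ι σ : Fin r) : ℕ) : ℤ)) % r = (((ι σ : Fin r) : ℕ) : ℤ) := by
      rw [add_comm, Int.add_mul_emod_self_left, Int.emod_eq_of_lt h4 h3]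
    refine Prod.ext ?_ h1
    simp only
    rw [Equiv.symm_apply_eq]
    apply Fin.ext
    simp only [h2, Int.toNat_natCast]
  · intro x
    simp only [Equiv.apply_symm_apply]
    have h1 := Int.emod_nonneg x hr0
    rw [Int.toNat_of_nonneg h1]
    exact Int.mul_ediv_add_emod x r
  · intro σ k
    simp

end Pool.Agent.Lib.MP_c23930_al.AQ
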