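import Pool.Agent.Lib.MP_c23930_al.AQ.Defs

set_option autoImplicit false

namespace Pool.Agent.Lib.MP_c23930_al.AQ

variable {R : ℕ → ℕ} {θ : ℤ → Bool}

theorem Win.symm {ρ : ℕ} {x y : ℤ} (h : Win θ ρ x y) : Win θ ρ y x := fun j hj => (h j hj).symm

theorem Win.mono {ρ ρ' : ℕ} {x y : ℤ} (h : Win θ ρ' x y) (hρ : ρ ≤ ρ') : Win θ ρ x y :=
  fun j hj => h j (hj.trans (by exact_mod_cast hρ))

theorem Win.shift {ρ ρ' : ℕ} {x y d : ℤ} (h : Win θ ρ' x y) (hρ : (ρ : ℤ) + |d| ≤ ρ') :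
    Win θ ρ (x + d) (y + d) := by
  intro j hj
  have := h (d + j) (by
    have := abs_add_le d j
    linarith)
  rwa [← add_assoc, ← add_assoc] at this

theorem Clop.univ : Clop θ Set.univ := ⟨0, fun _ _ _ _ => trivial⟩

theorem Clop.compl {U : Set ℤ} (h : Clop θ U) : Clop θ Uᶜ := by
  obtain ⟨ρ, hρ⟩ := h
  exact ⟨ρ, fun x y hxy hx hy => hx (hρ y x hxy.symm hy)⟩

theorem Clop.inter {U V : Set ℤ} (h : Clop θ U) (h' : Clop θ V) : Clop θ (U ∩ V) := by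
  obtain ⟨ρ, hρ⟩ := h
  obtain ⟨ρ', hρ'⟩ := h'
  exact ⟨max ρ ρ', fun x y hxy hx => ⟨hρ x y (hxy.mono (le_max_left _ _)) hx.1,
    hρ' x y (hxy.mono (le_max_right _ _)) hx.2⟩⟩

theorem Clop.union {U V : Set ℤ} (h : Clop θ U) (h' : Clop θ V) : Clop θ (U ∪ V) := by
  obtain ⟨ρ, hρ⟩ := h
  obtain ⟨ρ', hρ'⟩ := h'
  refine ⟨max ρ ρ', fun x y hxy hx => ?_⟩
  rcases hx with hx | hx
  · exact Or.inl (hρ x y (hxy.mono (le_max_left _ _)) hx)
  · exact Or.inr (hρ' x y (hxy.mono (le_max_right _ _)) hx)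

theorem Clop.shift {U : Set ℤ} (h : Clop θ U) (d : ℤ) : Clop θ {x | x + d ∈ U} := by
  obtain ⟨ρ, hρ⟩ := h
  refine ⟨ρ + d.natAbs, fun x y hxy hx => hρ (x + d) (y + d) (hxy.shift ?_) hx⟩
  push_cast
  exact le_rfl

theorem clop_val (i : Bool) : Clop θ {x | θ x = i} := by
  refine ⟨0, fun x y hxy hx => ?_⟩
  have := hxy 0 (by simp)
  rw [add_zero, add_zero] at this
  exact this.symm.trans hx

theorem clop_dvd (hT : Toep R θ) (n : ℕ) (c : ℤ) : Clop θ {x | (R n : ℤ) ∣ x - c} := by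
  obtain ⟨ρ, hρ⟩ := hT.recog n
  refine ⟨ρ + c.natAbs, fun x y hxy hx => hρ (x - c) (y - c) ?_ hx⟩
  have h1 : Win θ ρ (x + (-c)) (y + (-c)) := hxy.shift (by
    push_cast
    rw [abs_neg])
  exact h1

theorem clop_sub (hT : Toep R θ) (n : ℕ) (c : ℤ) {U : Set ℤ} (hU : Clop θ U) :
    Clop (fun k => θ (R n * k)) {k | (R n : ℤ) * k + c ∈ U} := by
  obtain ⟨ρ, hρ⟩ := hU
  refine ⟨ρ + c.natAbs, fun k l hkl hk => hρ _ _ ?_ hk⟩
  intro j hj
  rw [add_assoc, add_assoc]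
  by_cases hd : (R n : ℤ) ∣ c + j
  · obtain ⟨t, ht⟩ := hd
    have h1 : (1 : ℤ) ≤ R n := by exact_mod_cast hT.pos n
    have h2 : |t| ≤ ((ρ + c.natAbs : ℕ) : ℤ) := by
      have h3 : |c + j| ≤ |c| + |j| := abs_add_le c j
      rw [ht, abs_mul, abs_of_pos (by linarith : (0 : ℤ) < R n)] at h3
      have h4 : |t| ≤ (R n : ℤ) * |t| := by
        have := abs_nonneg t
        nlinarith
      push_cast
      linarith
    have h5 := hkl t h2
    simp only at h5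
    rw [ht, ← mul_add, ← mul_add]
    exact h5
  · rw [hT.per n k _ hd, hT.per n l _ hd]

theorem clop_ext (hT : Toep R θ) (n : ℕ) (c : ℤ) {K : Set ℤ}
    (hK : Clop (fun k => θ (R n * k)) K) : Clop θ {x | ∃ k ∈ K, x = R n * k + c} := by
  obtain ⟨ρ, hρ⟩ := hK
  obtain ⟨ρ', hρ'⟩ := hT.recog n
  refine ⟨ρ' + R n * ρ + c.natAbs, ?_⟩
  rintro x y hxy ⟨k, hk, rfl⟩
  have hc : ((c.natAbs : ℕ) : ℤ) = |c| := Int.natCast_natAbs c
  have h1 : Win θ (ρ' + R n * ρ) ((R n : ℤ) * k + c + (-c)) (y + (-c)) := hxy.shift (by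
    push_cast
    rw [abs_neg])
  have h2 : (R n : ℤ) ∣ y + (-c) := by
    refine hρ' _ _ (h1.mono (Nat.le_add_right _ _)) ?_
    exact ⟨k, by ring⟩
  obtain ⟨l, hl⟩ := h2
  refine ⟨l, hρ k l ?_ hk, by linarith⟩
  intro j hj
  have h3 := h1 ((R n : ℤ) * j) (by
    rw [abs_mul, abs_of_nonneg (Int.natCast_nonneg (R n))]
    push_cast
    have := mul_le_mul_of_nonneg_left hj (Int.natCast_nonneg (R n))
    have h4 : (0 : ℤ) ≤ ρ' := Int.natCast_nonneg _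
    linarith)
  rw [hl] at h3
  have e1 : (R n : ℤ) * k + c + (-c) + R n * j = R n * (k + j) := by ring
  have e2 : (R n : ℤ) * l + R n * j = R n * (l + j) := by ring
  rw [e1, e2] at h3
  exact h3

end Pool.Agent.Lib.MP_c23930_al.AQ
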