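import Pool.Agent.Lib.MP_c23930_al.AQ.Defs

/-!
# Calculus of families of 3-cycles
-/

set_option autoImplicit false

namespace Pool.Agent.Lib.MP_c23930_al.AQ

section
variable {ι κ Ω Ω' : Type*} {π π' : Equiv.Perm Ω} {U V : Set ι} {f g h : ι → Ω}

namespace Is3File

theorem inv_self (τ : Equiv.Perm Ω) (x : Ω) : τ⁻¹ (τ x) = x := τ.symm_apply_apply x

theorem self_inv (τ : Equiv.Perm Ω) (x : Ω) : τ (τ⁻¹ x) = x := τ.apply_symm_apply x

/-- a point is one of the points of the family, or not -/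
theorem cases (U : Set ι) (f g h : ι → Ω) (x : Ω) :
    (∃ u ∈ U, x = f u) ∨ (∃ u ∈ U, x = g u) ∨ (∃ u ∈ U, x = h u) ∨
      ∀ u ∈ U, x ≠ f u ∧ x ≠ g u ∧ x ≠ h u := by
  by_cases h1 : ∃ u ∈ U, x = f u
  · exact Or.inl h1
  by_cases h2 : ∃ u ∈ U, x = g u
  · exact Or.inr (Or.inl h2)
  by_cases h3 : ∃ u ∈ U, x = h u
  · exact Or.inr (Or.inr (Or.inl h3))
  refine Or.inr (Or.inr (Or.inr fun u hu => ⟨fun e => h1 ⟨u, hu, e⟩, fun e => h2 ⟨u, hu, e⟩,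
    fun e => h3 ⟨u, hu, e⟩⟩))

end Is3File

theorem Is3.unique (h₁ : Is3 π U f g h) (h₂ : Is3 π' U f g h) : π = π' := by
  ext x
  rcases Is3File.cases U f g h x with ⟨u, hu, rfl⟩ | ⟨u, hu, rfl⟩ | ⟨u, hu, rfl⟩ | hx
  · rw [h₁.fg u hu, h₂.fg u hu]
  · rw [h₁.gh u hu, h₂.gh u hu]
  · rw [h₁.hf u hu, h₂.hf u hu]
  · rw [h₁.fix x hx, h₂.fix x hx]

namespace Is3File

open Classical in
/-- the map of a family of 3-cycles -/
noncomputable def fam (U : Set ι) (f g h : ι → Ω) (x : Ω) : Ω :=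
  if h1 : ∃ u ∈ U, x = f u then g h1.choose
  else if h2 : ∃ u ∈ U, x = g u then h h2.choose
  else if h3 : ∃ u ∈ U, x = h u then f h3.choose
  else x

theorem fam_f (hi : Inj3 U f g h) {u : ι} (hu : u ∈ U) : fam U f g h (f u) = g u := by
  have h1 : ∃ v ∈ U, f u = f v := ⟨u, hu, rfl⟩
  unfold fam
  rw [dif_pos h1]
  congr 1
  exact (hi.ff u hu _ h1.choose_spec.1 h1.choose_spec.2).symm

theorem fam_g (hi : Inj3 U f g h) {u : ι} (hu : u ∈ U) : fam U f g h (g u) = h u := by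
  have h0 : ¬ ∃ v ∈ U, g u = f v := fun ⟨v, hv, e⟩ => hi.fg v hv u hu e.symm
  have h1 : ∃ v ∈ U, g u = g v := ⟨u, hu, rfl⟩
  unfold fam
  rw [dif_neg h0, dif_pos h1]
  congr 1
  exact (hi.gg u hu _ h1.choose_spec.1 h1.choose_spec.2).symm

theorem fam_h (hi : Inj3 U f g h) {u : ι} (hu : u ∈ U) : fam U f g h (h u) = f u := by
  have h0 : ¬ ∃ v ∈ U, h u = f v := fun ⟨v, hv, e⟩ => hi.hf u hu v hv e
  have h0' : ¬ ∃ v ∈ U, h u = g v := fun ⟨v, hv, e⟩ => hi.gh v hv u hu e.symm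
  have h1 : ∃ v ∈ U, h u = h v := ⟨u, hu, rfl⟩
  unfold fam
  rw [dif_neg h0, dif_neg h0', dif_pos h1]
  congr 1
  exact (hi.hh u hu _ h1.choose_spec.1 h1.choose_spec.2).symm

theorem fam_fix {x : Ω} (hx : ∀ u ∈ U, x ≠ f u ∧ x ≠ g u ∧ x ≠ h u) : fam U f g h x = x := by
  have h1 : ¬ ∃ v ∈ U, x = f v := fun ⟨v, hv, e⟩ => (hx v hv).1 e
  have h2 : ¬ ∃ v ∈ U, x = g v := fun ⟨v, hv, e⟩ => (hx v hv).2.1 e
  have h3 : ¬ ∃ v ∈ U, x = h v := fun ⟨v, hv, e⟩ => (hx v hv).2.2 e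
  unfold fam
  rw [dif_neg h1, dif_neg h2, dif_neg h3]

theorem inj_rev (hi : Inj3 U f g h) : Inj3 U h g f :=
  ⟨hi.hh, hi.gg, hi.ff, fun u hu v hv e => hi.gh v hv u hu e.symm,
    fun u hu v hv e => hi.fg v hv u hu e.symm, fun u hu v hv e => hi.hf v hv u hu e.symm⟩

theorem fam_inv (hi : Inj3 U f g h) (x : Ω) : fam U h g f (fam U f g h x) = x := by
  have hr := inj_rev hi
  rcases Is3File.cases U f g h x with ⟨u, hu, rfl⟩ | ⟨u, hu, rfl⟩ | ⟨u, hu, rfl⟩ | hx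
  · rw [fam_f hi hu, fam_g hr hu]
  · rw [fam_g hi hu, fam_f hr hu]
  · rw [fam_h hi hu, fam_h hr hu]
  · rw [fam_fix hx, fam_fix fun u hu => ⟨(hx u hu).2.2, (hx u hu).2.1, (hx u hu).1⟩]

end Is3File

theorem Inj3.ex (h₁ : Inj3 U f g h) : ∃ π : Equiv.Perm Ω, Is3 π U f g h :=
  ⟨⟨Is3File.fam U f g h, Is3File.fam U h g f, Is3File.fam_inv h₁,
      Is3File.fam_inv (Is3File.inj_rev h₁)⟩,
    ⟨fun _ hu => Is3File.fam_f h₁ hu, fun _ hu => Is3File.fam_g h₁ hu,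
      fun _ hu => Is3File.fam_h h₁ hu, fun _ hx => Is3File.fam_fix hx⟩⟩

theorem Inj3.mono (h₁ : Inj3 U f g h) (hVU : V ⊆ U) : Inj3 V f g h :=
  ⟨fun u hu v hv => h₁.ff u (hVU hu) v (hVU hv), fun u hu v hv => h₁.gg u (hVU hu) v (hVU hv),
    fun u hu v hv => h₁.hh u (hVU hu) v (hVU hv), fun u hu v hv => h₁.fg u (hVU hu) v (hVU hv),
    fun u hu v hv => h₁.gh u (hVU hu) v (hVU hv), fun u hu v hv => h₁.hf u (hVU hu) v (hVU hv)⟩

theorem Is3.rot (h₁ : Is3 π U f g h) : Is3 π U g h f :=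
  ⟨h₁.gh, h₁.hf, h₁.fg, fun x hx => h₁.fix x fun u hu =>
    ⟨(hx u hu).2.2, (hx u hu).1, (hx u hu).2.1⟩⟩

theorem Is3.inv (h₁ : Is3 π U f g h) : Is3 π⁻¹ U h g f :=
  ⟨fun u hu => by rw [Equiv.Perm.inv_eq_iff_eq, h₁.gh u hu],
    fun u hu => by rw [Equiv.Perm.inv_eq_iff_eq, h₁.fg u hu],
    fun u hu => by rw [Equiv.Perm.inv_eq_iff_eq, h₁.hf u hu],
    fun x hx => by
      rw [Equiv.Perm.inv_eq_iff_eq, h₁.fix x fun u hu => ⟨(hx u hu).2.2, (hx u hu).2.1, (hx u hu).1⟩]⟩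

theorem Is3.cube (h₁ : Is3 π U f g h) : π ^ 3 = 1 := by
  ext x
  have e : (π ^ 3) x = π (π (π x)) := rfl
  rw [e, Equiv.Perm.one_apply]
  rcases Is3File.cases U f g h x with ⟨u, hu, rfl⟩ | ⟨u, hu, rfl⟩ | ⟨u, hu, rfl⟩ | hx
  · rw [h₁.fg u hu, h₁.gh u hu, h₁.hf u hu]
  · rw [h₁.gh u hu, h₁.hf u hu, h₁.fg u hu]
  · rw [h₁.hf u hu, h₁.fg u hu, h₁.gh u hu]
  · rw [h₁.fix x hx, h₁.fix x hx, h₁.fix x hx]

theorem Is3.congr (h₁ : Is3 π U f g h) {f' g' h' : ι → Ω} (hf : ∀ u ∈ U, f u = f' u)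
    (hg : ∀ u ∈ U, g u = g' u) (hh : ∀ u ∈ U, h u = h' u) : Is3 π U f' g' h' :=
  ⟨fun u hu => by rw [← hf u hu, ← hg u hu, h₁.fg u hu],
    fun u hu => by rw [← hg u hu, ← hh u hu, h₁.gh u hu],
    fun u hu => by rw [← hh u hu, ← hf u hu, h₁.hf u hu],
    fun x hx => h₁.fix x fun u hu => by
      rw [hf u hu, hg u hu, hh u hu]
      exact hx u hu⟩

/-- change of the index set -/
theorem Is3.reindex (e : κ → ι) (W : Set κ) (he : e '' W = U) :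
    Is3 π U f g h ↔ Is3 π W (fun u => f (e u)) (fun u => g (e u)) (fun u => h (e u)) := by
  subst he
  constructor
  · intro h₁
    exact ⟨fun u hu => h₁.fg _ ⟨u, hu, rfl⟩, fun u hu => h₁.gh _ ⟨u, hu, rfl⟩,
      fun u hu => h₁.hf _ ⟨u, hu, rfl⟩, fun x hx => h₁.fix x (by
        rintro _ ⟨u, hu, rfl⟩
        exact hx u hu)⟩
  · intro h₁
    refine ⟨?_, ?_, ?_, fun x hx => h₁.fix x fun u hu => hx _ ⟨u, hu, rfl⟩⟩
    · rintro _ ⟨u, hu, rfl⟩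
      exact h₁.fg u hu
    · rintro _ ⟨u, hu, rfl⟩
      exact h₁.gh u hu
    · rintro _ ⟨u, hu, rfl⟩
      exact h₁.hf u hu

theorem Is3.permCongr (β : Ω ≃ Ω') : Is3 (β.permCongr π) U (fun u => β (f u)) (fun u => β (g u))
    (fun u => β (h u)) ↔ Is3 π U f g h := by
  constructor
  · intro h₁
    refine ⟨fun u hu => ?_, fun u hu => ?_, fun u hu => ?_, fun x hx => ?_⟩
    · have := h₁.fg u hu
      rw [Equiv.permCongr_apply, Equiv.symm_apply_apply] at this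
      exact β.injective this
    · have := h₁.gh u hu
      rw [Equiv.permCongr_apply, Equiv.symm_apply_apply] at this
      exact β.injective this
    · have := h₁.hf u hu
      rw [Equiv.permCongr_apply, Equiv.symm_apply_apply] at this
      exact β.injective this
    · have := h₁.fix (β x) fun u hu => ⟨fun e => (hx u hu).1 (β.injective e),
        fun e => (hx u hu).2.1 (β.injective e), fun e => (hx u hu).2.2 (β.injective e)⟩
      rw [Equiv.permCongr_apply, Equiv.symm_apply_apply] at this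
      exact β.injective this
  · intro h₁
    refine ⟨fun u hu => ?_, fun u hu => ?_, fun u hu => ?_, fun x hx => ?_⟩
    · rw [Equiv.permCongr_apply, Equiv.symm_apply_apply, h₁.fg u hu]
    · rw [Equiv.permCongr_apply, Equiv.symm_apply_apply, h₁.gh u hu]
    · rw [Equiv.permCongr_apply, Equiv.symm_apply_apply, h₁.hf u hu]
    · rw [Equiv.permCongr_apply, h₁.fix, Equiv.apply_symm_apply]
      intro u hu
      refine ⟨fun e => (hx u hu).1 ?_, fun e => (hx u hu).2.1 ?_, fun e => (hx u hu).2.2 ?_⟩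
      · rw [← e, Equiv.apply_symm_apply]
      · rw [← e, Equiv.apply_symm_apply]
      · rw [← e, Equiv.apply_symm_apply]

theorem Is3.conj (h₁ : Is3 π U f g h) (τ : Equiv.Perm Ω) :
    Is3 (τ * π * τ⁻¹) U (fun u => τ (f u)) (fun u => τ (g u)) (fun u => τ (h u)) := by
  have e : ∀ x, (τ * π * τ⁻¹) x = τ (π (τ⁻¹ x)) := fun _ => rfl
  refine ⟨fun u hu => ?_, fun u hu => ?_, fun u hu => ?_, fun x hx => ?_⟩
  · rw [e, Is3File.inv_self, h₁.fg u hu]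
  · rw [e, Is3File.inv_self, h₁.gh u hu]
  · rw [e, Is3File.inv_self, h₁.hf u hu]
  · rw [e, h₁.fix, Is3File.self_inv]
    intro u hu
    refine ⟨fun e => (hx u hu).1 ?_, fun e => (hx u hu).2.1 ?_, fun e => (hx u hu).2.2 ?_⟩
    · rw [← e, Is3File.self_inv]
    · rw [← e, Is3File.self_inv]
    · rw [← e, Is3File.self_inv]

theorem Is3.empty : Is3 (1 : Equiv.Perm Ω) (∅ : Set ι) f g h :=
  ⟨fun _ hu => absurd hu (Set.notMem_empty _), fun _ hu => absurd hu (Set.notMem_empty _),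
    fun _ hu => absurd hu (Set.notMem_empty _), fun _ _ => rfl⟩

theorem Is3.union (h₁ : Is3 π U f g h) (h₂ : Is3 π' V f g h) (hi : Inj3 (U ∪ V) f g h)
    (hd : Disjoint U V) : Is3 (π * π') (U ∪ V) f g h := by
  have hne : ∀ u ∈ U, ∀ v ∈ V, u ≠ v := fun u hu v hv e =>
    Set.disjoint_left.1 hd hu (e ▸ hv)
  have iU : ∀ u ∈ U, u ∈ U ∪ V := fun u hu => Or.inl hu
  have iV : ∀ v ∈ V, v ∈ U ∪ V := fun v hv => Or.inr hv
  have f1 : ∀ u ∈ U, π' (f u) = f u := fun u hu => h₂.fix _ fun v hv =>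
    ⟨fun e => hne u hu v hv (hi.ff u (iU u hu) v (iV v hv) e), hi.fg u (iU u hu) v (iV v hv),
      (hi.hf v (iV v hv) u (iU u hu)).symm⟩
  have g1 : ∀ u ∈ U, π' (g u) = g u := fun u hu => h₂.fix _ fun v hv =>
    ⟨(hi.fg v (iV v hv) u (iU u hu)).symm,
      fun e => hne u hu v hv (hi.gg u (iU u hu) v (iV v hv) e), hi.gh u (iU u hu) v (iV v hv)⟩
  have k1 : ∀ u ∈ U, π' (h u) = h u := fun u hu => h₂.fix _ fun v hv =>
    ⟨hi.hf u (iU u hu) v (iV v hv), (hi.gh v (iV v hv) u (iU u hu)).symm,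
      fun e => hne u hu v hv (hi.hh u (iU u hu) v (iV v hv) e)⟩
  have f2 : ∀ v ∈ V, π (f v) = f v := fun v hv => h₁.fix _ fun u hu =>
    ⟨fun e => hne u hu v hv (hi.ff v (iV v hv) u (iU u hu) e).symm, hi.fg v (iV v hv) u (iU u hu),
      (hi.hf u (iU u hu) v (iV v hv)).symm⟩
  have g2 : ∀ v ∈ V, π (g v) = g v := fun v hv => h₁.fix _ fun u hu =>
    ⟨(hi.fg u (iU u hu) v (iV v hv)).symm,
      fun e => hne u hu v hv (hi.gg v (iV v hv) u (iU u hu) e).symm, hi.gh v (iV v hv) u (iU u hu)⟩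
  have k2 : ∀ v ∈ V, π (h v) = h v := fun v hv => h₁.fix _ fun u hu =>
    ⟨hi.hf v (iV v hv) u (iU u hu), (hi.gh u (iU u hu) v (iV v hv)).symm,
      fun e => hne u hu v hv (hi.hh v (iV v hv) u (iU u hu) e).symm⟩
  have e : ∀ x, (π * π') x = π (π' x) := fun _ => rfl
  refine ⟨?_, ?_, ?_, ?_⟩
  · rintro u (hu | hu)
    · rw [e, f1 u hu, h₁.fg u hu]
    · rw [e, h₂.fg u hu, g2 u hu]
  · rintro u (hu | hu)
    · rw [e, g1 u hu, h₁.gh u hu]
    · rw [e, h₂.gh u hu, k2 u hu]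
  · rintro u (hu | hu)
    · rw [e, k1 u hu, h₁.hf u hu]
    · rw [e, h₂.hf u hu, f2 u hu]
  · intro x hx
    rw [e, h₂.fix x fun v hv => hx v (iV v hv), h₁.fix x fun u hu => hx u (iU u hu)]

/-- reduction to finitely many pieces -/
theorem is3_cover {Γ : Subgroup (Equiv.Perm Ω)} [Finite κ] (c : ι → κ) (hi : Inj3 U f g h)
    (hc : ∀ t : κ, ∀ τ : Equiv.Perm Ω, Is3 τ {u | u ∈ U ∧ c u = t} f g h → τ ∈ Γ)
    (hπ : Is3 π U f g h) : π ∈ Γ := by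
  classical
  have key : ∀ (s : Finset κ) (τ : Equiv.Perm Ω),
      Is3 τ {u | u ∈ U ∧ c u ∈ s} f g h → τ ∈ Γ := by
    intro s
    induction s using Finset.induction_on with
    | empty =>
      intro τ hτ
      have e : {u | u ∈ U ∧ c u ∈ (∅ : Finset κ)} = (∅ : Set ι) := by
        ext u
        simp
      rw [e] at hτ
      rw [hτ.unique Is3.empty]
      exact Γ.one_mem
    | insert a s ha ih =>
      intro τ hτ
      have e : {u | u ∈ U ∧ c u ∈ insert a s} = {u | u ∈ U ∧ c u = a} ∪ {u | u ∈ U ∧ c u ∈ s} := by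
        ext u
        simp only [Finset.mem_insert, Set.mem_ofPred_eq, Set.mem_union]
        tauto
      have i1 : Inj3 {u | u ∈ U ∧ c u = a} f g h := hi.mono fun u hu => hu.1
      have i2 : Inj3 {u | u ∈ U ∧ c u ∈ s} f g h := hi.mono fun u hu => hu.1
      have i3 : Inj3 ({u | u ∈ U ∧ c u = a} ∪ {u | u ∈ U ∧ c u ∈ s}) f g h :=
        hi.mono fun u hu => hu.elim (fun h => h.1) fun h => h.1
      obtain ⟨τ₁, h1⟩ := i1.ex
      obtain ⟨τ₂, h2⟩ := i2.ex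
      have hd : Disjoint {u | u ∈ U ∧ c u = a} {u | u ∈ U ∧ c u ∈ s} := by
        rw [Set.disjoint_left]
        rintro u ⟨_, hu⟩ ⟨_, hu'⟩
        rw [hu] at hu'
        exact ha hu'
      rw [e] at hτ
      rw [hτ.unique (h1.union h2 i3 hd)]
      exact Γ.mul_mem (hc a τ₁ h1) (ih τ₂ h2)
  have := Fintype.ofFinite κ
  refine key Finset.univ π ?_
  have e : {u | u ∈ U ∧ c u ∈ (Finset.univ : Finset κ)} = U := by
    ext u
    simp
  rw [e]
  exact hπ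

/-- 3-cycle families with disjoint supports commute -/
theorem Is3.commute {f' g' h' : κ → Ω} {W : Set κ} (h₁ : Is3 π U f g h)
    (h₂ : Is3 π' W f' g' h')
    (hd : ∀ u ∈ U, ∀ v ∈ W, f u ≠ f' v ∧ f u ≠ g' v ∧ f u ≠ h' v ∧ g u ≠ f' v ∧ g u ≠ g' v ∧
      g u ≠ h' v ∧ h u ≠ f' v ∧ h u ≠ g' v ∧ h u ≠ h' v) : Commute π π' := by
  refine Equiv.Perm.Disjoint.commute fun x => ?_
  rcases Is3File.cases U f g h x with ⟨u, hu, rfl⟩ | ⟨u, hu, rfl⟩ | ⟨u, hu, rfl⟩ | hx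
  · refine Or.inr (h₂.fix _ fun v hv => ?_)
    obtain ⟨a1, a2, a3, -⟩ := hd u hu v hv
    exact ⟨a1, a2, a3⟩
  · refine Or.inr (h₂.fix _ fun v hv => ?_)
    obtain ⟨-, -, -, a1, a2, a3, -⟩ := hd u hu v hv
    exact ⟨a1, a2, a3⟩
  · refine Or.inr (h₂.fix _ fun v hv => ?_)
    obtain ⟨-, -, -, -, -, -, a1, a2, a3⟩ := hd u hu v hv
    exact ⟨a1, a2, a3⟩
  · exact Or.inl (h₁.fix x hx)

end

end Pool.Agent.Lib.MP_c23930_al.AQ
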