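import Pool.Agent.Lib.MP_c23930_al.AQ.Extend
import Pool.Agent.Lib.MP_c23930_al.AQ.Is3

set_option autoImplicit false

namespace Pool.Agent.Lib.MP_c23930_al.AQ

variable {X : Type} [Fintype X] [DecidableEq X]

namespace CylAux

theorem mr_int (w : LZ X) (j : ℤ) : (mr X w).1 (j : ZMod (Fintype.card X)) =
    w.1 ((j + 1 : ℤ) : ZMod (Fintype.card X)) := by
  change w.1 ((j : ZMod (Fintype.card X)) + 1) = _
  push_cast
  rfl

theorem mrs_int (w : LZ X) (j : ℤ) : ((mr X).symm w).1 (j : ZMod (Fintype.card X)) =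
    w.1 ((j - 1 : ℤ) : ZMod (Fintype.card X)) := by
  change w.1 ((j : ZMod (Fintype.card X)) + -1) = _
  push_cast
  rw [sub_eq_add_neg]

theorem cyl_head {θ' : ℤ → Bool} {w₀ w : LZ X} {a b : ℕ} (h : w ∈ Cyl θ' w₀ a b) :
    w.1 0 = w₀.1 0 ∧ w.1 (-1) = w₀.1 (-1) := by
  have h1 := h.1 0 (by omega) (by omega)
  have h2 := h.1 (-1) (by omega) (by omega)
  push_cast at h1 h2
  exact ⟨h1, h2⟩

theorem self_mem {θ' : ℤ → Bool} (w₀ : LZ X) (a b : ℕ) : w₀ ∈ Cyl θ' w₀ a b :=
  ⟨fun _ _ _ => rfl, fun _ _ _ => rfl⟩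

theorem cyl_zero (θ' : ℤ → Bool) (w₀ : LZ X) :
    Cyl θ' w₀ 0 0 = hd θ' (w₀.1 0) (w₀.1 (-1)) (θ' w₀.2) := by
  ext w
  constructor
  · intro h
    obtain ⟨h1, h2⟩ := cyl_head h
    have h3 := h.2 0 (by omega) (by omega)
    rw [add_zero, add_zero] at h3
    exact ⟨h1, h2, h3⟩
  · rintro ⟨h1, h2, h3⟩
    refine ⟨fun j hj1 hj2 => ?_, fun j hj1 hj2 => ?_⟩
    · push_cast at hj1 hj2
      rcases (by omega : j = -1 ∨ j = 0) with rfl | rfl
      · push_cast; exact h2
      · push_cast; exact h1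
    · push_cast at hj1 hj2
      have : j = 0 := by omega
      subst this
      rw [add_zero, add_zero]
      exact h3

theorem cyl_right (θ' : ℤ → Bool) (w₀ : LZ X) (a b : ℕ) :
    Cyl θ' w₀ a (b + 1) = {w | w ∈ Cyl θ' w₀ a b ∧ mr X w ∈ Cyl θ' (mr X w₀) 0 b} := by
  ext w
  constructor
  · rintro ⟨h1, h2⟩
    refine ⟨⟨fun j hj1 hj2 => h1 j hj1 (by push_cast; omega),
      fun j hj1 hj2 => h2 j hj1 (by push_cast; omega)⟩, ?_, ?_⟩
    · intro j hj1 hj2
      rw [mr_int, mr_int]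
      exact h1 (j + 1) (by push_cast at hj1; omega) (by push_cast; omega)
    · intro j hj1 hj2
      have := h2 (j + 1) (by push_cast at hj1; omega) (by push_cast; omega)
      change θ' (w.2 + 1 + j) = θ' (w₀.2 + 1 + j)
      rw [add_assoc, add_assoc, add_comm 1 j]
      exact this
  · rintro ⟨⟨h1, h2⟩, h3, h4⟩
    refine ⟨fun j hj1 hj2 => ?_, fun j hj1 hj2 => ?_⟩
    · by_cases hj : j ≤ b
      · exact h1 j hj1 hj
      · have hj' : j = b + 1 := by push_cast at hj2; omega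
        have := h3 b (by omega) (by omega)
        rw [mr_int, mr_int] at this
        rw [hj']
        exact this
    · by_cases hj : j ≤ b
      · exact h2 j hj1 hj
      · have hj' : j = b + 1 := by push_cast at hj2; omega
        have := h4 b (by omega) (by omega)
        change θ' (w.2 + 1 + b) = θ' (w₀.2 + 1 + b) at this
        rw [add_assoc, add_assoc, add_comm (1 : ℤ)] at this
        rw [hj']
        exact this

theorem cyl_left (θ' : ℤ → Bool) (w₀ : LZ X) (a b : ℕ) :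
    Cyl θ' w₀ (a + 1) b = {w | w ∈ Cyl θ' w₀ a b ∧ (mr X).symm w ∈ Cyl θ' ((mr X).symm w₀) a 0} := by
  ext w
  constructor
  · rintro ⟨h1, h2⟩
    refine ⟨⟨fun j hj1 hj2 => h1 j (by push_cast; omega) hj2,
      fun j hj1 hj2 => h2 j (by push_cast; omega) hj2⟩, ?_, ?_⟩
    · intro j hj1 hj2
      rw [mrs_int, mrs_int]
      exact h1 (j - 1) (by push_cast; omega) (by push_cast at hj2; omega)
    · intro j hj1 hj2
      have := h2 (j - 1) (by push_cast; omega) (by push_cast at hj2; omega)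
      change θ' (w.2 - 1 + j) = θ' (w₀.2 - 1 + j)
      have e1 : w.2 - 1 + j = w.2 + (j - 1) := by ring
      have e2 : w₀.2 - 1 + j = w₀.2 + (j - 1) := by ring
      rw [e1, e2]
      exact this
  · rintro ⟨⟨h1, h2⟩, h3, h4⟩
    refine ⟨fun j hj1 hj2 => ?_, fun j hj1 hj2 => ?_⟩
    · by_cases hj : -1 - (a : ℤ) ≤ j
      · exact h1 j hj hj2
      · have hj' : j = (-1 - (a : ℤ)) - 1 := by push_cast at hj1; omega
        have := h3 (-1 - (a : ℤ)) (by omega) (by push_cast; omega)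
        rw [mrs_int, mrs_int] at this
        rw [hj']
        exact this
    · by_cases hj : -(a : ℤ) ≤ j
      · exact h2 j hj hj2
      · have hj' : j = -(a : ℤ) - 1 := by push_cast at hj1; omega
        have := h4 (-(a : ℤ)) (by omega) (by push_cast; omega)
        change θ' (w.2 - 1 + -(a : ℤ)) = θ' (w₀.2 - 1 + -(a : ℤ)) at this
        have e1 : w.2 + j = w.2 - 1 + -(a : ℤ) := by rw [hj']; ring
        have e2 : w₀.2 + j = w₀.2 - 1 + -(a : ℤ) := by rw [hj']; ring
        rw [e1, e2]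
        exact this

theorem ne_one_neg_one (h3 : 3 ≤ Fintype.card X) : (1 : ZMod (Fintype.card X)) ≠ -1 :=
  Extend.one_ne h3

end CylAux

open CylAux

theorem cyl_mem (h3 : 3 ≤ Fintype.card X) (θ' : ℤ → Bool) (Γ : Subgroup (Equiv.Perm (LZ X)))
    (hΓ : ∀ (x y : X) (i : Bool), x ≠ y → ∀ π, Lamp (hd θ' x y i) π → π ∈ Γ)
    (w₀ : LZ X) (a b : ℕ) (π : Equiv.Perm (LZ X)) (hπ : Lamp (Cyl θ' w₀ a b) π) : π ∈ Γ := by
  have hxy : ∀ w : LZ X, w.1 0 ≠ w.1 (-1) := by
    intro w e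
    have h1 := w.1.injective e
    have h2 : ((1 : ℕ) : ZMod (Fintype.card X)) = 0 := by
      rw [Nat.cast_one]
      have := congrArg (fun x => x + 1) h1
      simpa using this
    rw [ZMod.natCast_eq_zero_iff] at h2
    have := Nat.le_of_dvd one_pos h2
    omega
  have hex : ∀ (w : LZ X) (a b : ℕ), ∃ π, Lamp (Cyl θ' w a b) π := fun w a b =>
    (inj3_lamp h3 (hxy w) (fun v hv => cyl_head hv)).ex
  have hR : ∀ a b : ℕ, (∀ w π, Lamp (Cyl θ' w a b) π → π ∈ Γ) →
      (∀ w π, Lamp (Cyl θ' w 0 b) π → π ∈ Γ) → ∀ w π, Lamp (Cyl θ' w a (b + 1)) π → π ∈ Γ := by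
    intro a b h1 h2 w π hπ
    obtain ⟨s, hs⟩ := hex w a b
    obtain ⟨t, ht⟩ := hex (mr X w) 0 b
    rw [cyl_right] at hπ
    have hz : (mr X w).1 0 = w.1 1 := by
      change w.1 (0 + 1) = w.1 1
      rw [zero_add]
    have hz' : (mr X w).1 (-1) = w.1 0 := by
      change w.1 (-1 + 1) = w.1 0
      rw [neg_add_cancel]
    have e := ext_right h3 (x := w.1 0) (y := w.1 (-1)) (z := w.1 1) (hxy w)
      (fun e => by
        have h1 := w.1.injective e
        have h2 : ((1 : ℕ) : ZMod (Fintype.card X)) = 0 := by rw [Nat.cast_one, h1]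
        rw [ZMod.natCast_eq_zero_iff] at h2
        have := Nat.le_of_dvd one_pos h2
        omega)
      (fun e => ne_one_neg_one h3 (w.1.injective e))
      (C := Cyl θ' w a b) (C₂ := Cyl θ' (mr X w) 0 b) (fun v hv => cyl_head hv)
      (fun v hv => by
        have := cyl_head hv
        rw [hz, hz'] at this
        exact this) hs ht hπ
    rw [e]
    have gs := h1 w s hs
    have gt := h2 (mr X w) t ht
    have gc := Γ.mul_mem (Γ.mul_mem (Γ.mul_mem gs gt) (Γ.inv_mem gs)) (Γ.inv_mem gt)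
    exact Γ.mul_mem (Γ.mul_mem (Γ.mul_mem gc gs) gc) (Γ.inv_mem gs)
  have hL : ∀ a b : ℕ, (∀ w π, Lamp (Cyl θ' w a b) π → π ∈ Γ) →
      (∀ w π, Lamp (Cyl θ' w a 0) π → π ∈ Γ) → ∀ w π, Lamp (Cyl θ' w (a + 1) b) π → π ∈ Γ := by
    intro a b h1 h2 w π hπ
    obtain ⟨s, hs⟩ := hex w a b
    obtain ⟨t, ht⟩ := hex ((mr X).symm w) a 0
    rw [cyl_left] at hπ
    have hz : ((mr X).symm w).1 0 = w.1 (-1) := by
      change w.1 (0 + -1) = w.1 (-1)
      rw [zero_add]
    have hz' : ((mr X).symm w).1 (-1) = w.1 (-2) := by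
      change w.1 (-1 + -1) = w.1 (-2)
      congr 1
      norm_num
    have e := ext_left h3 (x := w.1 0) (y := w.1 (-1)) (z := w.1 (-2)) (hxy w)
      (fun e => by
        have h1 := w.1.injective e
        apply ne_one_neg_one h3
        calc (1 : ZMod (Fintype.card X)) = -1 - -2 := by norm_num
          _ = -1 - 0 := by rw [h1]
          _ = -1 := sub_zero _)
      (fun e => by
        have h1 := w.1.injective e
        have h2 : ((1 : ℕ) : ZMod (Fintype.card X)) = 0 := by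
          calc ((1 : ℕ) : ZMod (Fintype.card X)) = -1 - -2 := by norm_num
            _ = -1 - -1 := by rw [h1]
            _ = 0 := sub_self _
        rw [ZMod.natCast_eq_zero_iff] at h2
        have := Nat.le_of_dvd one_pos h2
        omega)
      (C := Cyl θ' w a b) (C₃ := Cyl θ' ((mr X).symm w) a 0) (fun v hv => cyl_head hv)
      (fun v hv => by
        have := cyl_head hv
        rw [hz, hz'] at this
        exact this) hs ht hπ
    rw [e]
    have gs := h1 w s hs
    have gt := h2 ((mr X).symm w) t ht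
    have gc := Γ.mul_mem (Γ.mul_mem (Γ.mul_mem gs gt) (Γ.inv_mem gs)) (Γ.inv_mem gt)
    exact Γ.mul_mem (Γ.mul_mem (Γ.mul_mem gc gs) gc) (Γ.inv_mem gs)
  have h0 : ∀ b : ℕ, ∀ w π, Lamp (Cyl θ' w 0 b) π → π ∈ Γ := by
    intro b
    induction b with
    | zero =>
      intro w π hπ
      rw [cyl_zero] at hπ
      exact hΓ _ _ _ (hxy w) π hπ
    | succ b ih => exact hR 0 b ih ih
  have hall : ∀ a b : ℕ, ∀ w π, Lamp (Cyl θ' w a b) π → π ∈ Γ := by
    intro a
    induction a with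
    | zero => exact h0
    | succ a ih => exact fun b => hL a b (ih b) (ih 0)
  exact hall a b w₀ π hπ

theorem lamp_mem (h3 : 3 ≤ Fintype.card X) (θ' : ℤ → Bool) (Γ : Subgroup (Equiv.Perm (LZ X)))
    (hΓ : ∀ (x y : X) (i : Bool), x ≠ y → ∀ π, Lamp (hd θ' x y i) π → π ∈ Γ)
    (σ₀ : Lst X) (K : Set ℤ) (hK : Clop θ' K) (π : Equiv.Perm (LZ X))
    (hπ : Lamp {w | w.1 = σ₀ ∧ w.2 ∈ K} π) : π ∈ Γ := by
  classical
  obtain ⟨ρ, hρ⟩ := hK
  set a : ℕ := max ρ (Fintype.card X) with ha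
  have hxy : σ₀ 0 ≠ σ₀ (-1) := by
    intro e
    have h1 := σ₀.injective e
    have h2 : ((1 : ℕ) : ZMod (Fintype.card X)) = 0 := by
      rw [Nat.cast_one]
      have := congrArg (fun x => x + 1) h1
      simpa using this
    rw [ZMod.natCast_eq_zero_iff] at h2
    have := Nat.le_of_dvd one_pos h2
    omega
  have hne : NeZero (Fintype.card X) := ⟨by omega⟩
  refine is3_cover (κ := (Fin (2 * a + 1) → Bool)) (fun w : LZ X => fun i : Fin (2 * a + 1) =>
    θ' (w.2 + ((i : ℕ) - (a : ℤ)))) (inj3_lamp h3 hxy (fun w hw => by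
      obtain ⟨h1, _⟩ := hw
      exact ⟨by rw [h1], by rw [h1]⟩)) ?_ hπ
  intro t τ hτ
  by_cases hne' : ∃ w₁ : LZ X, w₁ ∈ {w : LZ X | w ∈ {w : LZ X | w.1 = σ₀ ∧ w.2 ∈ K} ∧
      (fun i : Fin (2 * a + 1) => θ' (w.2 + ((i : ℕ) - (a : ℤ)))) = t}
  · obtain ⟨w₁, hw₁⟩ := hne'
    refine cyl_mem h3 θ' Γ hΓ w₁ a a τ ?_
    have hset : {w : LZ X | w ∈ {w : LZ X | w.1 = σ₀ ∧ w.2 ∈ K} ∧
      (fun i : Fin (2 * a + 1) => θ' (w.2 + ((i : ℕ) - (a : ℤ)))) = t} = Cyl θ' w₁ a a := by
      ext w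
      constructor
      · rintro ⟨⟨h1, h2⟩, h4⟩
        refine ⟨fun j _ _ => by rw [h1, hw₁.1.1], fun j hj1 hj2 => ?_⟩
        have h5 := h4.trans hw₁.2.symm
        have h6 := congrFun h5 ⟨(j + a).toNat, by omega⟩
        have h7 : (((j + a).toNat : ℕ) : ℤ) - (a : ℤ) = j := by
          rw [Int.toNat_of_nonneg (by omega)]; ring
        simp only [h7] at h6
        exact h6
      · intro hw
        have hw1 : w.1 = σ₀ := by
          rw [← hw₁.1.1]
          refine Equiv.ext fun i => ?_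
          have h8 := hw.1 (i.val : ℤ) (by omega) (by
            have := ZMod.val_lt i
            have : Fintype.card X ≤ a := le_max_right _ _
            omega)
          rw [Int.cast_natCast, ZMod.natCast_zmod_val] at h8
          exact h8
        have hwin : ∀ j : ℤ, |j| ≤ a → θ' (w.2 + j) = θ' (w₁.2 + j) := fun j hj =>
          hw.2 j (by have := neg_abs_le j; omega) (by have := le_abs_self j; omega)
        refine ⟨⟨hw1, ?_⟩, ?_⟩
        · refine hρ w₁.2 w.2 ?_ hw₁.1.2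
          intro j hj
          refine (hwin j (hj.trans ?_)).symm
          exact_mod_cast le_max_left _ _
        · rw [← hw₁.2]
          funext i
          refine hwin _ ?_
          have := i.2
          rw [abs_le]
          constructor <;> omega
    rw [hset] at hτ
    exact hτ
  · push Not at hne'
    have : {w : LZ X | w ∈ {w : LZ X | w.1 = σ₀ ∧ w.2 ∈ K} ∧
      (fun i : Fin (2 * a + 1) => θ' (w.2 + ((i : ℕ) - (a : ℤ)))) = t} = ∅ := by
      ext w
      simp only [Set.mem_empty_iff_false, iff_false]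
      exact hne' w
    rw [this] at hτ
    have e := hτ.unique Is3.empty
    rw [e]
    exact Γ.one_mem

end Pool.Agent.Lib.MP_c23930_al.AQ
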