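import Pool.Agent.Lib.MP_c23930_al.PDefs
import Pool.Agent.Lib.MP_c23930_al.Defs

/-!
# Definitions for the disproof S02972: the alternating full group of a Toeplitz sequence

Blueprint: /team-store/MP_c23930_h49.md and /team-store/MP_c23930_AQ.md
-/

set_option autoImplicit false

namespace Pool.Agent.Lib.MP_c23930_al.AQ

/-! ### Toeplitz sequences and clopen sets -/

/-- a Toeplitz sequence with scales `R n` -/
structure Toep (R : ℕ → ℕ) (θ : ℤ → Bool) : Prop where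
  pos : ∀ n, 0 < R n
  dvd : ∀ n, R n ∣ R (n + 1)
  lt : ∀ n, R n < R (n + 1)
  per : ∀ (n : ℕ) (k c : ℤ), ¬ (R n : ℤ) ∣ c → θ (R n * k + c) = θ c
  recog : ∀ n, ∃ ρ : ℕ, ∀ x y : ℤ, (∀ j : ℤ, |j| ≤ ρ → θ (x + j) = θ (y + j)) →
    ((R n : ℤ) ∣ x → (R n : ℤ) ∣ y)

/-- `x` and `y` see the same window of radius `ρ` -/
def Win (θ : ℤ → Bool) (ρ : ℕ) (x y : ℤ) : Prop := ∀ j : ℤ, |j| ≤ ρ → θ (x + j) = θ (y + j)

/-- membership in `U` depends only on a window of bounded radius -/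
def Clop (θ : ℤ → Bool) (U : Set ℤ) : Prop :=
  ∃ ρ : ℕ, ∀ x y : ℤ, Win θ ρ x y → x ∈ U → y ∈ U

/-! ### families of 3-cycles -/

/-- `π` permutes `f u → g u → h u → f u` for all `u ∈ U`, and fixes all other points -/
structure Is3 {ι Ω : Type*} (π : Equiv.Perm Ω) (U : Set ι) (f g h : ι → Ω) : Prop where
  fg : ∀ u ∈ U, π (f u) = g u
  gh : ∀ u ∈ U, π (g u) = h u
  hf : ∀ u ∈ U, π (h u) = f u
  fix : ∀ x, (∀ u ∈ U, x ≠ f u ∧ x ≠ g u ∧ x ≠ h u) → π x = x

/-- the points `f u, g u, h u` (`u ∈ U`) are pairwise distinct -/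
structure Inj3 {ι Ω : Type*} (U : Set ι) (f g h : ι → Ω) : Prop where
  ff : ∀ u ∈ U, ∀ v ∈ U, f u = f v → u = v
  gg : ∀ u ∈ U, ∀ v ∈ U, g u = g v → u = v
  hh : ∀ u ∈ U, ∀ v ∈ U, h u = h v → u = v
  fg : ∀ u ∈ U, ∀ v ∈ U, f u ≠ g v
  gh : ∀ u ∈ U, ∀ v ∈ U, g u ≠ h v
  hf : ∀ u ∈ U, ∀ v ∈ U, h u ≠ f v

/-- the alternating full group: generated by the 3-cycles `x → x + a → x + b → x`, `x ∈ U` clopen -/
def AA (θ : ℤ → Bool) : Subgroup (Equiv.Perm ℤ) :=
  Subgroup.closure {π | ∃ (U : Set ℤ) (a b : ℤ), Clop θ U ∧ a ≠ 0 ∧ b ≠ 0 ∧ a ≠ b ∧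
    Is3 π U (fun x => x) (fun x => x + a) (fun x => x + b)}

/-! ### lists with a head and a tail -/

/-- lists: bijections from cyclic positions to letters -/
abbrev Lst (X : Type) [Fintype X] := ZMod (Fintype.card X) ≃ X

/-- lists together with an integer -/
abbrev LZ (X : Type) [Fintype X] := Lst X × ℤ

/-- rotation: `(σ, k) ↦ (σ ∘ (· + 1), k + 1)` -/
def mr (X : Type) [Fintype X] : Equiv.Perm (LZ X) where
  toFun w := ((Equiv.addRight (1 : ZMod (Fintype.card X))).trans w.1, w.2 + 1)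
  invFun w := ((Equiv.addRight (-1 : ZMod (Fintype.card X))).trans w.1, w.2 - 1)
  left_inv w := by
    refine Prod.ext (Equiv.ext fun j => ?_) (by simp)
    simp
  right_inv w := by
    refine Prod.ext (Equiv.ext fun j => ?_) (by simp)
    simp

/-- swap of the letters at the positions `0` and `-1` -/
def ms (X : Type) [Fintype X] : Equiv.Perm (LZ X) where
  toFun w := ((Equiv.swap (0 : ZMod (Fintype.card X)) (-1)).trans w.1, w.2)
  invFun w := ((Equiv.swap (0 : ZMod (Fintype.card X)) (-1)).trans w.1, w.2)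
  left_inv w := by
    refine Prod.ext (Equiv.ext fun j => ?_) rfl
    simp
  right_inv w := by
    refine Prod.ext (Equiv.ext fun j => ?_) rfl
    simp

/-- permutations of the letters act on the lists -/
def lm (X : Type) [Fintype X] : Equiv.Perm X →* Equiv.Perm (LZ X) where
  toFun π :=
    { toFun := fun w => (w.1.trans π, w.2)
      invFun := fun w => (w.1.trans π⁻¹, w.2)
      left_inv := fun w => by
        refine Prod.ext (Equiv.ext fun j => ?_) rfl
        simp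
      right_inv := fun w => by
        refine Prod.ext (Equiv.ext fun j => ?_) rfl
        simp }
  map_one' := by ext w <;> rfl
  map_mul' π π' := by ext w <;> rfl

/-- lists with head `x`, tail `y`, and value `i` of the sequence at `k` -/
def hd {X : Type} [Fintype X] (θ : ℤ → Bool) (x y : X) (i : Bool) : Set (LZ X) :=
  {w | w.1 0 = x ∧ w.1 (-1) = y ∧ θ w.2 = i}

/-- the lamp `w → w r → w s → w` on the set `C` -/
abbrev Lamp {X : Type} [Fintype X] (C : Set (LZ X)) (π : Equiv.Perm (LZ X)) : Prop :=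
  Is3 π C (fun w => w) (mr X) (ms X)

/-- cylinder sets: same letters at the positions `-1-a, ..., b`, same values at `k-a, ..., k+b` -/
def Cyl {X : Type} [Fintype X] (θ : ℤ → Bool) (w₀ : LZ X) (a b : ℕ) : Set (LZ X) :=
  {w | (∀ j : ℤ, -1 - (a : ℤ) ≤ j → j ≤ b → w.1 (j : ZMod (Fintype.card X)) = w₀.1 (j : ZMod (Fintype.card X))) ∧
    ∀ j : ℤ, -(a : ℤ) ≤ j → j ≤ b → θ (w.2 + j) = θ (w₀.2 + j)}

/-- translation of the integer coordinate -/
def shf {X : Type} [Fintype X] (p : LZ X) (k : ℤ) : LZ X := (p.1, p.2 + k)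

/-- `D`-separated sets of integers -/
def Sep (D : ℕ) (K : Set ℤ) : Prop := ∀ k ∈ K, ∀ l ∈ K, k ≠ l → (D : ℤ) < |k - l|

/-- all sufficiently separated families of 3-cycles `p + k → q + k → s + k → p + k` are in `Γ` -/
def Good {X : Type} [Fintype X] (θ : ℤ → Bool) (Γ : Subgroup (Equiv.Perm (LZ X)))
    (p q s : LZ X) : Prop :=
  ∃ D : ℕ, ∀ K : Set ℤ, Clop θ K → Sep D K → ∀ π : Equiv.Perm (LZ X),
    Is3 π K (shf p) (shf q) (shf s) → π ∈ Γ

/-- the group generated by the permutations of the letters and all lamps -/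
def GamW (X : Type) [Fintype X] (θ : ℤ → Bool) : Subgroup (Equiv.Perm (LZ X)) :=
  Subgroup.closure (Set.range (lm X) ∪ {π | ∃ (x y : X) (i : Bool), x ≠ y ∧ Lamp (hd θ x y i) π})

/-- the alternating full group in list coordinates -/
def AW {X : Type} [Fintype X] (θ : ℤ → Bool) (β : LZ X ≃ ℤ) : Subgroup (Equiv.Perm (LZ X)) :=
  (AA θ).comap β.permCongrHom.toMonoidHom

/-! ### frames -/

/-- a system of generators of `Q` indexed by the permutations and the pairs of elements of `X` -/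
structure Frame (Q X : Type) [Group Q] where
  /-- permutations -/
  lam : Equiv.Perm X →* Q
  /-- lamps -/
  c : Bool → X → X → Q
  conj : ∀ (π : Equiv.Perm X) (i : Bool) (x y : X), x ≠ y →
    lam π * c i x y * (lam π)⁻¹ = c i (π x) (π y)
  cube : ∀ (i : Bool) (x y : X), x ≠ y → c i x y ^ 3 = 1
  comm : ∀ (i j : Bool) (x y x' y' : X), x ≠ y → x' ≠ y' →
    (x ≠ x' ∧ x ≠ y' ∧ y ≠ x' ∧ y ≠ y') ∨ (x = x' ∧ y = y') → Commute (c i x y) (c j x' y')
  fin : ∀ z : X, ∃ P : Subgroup Q, Finite P ∧ (∀ π : Equiv.Perm X, lam π ∈ P ↔ π z = z) ∧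
    ∀ (i : Bool) (x y : X), x ≠ y → x ≠ z → y ≠ z → c i x y ∈ P
  gen : Subgroup.closure (Set.range lam ∪ {q | ∃ (i : Bool) (x y : X), x ≠ y ∧ q = c i x y}) = ⊤

/-! ### the slow generating set of `B wr Q` -/

/-- letters of the frame of level `m` -/
abbrev XX (m : ℕ) : Type := Om m × Fin 5

/-- permutations of the first coordinate -/
def up (m : ℕ) : Equiv.Perm (Om m) →* Equiv.Perm (XX m) where
  toFun h := Equiv.prodCongr h (Equiv.refl (Fin 5))
  map_one' := by ext x <;> rfl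
  map_mul' h h' := by ext x <;> rfl

/-- generators of `B wr Q` -/
inductive Gn (B : Type)
  | q (s : Q4)
  | k (s : Option Q4)
  | j (l : Fin 3)
  | c (i : Bool)
  | b1 (b : B)
  | b2 (b : B)

/-- the function with value `b` on `s` and `1` elsewhere -/
noncomputable def ind {B Q : Type} [Group B] (s : Set Q) (hs : s.Finite) (b : B) : base B Q :=
  open Classical in
  ⟨fun x => if x ∈ s then b else 1, hs.subset (by
    intro x hx
    by_contra h
    exact hx (if_neg h))⟩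

/-- the label `l + 2` -/
def lab (l : Fin 3) : Fin 5 := ⟨l.1 + 2, by omega⟩

/-- value of a generator -/
noncomputable def Gn.val {B Q : Type} [Group B] [Group Q] {m : ℕ} (F : Frame Q (XX m))
    (u u' : Om m) (P : Subgroup Q) (hP : (P : Set Q).Finite) (g : Q) : Gn B → Wreath B Q
  | .q s => SemidirectProduct.inr (F.lam (up m (gq m s)))
  | .k s => SemidirectProduct.inr (F.lam (Equiv.swap (u, 0) (s.elim u (fun t => gq m t u), 1)))
  | .j l => SemidirectProduct.inr (F.lam (Equiv.swap (u, 1) (u', lab l)))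
  | .c i => SemidirectProduct.inr (F.c i (u, 2) (u, 3))
  | .b1 b => SemidirectProduct.inl (ind (P : Set Q) hP b)
  | .b2 b => SemidirectProduct.inl (ind ((fun x => x * g) '' (P : Set Q)) (hP.image _) b)

/-- the coset `λ(π) P`, where `π (u, 4) = (p, 4)` -/
def cs {Q : Type} [Group Q] {m : ℕ} (F : Frame Q (XX m)) (u : Om m) (P : Subgroup Q) (p : Om m) :
    Set Q :=
  {x | ∃ π : Equiv.Perm (XX m), π (u, 4) = (p, 4) ∧ (F.lam π)⁻¹ * x ∈ P}

/-- the commutative group of the lamps at the points of `O` -/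
def LL {Q : Type} [Group Q] {m : ℕ} (F : Frame Q (XX m)) (O : Finset (Om m)) : Subgroup Q :=
  Subgroup.closure {q | ∃ (i : Bool) (p : Om m), p ∈ O ∧ q = F.c i (p, 2) (p, 3)}

/-- normal form of a product of `i` letters -/
structure NF {B Q : Type} [Group B] [Group Q] {m : ℕ} (F : Frame Q (XX m)) (u u' : Om m)
    (P : Subgroup Q) (g : Q) (i : ℕ) (w : MW) (π : Equiv.Perm (XX m)) (Λ : Q) (f₁ f₂ : Om m → B)
    (x : Wreath B Q) : Prop where
  wt : w.wt ≤ 7 * i
  supp : ∀ p l, π (p, l) ≠ (p, l) → p ∈ w.io m u ∪ w.io m u'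
  far : ∀ p l, 2 ≤ l → π (p, l) ≠ (p, l) → ∃ v ∈ Sball m u' i, p = w.ev m v
  lamps : Λ ∈ LL F (w.io m u)
  supp1 : ∀ p, f₁ p ≠ 1 → p ∈ w.io m u
  supp2 : ∀ p, f₂ p ≠ 1 → p ∈ w.io m u
  right : x.right = Λ * F.lam π * F.lam (up m (w.ev m))
  left1 : ∀ p, ∀ y ∈ cs F u P p, x.left.1 y = f₁ p
  left2 : ∀ p y, y * g⁻¹ ∈ cs F u P p → x.left.1 y = f₂ p
  left3 : ∀ y, (∀ p, y ∉ cs F u P p) → (∀ p, y * g⁻¹ ∉ cs F u P p) → x.left.1 y = 1

end Pool.Agent.Lib.MP_c23930_al.AQ
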