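import Pool.Agent.Lib.MP_c23930_al.AQ.Defs

/-!
# E1: commutators of two families of 3-cycles with common points
-/

set_option autoImplicit false

namespace Pool.Agent.Lib.MP_c23930_al.AQ

namespace Extend

variable {Ω : Type*} {s t e : Equiv.Perm Ω}

/-- five points -/
theorem five {p q r b c : Ω} (h1 : s p = q) (h2 : s q = r) (h3 : s r = p) (h4 : t q = b)
    (h5 : t b = c) (h6 : t c = q) (h7 : s b = b) (h8 : s c = c) (h9 : t p = p) (h10 : t r = r)
    (e1 : e p = q) (e2 : e q = r) (e3 : e r = p) (e4 : e b = b) (e5 : e c = c) (x : Ω)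
    (hx : x = p ∨ x = q ∨ x = r ∨ x = b ∨ x = c) :
    e x = ((s * t * s⁻¹ * t⁻¹) * s * (s * t * s⁻¹ * t⁻¹) * s⁻¹) x := by
  have i1 : s⁻¹ q = p := by rw [← h1]; exact s.symm_apply_apply p
  have i2 : s⁻¹ r = q := by rw [← h2]; exact s.symm_apply_apply q
  have i3 : s⁻¹ p = r := by rw [← h3]; exact s.symm_apply_apply r
  have i4 : t⁻¹ b = q := by rw [← h4]; exact t.symm_apply_apply q
  have i5 : t⁻¹ c = b := by rw [← h5]; exact t.symm_apply_apply b
  have i6 : t⁻¹ q = c := by
    conv_lhs => rw [← h6]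
    exact t.symm_apply_apply c
  have i7 : s⁻¹ b = b := by
    conv_lhs => rw [← h7]
    exact s.symm_apply_apply b
  have i8 : s⁻¹ c = c := by
    conv_lhs => rw [← h8]
    exact s.symm_apply_apply c
  have i9 : t⁻¹ p = p := by
    conv_lhs => rw [← h9]
    exact t.symm_apply_apply p
  have i10 : t⁻¹ r = r := by
    conv_lhs => rw [← h10]
    exact t.symm_apply_apply r
  rcases hx with rfl | rfl | rfl | rfl | rfl <;>
    simp only [Equiv.Perm.coe_mul, Function.comp_apply, *]

theorem fix_t {x : Ω} (h1 : t x = x) (h2 : t (s⁻¹ x) = s⁻¹ x)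
    (h3 : t (s⁻¹ (s⁻¹ x)) = s⁻¹ (s⁻¹ x)) (he : e x = x) :
    e x = ((s * t * s⁻¹ * t⁻¹) * s * (s * t * s⁻¹ * t⁻¹) * s⁻¹) x := by
  have i1 : t⁻¹ x = x := by
    conv_lhs => rw [← h1]
    exact t.symm_apply_apply x
  have i2 : t⁻¹ (s⁻¹ x) = s⁻¹ x := by
    conv_lhs => rw [← h2]
    exact t.symm_apply_apply _
  have ss : ∀ p, s (s⁻¹ p) = p := fun p => s.apply_symm_apply p
  simp only [Equiv.Perm.coe_mul, Function.comp_apply, i2, h3, ss, i1, h2, he]

theorem fix_s {x : Ω} (h1 : s x = x) (h2 : s (t⁻¹ x) = t⁻¹ x) (he : e x = x) :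
    e x = ((s * t * s⁻¹ * t⁻¹) * s * (s * t * s⁻¹ * t⁻¹) * s⁻¹) x := by
  have i1 : s⁻¹ x = x := by
    conv_lhs => rw [← h1]
    exact s.symm_apply_apply x
  have i2 : s⁻¹ (t⁻¹ x) = t⁻¹ x := by
    conv_lhs => rw [← h2]
    exact s.symm_apply_apply _
  have tt : ∀ p, t (t⁻¹ p) = p := fun p => t.apply_symm_apply p
  simp only [Equiv.Perm.coe_mul, Function.comp_apply, i1, i2, tt, h1, he]

variable {X : Type} [Fintype X]

theorem mr_at (w : LZ X) (j : ZMod (Fintype.card X)) : (mr X w).1 j = w.1 (j + 1) := rfl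

theorem ms_at (w : LZ X) (j : ZMod (Fintype.card X)) :
    (ms X w).1 j = w.1 (Equiv.swap 0 (-1) j) := rfl

theorem mr_m1 (w : LZ X) : (mr X w).1 (-1) = w.1 0 := by
  rw [mr_at]
  simp

theorem ms_m1 (w : LZ X) : (ms X w).1 (-1) = w.1 0 := by
  rw [ms_at, Equiv.swap_apply_right]

theorem ms_0 (w : LZ X) : (ms X w).1 0 = w.1 (-1) := by
  rw [ms_at, Equiv.swap_apply_left]

theorem one_ne (h3 : 3 ≤ Fintype.card X) : (1 : ZMod (Fintype.card X)) ≠ -1 := by
  intro h
  have h2 : ((2 : ℕ) : ZMod (Fintype.card X)) = 0 := by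
    have : (1 : ZMod (Fintype.card X)) + 1 = 0 := by
      nth_rewrite 1 [h]
      simp
    push_cast
    rw [← this]
    norm_num
  have h4 := (ZMod.natCast_eq_zero_iff 2 _).1 h2
  have := Nat.le_of_dvd (by norm_num) h4
  omega

/-- all points of the support of a lamp -/
theorem supp {ι : Type*} {U : Set ι} {f g h : ι → Ω} (hs : Is3 s U f g h) (p : Ω)
    (hp : ∀ u ∈ U, p ≠ f u ∧ p ≠ g u ∧ p ≠ h u) : s⁻¹ p = p := by
  have h1 := hs.fix p hp
  conv_lhs => rw [← h1]
  exact s.symm_apply_apply p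

end Extend

open Extend

section
variable {X : Type} [Fintype X] [DecidableEq X]

theorem inj3_lamp (h3 : 3 ≤ Fintype.card X) {x y : X} (hxy : x ≠ y) {C : Set (LZ X)}
    (hC : ∀ w ∈ C, w.1 0 = x ∧ w.1 (-1) = y) : Inj3 C (fun w => w) (mr X) (ms X) where
  ff _ _ _ _ h := h
  gg _ _ _ _ h := (mr X).injective h
  hh _ _ _ _ h := (ms X).injective h
  fg u hu v hv h := by
    have h1 : u = mr X v := h
    have h2 := (hC u hu).2
    rw [h1, mr_m1, (hC v hv).1] at h2
    exact hxy h2
  gh u hu v hv h := by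
    have h1 : (mr X u).1 0 = (ms X v).1 0 := by rw [h]
    rw [mr_at, ms_0, (hC v hv).2, zero_add, ← (hC u hu).2] at h1
    exact one_ne h3 (u.1.injective h1)
  hf u hu v hv h := by
    have h1 : ms X u = v := h
    have h2 := (hC v hv).2
    rw [← h1, ms_m1, (hC u hu).1] at h2
    exact hxy h2

theorem ext_right (h3 : 3 ≤ Fintype.card X) {x y z : X} (hxy : x ≠ y) (hzx : z ≠ x) (hzy : z ≠ y)
    {C C₂ : Set (LZ X)} (hC : ∀ w ∈ C, w.1 0 = x ∧ w.1 (-1) = y)
    (hC₂ : ∀ w ∈ C₂, w.1 0 = z ∧ w.1 (-1) = x) {s t e : Equiv.Perm (LZ X)}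
    (hs : Lamp C s) (ht : Lamp C₂ t) (he : Lamp {w | w ∈ C ∧ mr X w ∈ C₂} e) :
    e = (s * t * s⁻¹ * t⁻¹) * s * (s * t * s⁻¹ * t⁻¹) * s⁻¹ := by
  have hi := inj3_lamp h3 hxy hC
  -- `s` and `t` fix points according to their letters
  have sfix : ∀ p : LZ X, (p.1 (-1) ≠ y ∨ p ∉ C) → (p.1 (-1) ≠ x ∨ ∀ w ∈ C, p ≠ mr X w) →
      (p.1 (-1) ≠ x ∨ p.1 0 ≠ y) → s p = p := by
    intro p h1 h2 h4
    refine hs.fix p fun u hu => ⟨?_, ?_, ?_⟩
    · intro h
      have h : p = u := h
      subst h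
      rcases h1 with h1 | h1
      · exact h1 (hC p hu).2
      · exact h1 hu
    · rcases h2 with h2 | h2
      · intro h
        apply h2
        rw [h, mr_m1, (hC u hu).1]
      · exact h2 u hu
    · intro h
      rcases h4 with h4 | h4
      · apply h4
        rw [h, ms_m1, (hC u hu).1]
      · apply h4
        rw [h, ms_0, (hC u hu).2]
  have tfix : ∀ p : LZ X, (p.1 (-1) ≠ x ∨ p ∉ C₂) → p.1 (-1) ≠ z → t p = p := by
    intro p h1 h2
    refine ht.fix p fun u hu => ⟨?_, ?_, ?_⟩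
    · intro h
      have h : p = u := h
      subst h
      rcases h1 with h1 | h1
      · exact h1 (hC₂ p hu).2
      · exact h1 hu
    · intro h
      apply h2
      rw [h, mr_m1, (hC₂ u hu).1]
    · intro h
      apply h2
      rw [h, ms_m1, (hC₂ u hu).1]
  have efix : ∀ p : LZ X, s p = p → e p = p := by
    intro p hp
    refine he.fix p fun u hu => ⟨?_, ?_, ?_⟩
    · intro h
      have h : p = u := h
      subst h
      have := hs.fg p hu.1
      rw [hp] at this
      exact hi.fg p hu.1 p hu.1 this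
    · intro h
      have := hs.gh u hu.1
      rw [← h, hp, h] at this
      exact hi.gh u hu.1 u hu.1 this
    · intro h
      have := hs.hf u hu.1
      rw [← h, hp, h] at this
      exact hi.hf u hu.1 u hu.1 this
  -- five points
  have hfive : ∀ w ∈ C, mr X w ∈ C₂ → ∀ p, (p = w ∨ p = mr X w ∨ p = ms X w ∨
      p = mr X (mr X w) ∨ p = ms X (mr X w)) →
      e p = ((s * t * s⁻¹ * t⁻¹) * s * (s * t * s⁻¹ * t⁻¹) * s⁻¹) p := by
    intro w hw hw2 p hp
    have a1 : (mr X (mr X w)).1 (-1) = z := by rw [mr_m1, (hC₂ _ hw2).1]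
    have a2 : (ms X (mr X w)).1 (-1) = z := by rw [ms_m1, (hC₂ _ hw2).1]
    have b1 : s (mr X (mr X w)) = mr X (mr X w) :=
      sfix _ (Or.inl (by rw [a1]; exact hzy)) (Or.inl (by rw [a1]; exact hzx))
        (Or.inl (by rw [a1]; exact hzx))
    have b2 : s (ms X (mr X w)) = ms X (mr X w) :=
      sfix _ (Or.inl (by rw [a2]; exact hzy)) (Or.inl (by rw [a2]; exact hzx))
        (Or.inl (by rw [a2]; exact hzx))
    have hmem : w ∈ {w | w ∈ C ∧ mr X w ∈ C₂} := ⟨hw, hw2⟩
    refine five (hs.fg w hw) (hs.gh w hw) (hs.hf w hw) (ht.fg _ hw2) (ht.gh _ hw2) (ht.hf _ hw2)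
      b1 b2 ?_ ?_ (he.fg w hmem) (he.gh w hmem) (he.hf w hmem) (efix _ b1) (efix _ b2) p hp
    · exact tfix w (Or.inl (by rw [(hC w hw).2]; exact hxy.symm))
        (by rw [(hC w hw).2]; exact hzy.symm)
    · refine tfix _ (Or.inr ?_) (by rw [ms_m1, (hC w hw).1]; exact hzx.symm)
      intro h
      have := (hC₂ _ h).1
      rw [ms_0, (hC w hw).2] at this
      exact hzy this.symm
  ext1 p
  by_cases hA : ∃ w ∈ C, p = w ∨ p = mr X w ∨ p = ms X w
  · obtain ⟨w, hw, hp⟩ := hA
    by_cases hw2 : mr X w ∈ C₂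
    · exact hfive w hw hw2 p (by tauto)
    · have f1 : t w = w := tfix w (Or.inl (by rw [(hC w hw).2]; exact hxy.symm))
        (by rw [(hC w hw).2]; exact hzy.symm)
      have f2 : t (mr X w) = mr X w :=
        tfix _ (Or.inr hw2) (by rw [mr_m1, (hC w hw).1]; exact hzx.symm)
      have f3 : t (ms X w) = ms X w := by
        refine tfix _ (Or.inr ?_) (by rw [ms_m1, (hC w hw).1]; exact hzx.symm)
        intro h
        have := (hC₂ _ h).1
        rw [ms_0, (hC w hw).2] at this
        exact hzy this.symm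
      have g1 : s⁻¹ w = ms X w := Equiv.Perm.inv_eq_iff_eq.2 (hs.hf w hw).symm
      have g2 : s⁻¹ (mr X w) = w := Equiv.Perm.inv_eq_iff_eq.2 (hs.fg w hw).symm
      have g3 : s⁻¹ (ms X w) = mr X w := Equiv.Perm.inv_eq_iff_eq.2 (hs.gh w hw).symm
      have ef : e p = p := by
        refine he.fix p fun u hu => ?_
        have hne : u ≠ w := by
          rintro rfl
          exact hw2 hu.2
        refine ⟨?_, ?_, ?_⟩
        · rintro rfl
          rcases hp with hp | hp | hp
          · exact hne hp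
          · exact hi.fg _ hu.1 w hw hp
          · exact hi.hf w hw _ hu.1 hp.symm
        · rintro rfl
          rcases hp with hp | hp | hp
          · exact hi.fg w hw u hu.1 hp.symm
          · exact hne ((mr X).injective hp)
          · exact hi.gh u hu.1 w hw hp
        · rintro rfl
          rcases hp with hp | hp | hp
          · exact hi.hf u hu.1 w hw hp
          · exact hi.gh w hw u hu.1 hp.symm
          · exact hne ((ms X).injective hp)
      rcases hp with rfl | rfl | rfl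
      · exact fix_t f1 (by rw [g1, f3]) (by rw [g1, g3, f2]) ef
      · exact fix_t f2 (by rw [g2, f1]) (by rw [g2, g1, f3]) ef
      · exact fix_t f3 (by rw [g3, f2]) (by rw [g3, g2, f1]) ef
  · have hsp : s p = p := by
      refine hs.fix p fun u hu => ⟨?_, ?_, ?_⟩
      · exact fun h => hA ⟨u, hu, Or.inl h⟩
      · exact fun h => hA ⟨u, hu, Or.inr (Or.inl h)⟩
      · exact fun h => hA ⟨u, hu, Or.inr (Or.inr h)⟩
    by_cases hB : ∃ v ∈ C₂, p = v ∨ p = mr X v ∨ p = ms X v
    · obtain ⟨v, hv, hp⟩ := hB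
      by_cases hvC : ∃ w ∈ C, v = mr X w
      · obtain ⟨w, hw, rfl⟩ := hvC
        exact hfive w hw hv p (by tauto)
      · have f1 : s v = v := by
          refine sfix v (Or.inl (by rw [(hC₂ v hv).2]; exact hxy))
            (Or.inr fun w hw h => hvC ⟨w, hw, h⟩)
            (Or.inr (by rw [(hC₂ v hv).1]; exact hzy))
        have f2 : s (mr X v) = mr X v := by
          have a1 : (mr X v).1 (-1) = z := by rw [mr_m1, (hC₂ _ hv).1]
          exact sfix _ (Or.inl (by rw [a1]; exact hzy)) (Or.inl (by rw [a1]; exact hzx))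
            (Or.inl (by rw [a1]; exact hzx))
        have f3 : s (ms X v) = ms X v := by
          have a1 : (ms X v).1 (-1) = z := by rw [ms_m1, (hC₂ _ hv).1]
          exact sfix _ (Or.inl (by rw [a1]; exact hzy)) (Or.inl (by rw [a1]; exact hzx))
            (Or.inl (by rw [a1]; exact hzx))
        have g1 : t⁻¹ v = ms X v := Equiv.Perm.inv_eq_iff_eq.2 (ht.hf v hv).symm
        have g2 : t⁻¹ (mr X v) = v := Equiv.Perm.inv_eq_iff_eq.2 (ht.fg v hv).symm
        have g3 : t⁻¹ (ms X v) = mr X v := Equiv.Perm.inv_eq_iff_eq.2 (ht.gh v hv).symm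
        rcases hp with rfl | rfl | rfl
        · exact fix_s hsp (by rw [g1, f3]) (efix _ hsp)
        · exact fix_s hsp (by rw [g2, f1]) (efix _ hsp)
        · exact fix_s hsp (by rw [g3, f2]) (efix _ hsp)
    · have htp : t⁻¹ p = p := by
        refine supp ht p fun u hu => ⟨?_, ?_, ?_⟩
        · exact fun h => hB ⟨u, hu, Or.inl h⟩
        · exact fun h => hB ⟨u, hu, Or.inr (Or.inl h)⟩
        · exact fun h => hB ⟨u, hu, Or.inr (Or.inr h)⟩
      exact fix_s hsp (by rw [htp, hsp]) (efix _ hsp)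

theorem ext_left (h3 : 3 ≤ Fintype.card X) {x y z : X} (hxy : x ≠ y) (hzx : z ≠ x) (hzy : z ≠ y)
    {C C₃ : Set (LZ X)} (hC : ∀ w ∈ C, w.1 0 = x ∧ w.1 (-1) = y)
    (hC₃ : ∀ w ∈ C₃, w.1 0 = y ∧ w.1 (-1) = z) {s t e : Equiv.Perm (LZ X)}
    (hs : Lamp C s) (ht : Lamp C₃ t) (he : Lamp {w | w ∈ C ∧ (mr X).symm w ∈ C₃} e) :
    e = (s * t * s⁻¹ * t⁻¹) * s * (s * t * s⁻¹ * t⁻¹) * s⁻¹ := by
  have hi := inj3_lamp h3 hxy hC
  -- `s` and `t` fix points according to their letters
  have sfix : ∀ p : LZ X, (p.1 (-1) ≠ y ∨ p ∉ C) → p.1 (-1) ≠ x → s p = p := by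
    intro p h1 h2
    refine hs.fix p fun u hu => ⟨?_, ?_, ?_⟩
    · intro h
      have h : p = u := h
      subst h
      rcases h1 with h1 | h1
      · exact h1 (hC p hu).2
      · exact h1 hu
    · intro h
      apply h2
      rw [h, mr_m1, (hC u hu).1]
    · intro h
      apply h2
      rw [h, ms_m1, (hC u hu).1]
  have tfix : ∀ p : LZ X, p.1 (-1) ≠ z → (p.1 (-1) ≠ y ∨ ∀ v ∈ C₃, p ≠ mr X v) →
      (p.1 (-1) ≠ y ∨ p.1 0 ≠ z) → t p = p := by
    intro p h1 h2 h4
    refine ht.fix p fun u hu => ⟨?_, ?_, ?_⟩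
    · intro h
      have h : p = u := h
      subst h
      exact h1 (hC₃ p hu).2
    · rcases h2 with h2 | h2
      · intro h
        apply h2
        rw [h, mr_m1, (hC₃ u hu).1]
      · exact h2 u hu
    · intro h
      rcases h4 with h4 | h4
      · apply h4
        rw [h, ms_m1, (hC₃ u hu).1]
      · apply h4
        rw [h, ms_0, (hC₃ u hu).2]
  have efix : ∀ p : LZ X, s p = p → e p = p := by
    intro p hp
    refine he.fix p fun u hu => ⟨?_, ?_, ?_⟩
    · intro h
      have h : p = u := h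
      subst h
      have := hs.fg p hu.1
      rw [hp] at this
      exact hi.fg p hu.1 p hu.1 this
    · intro h
      have := hs.gh u hu.1
      rw [← h, hp, h] at this
      exact hi.gh u hu.1 u hu.1 this
    · intro h
      have := hs.hf u hu.1
      rw [← h, hp, h] at this
      exact hi.hf u hu.1 u hu.1 this
  -- five points
  have hfive : ∀ v ∈ C₃, mr X v ∈ C → ∀ p, (p = ms X (mr X v) ∨ p = mr X v ∨
      p = mr X (mr X v) ∨ p = ms X v ∨ p = v) →
      e p = ((s * t * s⁻¹ * t⁻¹) * s * (s * t * s⁻¹ * t⁻¹) * s⁻¹) p := by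
    intro v hv hw p hp
    have a1 : (mr X (mr X v)).1 (-1) = x := by rw [mr_m1, (hC _ hw).1]
    have a2 : (ms X (mr X v)).1 (-1) = x := by rw [ms_m1, (hC _ hw).1]
    have b1 : t (mr X (mr X v)) = mr X (mr X v) :=
      tfix _ (by rw [a1]; exact hzx.symm) (Or.inl (by rw [a1]; exact hxy))
        (Or.inl (by rw [a1]; exact hxy))
    have b2 : t (ms X (mr X v)) = ms X (mr X v) :=
      tfix _ (by rw [a2]; exact hzx.symm) (Or.inl (by rw [a2]; exact hxy))
        (Or.inl (by rw [a2]; exact hxy))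
    have c1 : s v = v := sfix v (Or.inl (by rw [(hC₃ v hv).2]; exact hzy))
      (by rw [(hC₃ v hv).2]; exact hzx)
    have c2 : s (ms X v) = ms X v := by
      refine sfix _ (Or.inr ?_) (by rw [ms_m1, (hC₃ v hv).1]; exact hxy.symm)
      intro h
      have := (hC _ h).1
      rw [ms_0, (hC₃ v hv).2] at this
      exact hzx this
    have hmem : mr X v ∈ {w | w ∈ C ∧ (mr X).symm w ∈ C₃} :=
      ⟨hw, by rw [Equiv.symm_apply_apply]; exact hv⟩
    exact five (hs.hf _ hw) (hs.fg _ hw) (hs.gh _ hw) (ht.gh _ hv) (ht.hf _ hv) (ht.fg _ hv)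
      c2 c1 b2 b1 (he.hf _ hmem) (he.fg _ hmem) (he.gh _ hmem) (efix _ c2) (efix _ c1) p hp
  ext1 p
  by_cases hA : ∃ w ∈ C, p = w ∨ p = mr X w ∨ p = ms X w
  · obtain ⟨w, hw, hp⟩ := hA
    by_cases hw2 : (mr X).symm w ∈ C₃
    · have h := hfive _ hw2 (by rw [Equiv.apply_symm_apply]; exact hw) p
      rw [Equiv.apply_symm_apply] at h
      exact h (by tauto)
    · have f1 : t w = w := by
        refine tfix w (by rw [(hC w hw).2]; exact hzy.symm) (Or.inr fun v hv h => hw2 ?_)
          (Or.inr (by rw [(hC w hw).1]; exact hzx.symm))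
        rw [h, Equiv.symm_apply_apply]
        exact hv
      have a1 : (mr X w).1 (-1) = x := by rw [mr_m1, (hC _ hw).1]
      have a2 : (ms X w).1 (-1) = x := by rw [ms_m1, (hC _ hw).1]
      have f2 : t (mr X w) = mr X w :=
        tfix _ (by rw [a1]; exact hzx.symm) (Or.inl (by rw [a1]; exact hxy))
          (Or.inl (by rw [a1]; exact hxy))
      have f3 : t (ms X w) = ms X w :=
        tfix _ (by rw [a2]; exact hzx.symm) (Or.inl (by rw [a2]; exact hxy))
          (Or.inl (by rw [a2]; exact hxy))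
      have g1 : s⁻¹ w = ms X w := Equiv.Perm.inv_eq_iff_eq.2 (hs.hf w hw).symm
      have g2 : s⁻¹ (mr X w) = w := Equiv.Perm.inv_eq_iff_eq.2 (hs.fg w hw).symm
      have g3 : s⁻¹ (ms X w) = mr X w := Equiv.Perm.inv_eq_iff_eq.2 (hs.gh w hw).symm
      have ef : e p = p := by
        refine he.fix p fun u hu => ?_
        have hne : u ≠ w := by
          rintro rfl
          exact hw2 hu.2
        refine ⟨?_, ?_, ?_⟩
        · rintro rfl
          rcases hp with hp | hp | hp
          · exact hne hp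
          · exact hi.fg _ hu.1 w hw hp
          · exact hi.hf w hw _ hu.1 hp.symm
        · rintro rfl
          rcases hp with hp | hp | hp
          · exact hi.fg w hw u hu.1 hp.symm
          · exact hne ((mr X).injective hp)
          · exact hi.gh u hu.1 w hw hp
        · rintro rfl
          rcases hp with hp | hp | hp
          · exact hi.hf u hu.1 w hw hp
          · exact hi.gh w hw u hu.1 hp.symm
          · exact hne ((ms X).injective hp)
      rcases hp with rfl | rfl | rfl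
      · exact fix_t f1 (by rw [g1, f3]) (by rw [g1, g3, f2]) ef
      · exact fix_t f2 (by rw [g2, f1]) (by rw [g2, g1, f3]) ef
      · exact fix_t f3 (by rw [g3, f2]) (by rw [g3, g2, f1]) ef
  · have hsp : s p = p := by
      refine hs.fix p fun u hu => ⟨?_, ?_, ?_⟩
      · exact fun h => hA ⟨u, hu, Or.inl h⟩
      · exact fun h => hA ⟨u, hu, Or.inr (Or.inl h)⟩
      · exact fun h => hA ⟨u, hu, Or.inr (Or.inr h)⟩
    by_cases hB : ∃ v ∈ C₃, p = v ∨ p = mr X v ∨ p = ms X v
    · obtain ⟨v, hv, hp⟩ := hB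
      by_cases hvC : mr X v ∈ C
      · exact hfive v hv hvC p (by tauto)
      · have f1 : s v = v := sfix v (Or.inl (by rw [(hC₃ v hv).2]; exact hzy))
          (by rw [(hC₃ v hv).2]; exact hzx)
        have f2 : s (mr X v) = mr X v :=
          sfix _ (Or.inr hvC) (by rw [mr_m1, (hC₃ v hv).1]; exact hxy.symm)
        have f3 : s (ms X v) = ms X v := by
          refine sfix _ (Or.inr ?_) (by rw [ms_m1, (hC₃ v hv).1]; exact hxy.symm)
          intro h
          have := (hC _ h).1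
          rw [ms_0, (hC₃ v hv).2] at this
          exact hzx this
        have g1 : t⁻¹ v = ms X v := Equiv.Perm.inv_eq_iff_eq.2 (ht.hf v hv).symm
        have g2 : t⁻¹ (mr X v) = v := Equiv.Perm.inv_eq_iff_eq.2 (ht.fg v hv).symm
        have g3 : t⁻¹ (ms X v) = mr X v := Equiv.Perm.inv_eq_iff_eq.2 (ht.gh v hv).symm
        rcases hp with rfl | rfl | rfl
        · exact fix_s hsp (by rw [g1, f3]) (efix _ hsp)
        · exact fix_s hsp (by rw [g2, f1]) (efix _ hsp)
        · exact fix_s hsp (by rw [g3, f2]) (efix _ hsp)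
    · have htp : t⁻¹ p = p := by
        refine supp ht p fun u hu => ⟨?_, ?_, ?_⟩
        · exact fun h => hB ⟨u, hu, Or.inl h⟩
        · exact fun h => hB ⟨u, hu, Or.inr (Or.inl h)⟩
        · exact fun h => hB ⟨u, hu, Or.inr (Or.inr h)⟩
      exact fix_s hsp (by rw [htp, hsp]) (efix _ hsp)

end

end Pool.Agent.Lib.MP_c23930_al.AQ
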