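import Pool.Agent.Lib.MP_c23930_al.AQ.Is3
import Pool.Agent.Lib.MP_c23930_al.AQ.Extend

set_option autoImplicit false

namespace Pool.Agent.Lib.MP_c23930_al.AQ

variable {X : Type} [Fintype X] [DecidableEq X]

namespace FinSub

/-- the position of the letter `z` -/
def pos (z : X) (σ : Lst X) : ℕ := (σ.symm z).val

variable [NeZero (Fintype.card X)]

omit [DecidableEq X] in
theorem pos_lt (z : X) (σ : Lst X) : pos z σ < Fintype.card X := ZMod.val_lt _

/-- the action of a family of permutations of the lists on the fibres -/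
noncomputable def ps (θ' : ℤ → Bool) (z : X) (A : (Fin (Fintype.card X) → Bool) → Equiv.Perm (Lst X))
    (w : LZ X) : LZ X :=
  (A (fun j => θ' (w.2 + pos z w.1 - (j : ℕ))) w.1,
    w.2 + pos z w.1 - pos z (A (fun j => θ' (w.2 + pos z w.1 - (j : ℕ))) w.1))

omit [DecidableEq X] [NeZero (Fintype.card X)] in
theorem ps_phi (θ' : ℤ → Bool) (z : X) (A : (Fin (Fintype.card X) → Bool) → Equiv.Perm (Lst X))
    (w : LZ X) : (ps θ' z A w).2 + pos z (ps θ' z A w).1 = w.2 + pos z w.1 := by
  simp [ps]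

omit [DecidableEq X] [NeZero (Fintype.card X)] in
theorem ps_mul (θ' : ℤ → Bool) (z : X) (A B : (Fin (Fintype.card X) → Bool) → Equiv.Perm (Lst X))
    (w : LZ X) : ps θ' z (A * B) w = ps θ' z A (ps θ' z B w) := by
  have h := ps_phi θ' z B w
  unfold ps at h ⊢
  simp only at h ⊢
  rw [h]
  rfl

omit [DecidableEq X] [NeZero (Fintype.card X)] in
theorem ps_one (θ' : ℤ → Bool) (z : X) (w : LZ X) : ps θ' z 1 w = w := by
  refine Prod.ext rfl ?_
  simp [ps]

/-- the homomorphism -/
noncomputable def Ps (θ' : ℤ → Bool) (z : X) :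
    ((Fin (Fintype.card X) → Bool) → Equiv.Perm (Lst X)) →* Equiv.Perm (LZ X) :=
  MonoidHom.toHomPerm
    { toFun := fun A => (ps θ' z A : Function.End (LZ X))
      map_one' := funext fun w => ps_one θ' z w
      map_mul' := fun A B => funext fun w => ps_mul θ' z A B w }

omit [DecidableEq X] [NeZero (Fintype.card X)] in
theorem Ps_apply (θ' : ℤ → Bool) (z : X)
    (A : (Fin (Fintype.card X) → Bool) → Equiv.Perm (Lst X)) (w : LZ X) :
    Ps θ' z A w = ps θ' z A w := rfl

/-- rotation of lists -/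
def fr (σ : Lst X) : Lst X := (Equiv.addRight (1 : ZMod (Fintype.card X))).trans σ

/-- swap of head and tail -/
def gr (σ : Lst X) : Lst X := (Equiv.swap (0 : ZMod (Fintype.card X)) (-1)).trans σ

omit [DecidableEq X] in
theorem pos_fr (z : X) (σ : Lst X) (h : σ 0 ≠ z) : (pos z (fr σ) : ℤ) = pos z σ - 1 := by
  have h1 : (fr σ).symm z = σ.symm z - 1 := by
    rw [Equiv.symm_apply_eq]
    change z = σ (σ.symm z - 1 + 1)
    rw [sub_add_cancel, Equiv.apply_symm_apply]
  have h2 : σ.symm z ≠ 0 := by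
    intro e
    apply h
    rw [← e, Equiv.apply_symm_apply]
  have h3 : 0 < (σ.symm z).val := by
    rw [Nat.pos_iff_ne_zero]
    intro e
    exact h2 ((ZMod.val_eq_zero _).1 e)
  have h4 : (σ.symm z - 1).val = (σ.symm z).val - 1 := by
    have h5 : σ.symm z - 1 = (((σ.symm z).val - 1 : ℕ) : ZMod (Fintype.card X)) := by
      rw [Nat.cast_sub h3, ZMod.natCast_zmod_val, Nat.cast_one]
    have hlt := ZMod.val_lt (σ.symm z)
    rw [h5, ZMod.val_natCast, Nat.mod_eq_of_lt (by omega)]
  unfold pos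
  rw [h1, h4]
  omega

omit [DecidableEq X] [NeZero (Fintype.card X)] in
theorem pos_gr (z : X) (σ : Lst X) (h : σ 0 ≠ z) (h' : σ (-1) ≠ z) :
    pos z (gr σ) = pos z σ := by
  have h1 : (gr σ).symm z = σ.symm z := by
    rw [Equiv.symm_apply_eq]
    change z = σ (Equiv.swap 0 (-1) (σ.symm z))
    rw [Equiv.swap_apply_of_ne_of_ne, Equiv.apply_symm_apply]
    · intro e
      apply h
      rw [← e, Equiv.apply_symm_apply]
    · intro e
      apply h'
      rw [← e, Equiv.apply_symm_apply]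
  unfold pos
  rw [h1]

end FinSub

open FinSub

theorem exists_fin (θ' : ℤ → Bool) (h3 : 3 ≤ Fintype.card X) (z : X) :
    ∃ P : Subgroup (Equiv.Perm (LZ X)), Finite P ∧ (∀ π : Equiv.Perm X, lm X π ∈ P ↔ π z = z) ∧
      ∀ (i : Bool) (x y : X), x ≠ y → x ≠ z → y ≠ z → ∀ π, Lamp (hd θ' x y i) π → π ∈ P := by
  classical
  have hne : NeZero (Fintype.card X) := ⟨by omega⟩
  have hne2 : Nonempty (Lst X) := by
    have h1 : Nonempty (ZMod (Fintype.card X) ≃ X) := by
      rw [← Fintype.card_eq, ZMod.card]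
    exact h1
  refine ⟨(Ps θ' z).range, ?_, ?_, ?_⟩
  · exact Set.finite_coe_iff.2 (Set.finite_range (Ps θ' z))
  · intro π
    constructor
    · rintro ⟨A, hA⟩
      obtain ⟨σ⟩ := hne2
      have h1 := ps_phi θ' z A (σ, 0)
      rw [← Ps_apply, hA] at h1
      change (0 : ℤ) + pos z (σ.trans π) = 0 + pos z σ at h1
      have h2 : pos z (σ.trans π) = pos z σ := by
        have := h1
        simp only [zero_add] at this
        exact_mod_cast this
      have h4 := ZMod.val_injective _ h2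
      change σ.symm (π.symm z) = σ.symm z at h4
      have h5 := σ.symm.injective h4
      rw [Equiv.symm_apply_eq] at h5
      exact h5.symm
    · intro hπ
      have hpos : ∀ σ : Lst X, pos z (σ.trans π) = pos z σ := by
        intro σ
        have : π.symm z = z := by rw [Equiv.symm_apply_eq, hπ]
        change (σ.symm (π.symm z)).val = (σ.symm z).val
        rw [this]
      refine ⟨fun _ => Equiv.equivCongr (Equiv.refl (ZMod (Fintype.card X))) π, ?_⟩
      refine Equiv.ext fun w => ?_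
      rw [Ps_apply]
      refine Prod.ext ?_ ?_
      · rfl
      · change w.2 + pos z w.1 - pos z (w.1.trans π) = w.2
        rw [hpos]
        ring
  · intro i x y hxy hxz hyz π hπ
    -- the set of lists for a given window
    let C : (Fin (Fintype.card X) → Bool) → Set (Lst X) := fun ω =>
      {σ | σ 0 = x ∧ σ (-1) = y ∧ ω ⟨pos z σ, pos_lt z σ⟩ = i}
    have hinj := inj3_lamp h3 hxy (C := {w : LZ X | w.1 0 = x ∧ w.1 (-1) = y}) (fun w hw => hw)
    have hC : ∀ ω, Inj3 (C ω) (fun σ => σ) (fr (X := X)) (gr (X := X)) := by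
      intro ω
      refine ⟨fun _ _ _ _ e => e, ?_, ?_, ?_, ?_, ?_⟩
      · intro u hu v hv e
        have := hinj.gg (u, 0) ⟨hu.1, hu.2.1⟩ (v, 0) ⟨hv.1, hv.2.1⟩ (Prod.ext e rfl)
        exact congrArg Prod.fst this
      · intro u hu v hv e
        have := hinj.hh (u, 0) ⟨hu.1, hu.2.1⟩ (v, 0) ⟨hv.1, hv.2.1⟩ (Prod.ext e rfl)
        exact congrArg Prod.fst this
      · intro u hu v hv e
        exact hinj.fg (u, 1) ⟨hu.1, hu.2.1⟩ (v, 0) ⟨hv.1, hv.2.1⟩ (Prod.ext e rfl)
      · intro u hu v hv e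
        exact hinj.gh (u, 0) ⟨hu.1, hu.2.1⟩ (v, 1) ⟨hv.1, hv.2.1⟩ (Prod.ext e rfl)
      · intro u hu v hv e
        exact hinj.hf (u, 0) ⟨hu.1, hu.2.1⟩ (v, 0) ⟨hv.1, hv.2.1⟩ (Prod.ext e rfl)
    choose A hA using fun ω => (hC ω).ex
    refine ⟨A, ?_⟩
    have h0z : ∀ σ : Lst X, σ 0 = x → σ 0 ≠ z := fun σ h e => hxz (h.symm.trans e)
    have h1z : ∀ σ : Lst X, σ (-1) = y → σ (-1) ≠ z := fun σ h e => hyz (h.symm.trans e)
    refine (hπ.unique ?_).symm
    -- membership
    have hmem : ∀ w : LZ X, w ∈ hd θ' x y i →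
        w.1 ∈ C (fun j => θ' (w.2 + pos z w.1 - (j : ℕ))) := by
      rintro w ⟨h1, h2, h4⟩
      refine ⟨h1, h2, ?_⟩
      simp only [add_sub_cancel_right]
      exact h4
    refine ⟨?_, ?_, ?_, ?_⟩
    · intro w hw
      have hm := hmem w hw
      rw [Ps_apply]
      have e1 : A (fun j => θ' (w.2 + pos z w.1 - (j : ℕ))) w.1 = fr w.1 := (hA _).fg _ hm
      refine Prod.ext ?_ ?_
      · exact e1
      · change w.2 + pos z w.1 - pos z (A (fun j => θ' (w.2 + pos z w.1 - (j : ℕ))) w.1) = w.2 + 1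
        rw [e1, pos_fr z w.1 (h0z _ hw.1)]
        ring
    · intro w hw
      have hm := hmem w hw
      rw [Ps_apply]
      have hphi : (mr X w).2 + pos z (mr X w).1 = w.2 + pos z w.1 := by
        change w.2 + 1 + (pos z (fr w.1) : ℤ) = _
        rw [pos_fr z w.1 (h0z _ hw.1)]
        ring
      have e1 : A (fun j => θ' (w.2 + pos z w.1 - (j : ℕ))) (mr X w).1 = gr w.1 := (hA _).gh _ hm
      refine Prod.ext ?_ ?_
      · change A (fun j => θ' ((mr X w).2 + pos z (mr X w).1 - (j : ℕ))) (mr X w).1 = _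
        rw [hphi, e1]
        rfl
      · change (mr X w).2 + pos z (mr X w).1 -
          pos z (A (fun j => θ' ((mr X w).2 + pos z (mr X w).1 - (j : ℕ))) (mr X w).1) = w.2
        rw [hphi, e1, pos_gr z w.1 (h0z _ hw.1) (h1z _ hw.2.1)]
        ring
    · intro w hw
      have hm := hmem w hw
      rw [Ps_apply]
      have hphi : (ms X w).2 + pos z (ms X w).1 = w.2 + pos z w.1 := by
        change w.2 + (pos z (gr w.1) : ℤ) = _
        rw [pos_gr z w.1 (h0z _ hw.1) (h1z _ hw.2.1)]
      have e1 : A (fun j => θ' (w.2 + pos z w.1 - (j : ℕ))) (ms X w).1 = w.1 := (hA _).hf _ hm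
      refine Prod.ext ?_ ?_
      · change A (fun j => θ' ((ms X w).2 + pos z (ms X w).1 - (j : ℕ))) (ms X w).1 = _
        rw [hphi, e1]
      · change (ms X w).2 + pos z (ms X w).1 -
          pos z (A (fun j => θ' ((ms X w).2 + pos z (ms X w).1 - (j : ℕ))) (ms X w).1) = w.2
        rw [hphi, e1]
        ring
    · intro p hp
      rw [Ps_apply]
      set φ : ℤ := p.2 + pos z p.1 with hφ
      have e1 : A (fun j => θ' (φ - (j : ℕ))) p.1 = p.1 := by
        refine (hA _).fix _ ?_
        rintro σ ⟨hs1, hs2, hs3⟩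
        have hw : ((σ, φ - pos z σ) : LZ X) ∈ hd θ' x y i := ⟨hs1, hs2, hs3⟩
        refine ⟨?_, ?_, ?_⟩
        · intro e
          refine (hp _ hw).1 (Prod.ext e ?_)
          change p.2 = φ - pos z σ
          rw [← e, hφ]
          ring
        · intro e
          refine (hp _ hw).2.1 (Prod.ext e ?_)
          change p.2 = φ - pos z σ + 1
          have h5 := pos_fr z σ (h0z _ hs1)
          rw [← e] at h5
          rw [hφ, h5]
          ring
        · intro e
          refine (hp _ hw).2.2 (Prod.ext e ?_)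
          change p.2 = φ - pos z σ
          have h5 := pos_gr z σ (h0z _ hs1) (h1z _ hs2)
          rw [← e] at h5
          rw [hφ, h5]
          ring
      refine Prod.ext e1 ?_
      change φ - pos z (A (fun j => θ' (φ - (j : ℕ))) p.1) = p.2
      rw [e1, hφ]
      ring

end Pool.Agent.Lib.MP_c23930_al.AQ
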