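import Pool.Agent.Lib.MP_c23930_al.AQ.Is3
import Pool.Agent.Lib.MP_c23930_al.AQ.Extend

set_option autoImplicit false

namespace Pool.Agent.Lib.MP_c23930_al.AQ

variable {X : Type} [Fintype X] [DecidableEq X]

theorem lamp_conj {θ' : ℤ → Bool} {x y : X} {i : Bool} {π : Equiv.Perm (LZ X)}
    (hπ : Lamp (hd θ' x y i) π) (τ : Equiv.Perm X) :
    Lamp (hd θ' (τ x) (τ y) i) (lm X τ * π * (lm X τ)⁻¹) := by
  have h1 := hπ.conj (lm X τ)
  have himg : (lm X τ) '' (hd θ' x y i) = hd θ' (τ x) (τ y) i := by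
    ext w
    constructor
    · rintro ⟨v, ⟨hv1, hv2, hv3⟩, rfl⟩
      refine ⟨?_, ?_, hv3⟩
      · change τ (v.1 0) = τ x
        rw [hv1]
      · change τ (v.1 (-1)) = τ y
        rw [hv2]
    · rintro ⟨hw1, hw2, hw3⟩
      refine ⟨lm X τ⁻¹ w, ⟨?_, ?_, hw3⟩, ?_⟩
      · change τ⁻¹ (w.1 0) = x
        rw [hw1]; exact τ.symm_apply_apply x
      · change τ⁻¹ (w.1 (-1)) = y
        rw [hw2]; exact τ.symm_apply_apply y
      · rw [← Equiv.Perm.mul_apply, ← map_mul, mul_inv_cancel, map_one]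
        rfl
  refine (Is3.reindex (lm X τ) (hd θ' x y i) himg).2 ?_
  exact h1

namespace RelAux

theorem at_m1 {θ' : ℤ → Bool} {x y : X} {i : Bool} {u : LZ X} (hu : u ∈ hd θ' x y i) :
    u.1 (-1) = y ∧ (mr X u).1 (-1) = x ∧ (ms X u).1 (-1) = x := by
  refine ⟨hu.2.1, ?_, ?_⟩
  · rw [Extend.mr_m1]; exact hu.1
  · rw [Extend.ms_m1]; exact hu.1

end RelAux

open RelAux

theorem lamp_comm (h3 : 3 ≤ Fintype.card X) {θ' : ℤ → Bool} {x y x' y' : X} {i j : Bool}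
    {π π' : Equiv.Perm (LZ X)} (hxy : x ≠ y) (hxy' : x' ≠ y')
    (hd1 : (x ≠ x' ∧ x ≠ y' ∧ y ≠ x' ∧ y ≠ y') ∨ (x = x' ∧ y = y'))
    (hπ : Lamp (hd θ' x y i) π) (hπ' : Lamp (hd θ' x' y' j) π') : Commute π π' := by
  rcases hd1 with ⟨n1, n2, n3, n4⟩ | ⟨rfl, rfl⟩
  · refine hπ.commute hπ' ?_
    intro u hu v hv
    obtain ⟨a1, a2, a3⟩ := at_m1 hu
    obtain ⟨b1, b2, b3⟩ := at_m1 hv
    have key : ∀ p q : LZ X, p.1 (-1) ≠ q.1 (-1) → p ≠ q := fun p q h e => h (by rw [e])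
    refine ⟨key _ _ ?_, key _ _ ?_, key _ _ ?_, key _ _ ?_, key _ _ ?_, key _ _ ?_, key _ _ ?_,
      key _ _ ?_, key _ _ ?_⟩
    · rw [a1, b1]; exact n4
    · rw [a1, b2]; exact n3
    · rw [a1, b3]; exact n3
    · rw [a2, b1]; exact n2
    · rw [a2, b2]; exact n1
    · rw [a2, b3]; exact n1
    · rw [a3, b1]; exact n2
    · rw [a3, b2]; exact n1
    · rw [a3, b3]; exact n1
  · by_cases hij : i = j
    · subst hij
      rw [hπ.unique hπ']
    · have hinj := inj3_lamp h3 hxy (C := hd θ' x y i ∪ hd θ' x y j) (fun w hw => by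
        rcases hw with hw | hw
        · exact ⟨hw.1, hw.2.1⟩
        · exact ⟨hw.1, hw.2.1⟩)
      refine hπ.commute hπ' ?_
      intro u hu v hv
      have mu : u ∈ hd θ' x y i ∪ hd θ' x y j := Or.inl hu
      have mv : v ∈ hd θ' x y i ∪ hd θ' x y j := Or.inr hv
      have huv : u ≠ v := by
        rintro rfl
        exact hij (hu.2.2.symm.trans hv.2.2)
      refine ⟨huv, hinj.fg u mu v mv, fun e => hinj.hf v mv u mu e.symm, fun e => hinj.fg v mv u mu e.symm,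
        fun e => huv (hinj.gg u mu v mv e), hinj.gh u mu v mv, hinj.hf u mu v mv,
        fun e => hinj.gh v mv u mu e.symm, fun e => huv (hinj.hh u mu v mv e)⟩

end Pool.Agent.Lib.MP_c23930_al.AQ
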