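import Pool.Agent.Lib.MP_c23930_al.AQ.GamEq
import Pool.Agent.Lib.MP_c23930_al.AQ.FinSub
import Pool.Agent.Lib.MP_c23930_al.AQ.Rel
import Pool.Agent.Lib.MP_c23930_al.AQ.Beta

set_option autoImplicit false

namespace Pool.Agent.Lib.MP_c23930_al.AQ

variable {R : ℕ → ℕ} {θ : ℤ → Bool} {X : Type} [Fintype X] [DecidableEq X]

theorem exists_frame (hT : Toep R θ) (h4 : 4 ≤ Fintype.card X) (n : ℕ)
    (hn : R n = (Fintype.card X).factorial) : Nonempty (Frame (AA θ) X) := by
  classical
  have hne : Nonempty X := Fintype.card_pos_iff.1 (by omega)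
  have h3 : 3 ≤ Fintype.card X := by omega
  obtain ⟨β, hβ'⟩ := exists_beta X
  have hβ : ∀ σ k, β (σ, k) = (R n : ℤ) * k + β (σ, 0) := by
    intro σ k
    rw [hβ', hn]
  set θ' : ℤ → Bool := fun k => θ (R n * k) with hθ'
  -- the transport
  let B : Equiv.Perm (LZ X) →* Equiv.Perm ℤ := β.permCongrHom.toMonoidHom
  have hBinj : Function.Injective B := β.permCongrHom.injective
  -- the lamps
  have hex : ∀ (i : Bool) (x y : X), ∃ π : Equiv.Perm (LZ X), (x ≠ y → Lamp (hd θ' x y i) π) ∧
      (x = y → π = 1) := by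
    intro i x y
    by_cases hxy : x = y
    · exact ⟨1, fun h => absurd hxy h, fun _ => rfl⟩
    · obtain ⟨π, hπ⟩ := (inj3_lamp h3 hxy (C := hd θ' x y i) (fun w hw => ⟨hw.1, hw.2.1⟩)).ex
      exact ⟨π, fun _ => hπ, fun h => absurd h hxy⟩
  choose L hL hL1 using hex
  have hLm : ∀ i x y, B (L i x y) ∈ AA θ := by
    intro i x y
    by_cases hxy : x = y
    · rw [hL1 i x y hxy, map_one]
      exact Subgroup.one_mem _
    · exact hd_mem_AW hT h3 n β hβ hxy i _ (hL i x y hxy)
  have hlmm : ∀ π : Equiv.Perm X, B (lm X π) ∈ AA θ := fun π => lm_mem_AW hT h4 n β hβ π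
  let lamH : Equiv.Perm X →* AA θ := (B.comp (lm X)).codRestrict (AA θ) hlmm
  let cc : Bool → X → X → AA θ := fun i x y => ⟨B (L i x y), hLm i x y⟩
  have hcc : ∀ i x y, ((cc i x y : AA θ) : Equiv.Perm ℤ) = B (L i x y) := fun _ _ _ => rfl
  have hlamH : ∀ π, ((lamH π : AA θ) : Equiv.Perm ℤ) = B (lm X π) := fun _ => rfl
  refine ⟨{ lam := lamH, c := cc, conj := ?_, cube := ?_, comm := ?_, fin := ?_, gen := ?_ }⟩
  · intro π i x y hxy
    apply Subtype.ext
    rw [Subgroup.coe_mul, Subgroup.coe_mul, Subgroup.coe_inv, hlamH, hcc, hcc, ← map_inv, ← map_mul,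
      ← map_mul]
    congr 1
    exact (lamp_conj (hL i x y hxy) π).unique (hL i (π x) (π y) (fun e => hxy (π.injective e)))
  · intro i x y hxy
    apply Subtype.ext
    rw [Subgroup.coe_pow, hcc, ← map_pow, (hL i x y hxy).cube, map_one]
    rfl
  · intro i j x y x' y' hxy hxy' h
    have h1 := lamp_comm h3 hxy hxy' h (hL i x y hxy) (hL j x' y' hxy')
    have h2 : Commute (B (L i x y)) (B (L j x' y')) := h1.map B
    exact Subtype.ext h2.eq
  · intro z
    obtain ⟨P, hP1, hP2, hP3⟩ := exists_fin θ' h3 z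
    -- the inverse transport
    let C : AA θ →* Equiv.Perm (LZ X) := β.symm.permCongrHom.toMonoidHom.comp (AA θ).subtype
    have hCinj : Function.Injective C := by
      intro a b hab
      exact Subtype.ext (β.symm.permCongrHom.injective hab)
    have hCB : ∀ (τ : Equiv.Perm (LZ X)) (h : B τ ∈ AA θ), C ⟨B τ, h⟩ = τ := by
      intro τ h
      refine Equiv.ext fun w => ?_
      change β.symm (β (τ (β.symm (β.symm.symm w)))) = τ w
      simp
    refine ⟨P.comap C, ?_, ?_, ?_⟩
    · have : Finite P := hP1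
      refine Finite.of_injective (fun x : P.comap C => (⟨C x.1, x.2⟩ : P)) ?_
      intro a b hab
      apply Subtype.ext
      exact hCinj (congrArg Subtype.val hab)
    · intro π
      rw [← hP2 π, Subgroup.mem_comap]
      have : C (lamH π) = lm X π := hCB _ (hlmm π)
      rw [this]
    · intro i x y hxy hxz hyz
      rw [Subgroup.mem_comap]
      have : C (cc i x y) = L i x y := hCB _ (hLm i x y)
      rw [this]
      exact hP3 i x y hxy hxz hyz _ (hL i x y hxy)
  · rw [eq_top_iff]
    rintro ⟨g, hg⟩ _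
    have hgAW : β.symm.permCongr g ∈ AW θ β := by
      change β.permCongr (β.symm.permCongr g) ∈ AA θ
      have : β.permCongr (β.symm.permCongr g) = g := by
        refine Equiv.ext fun w => ?_
        simp
      rw [this]
      exact hg
    rw [← GamW_eq hT h4 n β hβ] at hgAW
    have key : ∀ τ ∈ GamW X θ', ∀ h : B τ ∈ AA θ, (⟨B τ, h⟩ : AA θ) ∈
        Subgroup.closure (Set.range lamH ∪ {q | ∃ (i : Bool) (x y : X), x ≠ y ∧ q = cc i x y}) := by
      intro τ hτ
      unfold GamW at hτ
      induction hτ using Subgroup.closure_induction with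
      | mem τ hτ =>
        intro h
        rcases hτ with ⟨π, rfl⟩ | ⟨x, y, i, hxy, hτ⟩
        · exact Subgroup.subset_closure (Or.inl ⟨π, Subtype.ext rfl⟩)
        · refine Subgroup.subset_closure (Or.inr ⟨i, x, y, hxy, Subtype.ext ?_⟩)
          rw [hcc]
          change B τ = B (L i x y)
          rw [hτ.unique (hL i x y hxy)]
      | one =>
        intro h
        have : (⟨B 1, h⟩ : AA θ) = 1 := Subtype.ext (map_one B)
        rw [this]
        exact Subgroup.one_mem _
      | mul a b ha hb iha ihb =>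
        intro h
        have hGA : ∀ τ ∈ GamW X θ', B τ ∈ AA θ := by
          intro τ hτ
          rw [GamW_eq hT h4 n β hβ] at hτ
          exact hτ
        have h1 := iha (hGA a ha)
        have h2 := ihb (hGA b hb)
        have : (⟨B (a * b), h⟩ : AA θ) = ⟨B a, hGA a ha⟩ * ⟨B b, hGA b hb⟩ :=
          Subtype.ext (map_mul B a b)
        rw [this]
        exact Subgroup.mul_mem _ h1 h2
      | inv a ha iha =>
        intro h
        have hGA : B a ∈ AA θ := by
          have h5 : a ∈ GamW X θ' := ha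
          rw [GamW_eq hT h4 n β hβ] at h5
          exact h5
        have : (⟨B a⁻¹, h⟩ : AA θ) = (⟨B a, hGA⟩)⁻¹ := Subtype.ext (map_inv B a)
        rw [this]
        exact Subgroup.inv_mem _ (iha hGA)
    have hBg : B (β.symm.permCongr g) = g := by
      refine Equiv.ext fun w => ?_
      change β (β.symm (g (β.symm.symm (β.symm w)))) = g w
      simp
    have h6 := key _ hgAW (by rw [hBg]; exact hg)
    have h7 : (⟨B (β.symm.permCongr g), by rw [hBg]; exact hg⟩ : AA θ) = ⟨g, hg⟩ := Subtype.ext hBg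
    rw [h7] at h6
    exact h6

end Pool.Agent.Lib.MP_c23930_al.AQ
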