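import Pool.Agent.Lib.MP_c23930_al.AQ.Clop
import Pool.Agent.Lib.MP_c23930_al.AQ.Is3

/-!
# The alternating full group is an infinite group with infinite conjugacy classes
-/

set_option autoImplicit false

namespace Pool.Agent.Lib.MP_c23930_al.AQ

variable {R : ℕ → ℕ} {θ : ℤ → Bool}

namespace Icc

/-- the scales are unbounded -/
theorem le_R (hT : Toep R θ) (n : ℕ) : n ≤ R n := by
  have : StrictMono R := strictMono_nat_of_lt_succ hT.lt
  exact this.id_le n

theorem not_dvd {r : ℕ} {M p q : ℤ} (hp : |p| ≤ M) (hq : |q| ≤ M) (hr : 2 * M < r) (hpq : p ≠ q) :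
    ¬ (r : ℤ) ∣ p - q := by
  intro h
  have h1 : |p - q| < r := by
    have := abs_sub p q
    omega
  exact hpq (sub_eq_zero.1 (Int.eq_zero_of_abs_lt_dvd h h1))

/-- the 3-cycle through `m`, `y`, `t` -/
theorem ex_cycle (hT : Toep R θ) (n : ℕ) (M m y t : ℤ) (hm : |m| ≤ M) (hy : |y| ≤ M)
    (ht : |t| ≤ M) (hR : 2 * M < R n) (hmy : m ≠ y) (hyt : y ≠ t) (hmt : m ≠ t) :
    ∃ π ∈ AA θ, Is3 π {x : ℤ | (R n : ℤ) ∣ x - m} (fun x => x) (fun x => x + (y - m))
      (fun x => x + (t - m)) := by
  have hmy' := not_dvd hm hy hR hmy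
  have hyt' := not_dvd hy ht hR hyt
  have hmt' := not_dvd hm ht hR hmt
  have hi : Inj3 {x : ℤ | (R n : ℤ) ∣ x - m} (fun x => x) (fun x => x + (y - m))
      (fun x => x + (t - m)) := by
    constructor
    · intro u _ v _ h
      exact h
    · intro u _ v _ h
      simpa using h
    · intro u _ v _ h
      simpa using h
    · intro u hu v hv h
      have hu' : (R n : ℤ) ∣ u - m := hu
      have hv' : (R n : ℤ) ∣ v - m := hv
      have h' : u = v + (y - m) := h
      apply hmy'
      have : m - y = (v - m) - (u - m) := by omega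
      rw [this]
      exact dvd_sub hv' hu'
    · intro u hu v hv h
      have hu' : (R n : ℤ) ∣ u - m := hu
      have hv' : (R n : ℤ) ∣ v - m := hv
      have h' : u + (y - m) = v + (t - m) := h
      apply hyt'
      have : y - t = (v - m) - (u - m) := by omega
      rw [this]
      exact dvd_sub hv' hu'
    · intro u hu v hv h
      have hu' : (R n : ℤ) ∣ u - m := hu
      have hv' : (R n : ℤ) ∣ v - m := hv
      have h' : u + (t - m) = v := h
      apply hmt'
      have : m - t = (u - m) - (v - m) := by omega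
      rw [this]
      exact dvd_sub hu' hv'
  obtain ⟨π, hπ⟩ := hi.ex
  refine ⟨π, Subgroup.subset_closure ⟨{x : ℤ | (R n : ℤ) ∣ x - m}, y - m, t - m,
    clop_dvd hT n m, ?_, ?_, ?_, hπ⟩, hπ⟩
  · omega
  · omega
  · omega

end Icc

open Icc

theorem icc_AA (hT : Toep R θ) (g : AA θ) (hg : g ≠ 1) :
    (Set.range fun h : AA θ => h * g * h⁻¹).Infinite := by
  obtain ⟨m, hm⟩ : ∃ m : ℤ, (g : Equiv.Perm ℤ) m ≠ m := by
    by_contra hcon
    push Not at hcon
    exact hg (Subtype.ext (Equiv.ext hcon))
  set m' : ℤ := (g : Equiv.Perm ℤ) m with hm'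
  -- for every other point `y` there is a conjugate mapping `y` to `m'`
  have key : ∀ y : ℤ, y ∉ ({m, m'} : Set ℤ) → ∃ h : AA θ,
      ((h * g * h⁻¹ : AA θ) : Equiv.Perm ℤ) y = m' := by
    intro y hy
    have hym : y ≠ m := fun h => hy (by simp [h])
    have hym' : y ≠ m' := fun h => hy (by simp [h])
    set t : ℤ := |m| + |m'| + |y| + 1 with ht
    set n : ℕ := (2 * t + 1).toNat with hn
    have h1 := abs_nonneg m
    have h2 := abs_nonneg m'
    have h3 := abs_nonneg y
    have hR : 2 * t < R n := by
      have := le_R hT n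
      have h4 : ((2 * t + 1).toNat : ℤ) = 2 * t + 1 := Int.toNat_of_nonneg (by omega)
      have h5 : (n : ℤ) ≤ R n := by exact_mod_cast this
      rw [hn, h4] at h5
      omega
    have ht0 : |t| = t := abs_of_nonneg (by omega)
    have htm : m ≠ t := by
      intro h
      have := le_abs_self m
      omega
    have htm' : m' ≠ t := by
      intro h
      have := le_abs_self m'
      omega
    have hty : y ≠ t := by
      intro h
      have := le_abs_self y
      omega
    obtain ⟨π, hπA, hπ⟩ := ex_cycle hT n t m y t (by omega) (by omega) ht0.le hR hym.symm hty htm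
    have e1 : π m = y := by
      have h6 := hπ.fg m (by simp)
      have h7 : π m = m + (y - m) := h6
      rw [h7]
      ring
    have e2 : π m' = m' := by
      refine hπ.fix m' fun u hu => ?_
      have hu' : (R n : ℤ) ∣ u - m := hu
      refine ⟨?_, ?_, ?_⟩
      · intro h
        have h' : m' = u := h
        apply not_dvd (M := t) (p := m') (q := m) (by omega) (by omega) hR hm
        rw [h']
        exact hu'
      · intro h
        have h' : m' = u + (y - m) := h
        apply not_dvd (M := t) (p := m') (q := y) (by omega) (by omega) hR hym'.symm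
        have : m' - y = u - m := by omega
        rw [this]
        exact hu'
      · intro h
        have h' : m' = u + (t - m) := h
        apply not_dvd (M := t) (p := m') (q := t) (by omega) ht0.le hR htm'
        have : m' - t = u - m := by omega
        rw [this]
        exact hu'
    refine ⟨⟨π, hπA⟩, ?_⟩
    have e3 : π⁻¹ y = m := by
      rw [← e1]
      exact π.symm_apply_apply m
    show π ((g : Equiv.Perm ℤ) (π⁻¹ y)) = m'
    rw [e3, ← hm', e2]
  choose! H hH using key
  have hinf : ({m, m'}ᶜ : Set ℤ).Infinite := (Set.toFinite {m, m'}).infinite_compl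
  have hinj : Set.InjOn (fun y : ℤ => H y * g * (H y)⁻¹) ({m, m'}ᶜ : Set ℤ) := by
    intro y hy z hz hyz
    have h1 := hH y hy
    have h2 := hH z hz
    have h3 : H y * g * (H y)⁻¹ = H z * g * (H z)⁻¹ := hyz
    rw [h3] at h1
    exact (Equiv.injective _) (h1.trans h2.symm)
  refine (hinf.image hinj).mono ?_
  rintro _ ⟨y, -, rfl⟩
  exact ⟨H y, rfl⟩

theorem infinite_AA (hT : Toep R θ) : Infinite (AA θ) := by
  have hR : (2 : ℤ) * 2 < R 5 := by
    have := le_R hT 5
    have h5 : (5 : ℤ) ≤ R 5 := by exact_mod_cast this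
    omega
  obtain ⟨π, hπA, hπ⟩ := ex_cycle hT 5 2 0 1 2 (by norm_num) (by norm_num) (by norm_num) hR
    (by norm_num) (by norm_num) (by norm_num)
  have hne : (⟨π, hπA⟩ : AA θ) ≠ 1 := by
    intro h
    have h1 : π = 1 := congrArg Subtype.val h
    have h2 : π 0 = 0 + (1 - 0) := hπ.fg 0 (by simp)
    rw [h1] at h2
    norm_num at h2
  have hinf := icc_AA hT ⟨π, hπA⟩ hne
  by_contra hcon
  rw [not_infinite_iff_finite] at hcon
  exact hinf (Set.toFinite _)

end Pool.Agent.Lib.MP_c23930_al.AQ
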