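import Pool.Agent.Lib.MP_c23930_al.AQ.Defs

/-!
# Elements of the alternating full group are local
-/

set_option autoImplicit false

namespace Pool.Agent.Lib.MP_c23930_al.AQ

variable {θ : ℤ → Bool}

namespace Local

theorem win_mono {ρ ρ' : ℕ} (h : ρ ≤ ρ') {x y : ℤ} (hw : Win θ ρ' x y) : Win θ ρ x y :=
  fun j hj => hw j (hj.trans (by exact_mod_cast h))

theorem win_symm {ρ : ℕ} {x y : ℤ} (hw : Win θ ρ x y) : Win θ ρ y x :=
  fun j hj => (hw j hj).symm

theorem win_shift {ρ ρ' : ℕ} {x y d : ℤ} (h : |d| + ρ ≤ (ρ' : ℤ)) (hw : Win θ ρ' x y) :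
    Win θ ρ (x + d) (y + d) := by
  intro j hj
  have := hw (d + j) ((abs_add_le d j).trans (by omega))
  rwa [← add_assoc, ← add_assoc] at this

/-- locality -/
def Loc (θ : ℤ → Bool) (g : Equiv.Perm ℤ) : Prop :=
  ∃ ρ : ℕ, ∀ x, |g x - x| ≤ ρ ∧ ∀ y, Win θ ρ x y → g y - y = g x - x

theorem loc_one : Loc θ 1 := ⟨0, fun x => ⟨by simp, fun y _ => by simp⟩⟩

theorem loc_mul {g h : Equiv.Perm ℤ} (hg : Loc θ g) (hh : Loc θ h) : Loc θ (g * h) := by
  obtain ⟨ρ₁, h₁⟩ := hg
  obtain ⟨ρ₂, h₂⟩ := hh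
  refine ⟨ρ₁ + ρ₂, fun x => ⟨?_, fun y hw => ?_⟩⟩
  · have e : (g * h) x - x = (g (h x) - h x) + (h x - x) := by
      rw [Equiv.Perm.mul_apply]
      ring
    rw [e]
    have e1 := (h₁ (h x)).1
    have e2 := (h₂ x).1
    push_cast
    exact (abs_add_le _ _).trans (by omega)
  · have e1 := (h₂ x).2 y (win_mono (by omega) hw)
    have e2 := (h₂ x).1
    have e3 : Win θ ρ₁ (x + (h x - x)) (y + (h x - x)) :=
      win_shift (by push_cast; omega) hw
    have e4 : x + (h x - x) = h x := by ring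
    have e5 : y + (h x - x) = h y := by omega
    rw [e4, e5] at e3
    have e6 := (h₁ (h x)).2 (h y) e3
    rw [Equiv.Perm.mul_apply, Equiv.Perm.mul_apply]
    omega

theorem ap (g : Equiv.Perm ℤ) (x : ℤ) : g (g⁻¹ x) = x := g.apply_symm_apply x

theorem loc_inv {g : Equiv.Perm ℤ} (hg : Loc θ g) : Loc θ g⁻¹ := by
  obtain ⟨ρ, h⟩ := hg
  have b : ∀ x, |g⁻¹ x - x| ≤ ρ := by
    intro x
    have := (h (g⁻¹ x)).1
    rwa [ap, abs_sub_comm] at this
  refine ⟨2 * ρ, fun x => ⟨(b x).trans (by push_cast; omega), fun x' hw => ?_⟩⟩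
  have e3 : Win θ ρ (x + (g⁻¹ x - x)) (x' + (g⁻¹ x - x)) :=
    win_shift (by have := b x; push_cast; omega) hw
  have e4 : x + (g⁻¹ x - x) = g⁻¹ x := by ring
  rw [e4] at e3
  have e6 := (h (g⁻¹ x)).2 _ e3
  rw [ap] at e6
  have e7 : g (x' + (g⁻¹ x - x)) = x' := by omega
  have e8 : g⁻¹ x' = x' + (g⁻¹ x - x) := by
    rw [Equiv.Perm.inv_eq_iff_eq, e7]
  rw [e8]
  ring

theorem loc_gen {π : Equiv.Perm ℤ} {U : Set ℤ} {a b : ℤ} (hU : Clop θ U)
    (hπ : Is3 π U (fun x => x) (fun x => x + a) (fun x => x + b)) : Loc θ π := by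
  obtain ⟨ρ₀, h₀⟩ := hU
  have v1 : ∀ x, x ∈ U → π x = x + a := fun x hx => hπ.fg x hx
  have v2 : ∀ x, x + -a ∈ U → π x = x - a + b := by
    intro x hx
    have := hπ.gh _ hx
    simp only [neg_add_cancel_right] at this
    rw [this]
    ring
  have v3 : ∀ x, x + -b ∈ U → π x = x - b := by
    intro x hx
    have := hπ.hf _ hx
    simp only [neg_add_cancel_right] at this
    rw [this]
    ring
  have v4 : ∀ x, x ∉ U → x + -a ∉ U → x + -b ∉ U → π x = x := by
    intro x h1 h2 h3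
    apply hπ.fix
    intro u hu
    refine ⟨?_, ?_, ?_⟩
    · rintro rfl
      exact h1 hu
    · rintro rfl
      exact h2 (by simpa using hu)
    · rintro rfl
      exact h3 (by simpa using hu)
  have key : ∀ x y, Win θ (ρ₀ + a.natAbs + b.natAbs) x y →
      (x ∈ U → y ∈ U) ∧ (x + -a ∈ U → y + -a ∈ U) ∧ (x + -b ∈ U → y + -b ∈ U) := by
    intro x y hw
    refine ⟨h₀ x y (win_mono (by omega) hw), h₀ _ _ (win_shift ?_ hw), h₀ _ _ (win_shift ?_ hw)⟩
    · rw [abs_neg]
      push_cast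
      have := Int.abs_eq_natAbs a
      have := abs_nonneg b
      omega
    · rw [abs_neg]
      push_cast
      have := Int.abs_eq_natAbs b
      have := abs_nonneg a
      omega
  refine ⟨ρ₀ + a.natAbs + b.natAbs, fun x => ⟨?_, fun y hw => ?_⟩⟩
  · have ea := Int.abs_eq_natAbs a
    have eb := Int.abs_eq_natAbs b
    by_cases h1 : x ∈ U
    · rw [v1 x h1]
      push_cast
      rw [abs_le]
      omega
    · by_cases h2 : x + -a ∈ U
      · rw [v2 x h2]
        push_cast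
        rw [abs_le]
        omega
      · by_cases h3 : x + -b ∈ U
        · rw [v3 x h3]
          push_cast
          rw [abs_le]
          omega
        · rw [v4 x h1 h2 h3, sub_self, abs_zero]
          positivity
  · obtain ⟨k1, k2, k3⟩ := key x y hw
    obtain ⟨m1, m2, m3⟩ := key y x (win_symm hw)
    by_cases h1 : x ∈ U
    · rw [v1 x h1, v1 y (k1 h1)]
      ring
    · by_cases h2 : x + -a ∈ U
      · rw [v2 x h2, v2 y (k2 h2)]
        ring
      · by_cases h3 : x + -b ∈ U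
        · rw [v3 x h3, v3 y (k3 h3)]
          ring
        · rw [v4 x h1 h2 h3, v4 y (fun h => h1 (m1 h)) (fun h => h2 (m2 h)) (fun h => h3 (m3 h))]
          ring

end Local

theorem loc_AA {g : Equiv.Perm ℤ} (hg : g ∈ AA θ) : ∃ ρ : ℕ, ∀ x, |g x - x| ≤ ρ ∧
    ∀ y, Win θ ρ x y → g y - y = g x - x := by
  have : Local.Loc θ g := by
    unfold AA at hg
    induction hg using Subgroup.closure_induction with
    | mem π hπ =>
      obtain ⟨U, a, b, hU, _, _, _, h⟩ := hπ
      exact Local.loc_gen hU h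
    | one => exact Local.loc_one
    | mul g h _ _ ihg ihh => exact Local.loc_mul ihg ihh
    | inv g _ ih => exact Local.loc_inv ih
  exact this

end Pool.Agent.Lib.MP_c23930_al.AQ
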