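import Pool.Agent.Lib.MP_c23930_al.AQ.Defs
import Pool.Agent.Lib.MP_c23930_al.AQ.Local

/-!
# The alternating full group is locally embeddable into finite groups
-/

set_option autoImplicit false

namespace Pool.Agent.Lib.MP_c23930_al.AQ

variable {R : ℕ → ℕ} {θ : ℤ → Bool}

namespace Lef

/-- the induced map on `ZMod p` -/
def psi (p : ℕ) (g : Equiv.Perm ℤ) (x : ZMod p) : ZMod p := ((g x.valMinAbs : ℤ) : ZMod p)

theorem psi_one (p : ℕ) (x : ZMod p) : psi p 1 x = x := by
  unfold psi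
  rw [Equiv.Perm.one_apply, ZMod.coe_valMinAbs]

/-- integers strictly between two consecutive multiples of `p` -/
theorem not_dvd (p : ℕ) (c : ℤ) (h1 : -(p : ℤ) < c) (h2 : c < 0) : ¬ (p : ℤ) ∣ c := by
  rintro ⟨t, rfl⟩
  have hp : (0 : ℤ) < p := by omega
  have h3 : t < 0 := by
    by_contra h
    push Not at h
    have := mul_nonneg hp.le h
    omega
  have h4 : -1 < t := by
    by_contra h
    push Not at h
    have := mul_le_mul_of_nonneg_left h hp.le
    omega
  omega

theorem psi_mul (hT : Toep R θ) (n : ℕ) [NeZero (R n)] (g h : Equiv.Perm ℤ) (ρ : ℕ)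
    (hρ : 8 * ρ < R n) (hh : ∀ x, |h x - x| ≤ ρ)
    (hg : ∀ x y, Win θ ρ x y → g y - y = g x - x) (x : ZMod (R n)) :
    psi (R n) g (psi (R n) h x) = psi (R n) (g * h) x := by
  unfold psi
  rw [Equiv.Perm.mul_apply]
  set m : ℤ := x.valMinAbs with hm
  set y : ℤ := h m with hy
  set m' : ℤ := ((y : ℤ) : ZMod (R n)).valMinAbs with hm'
  have hmI := ZMod.valMinAbs_mem_Ioc x
  rw [← hm, Set.mem_Ioc] at hmI
  have hmI' := ZMod.valMinAbs_mem_Ioc ((y : ℤ) : ZMod (R n))
  rw [← hm', Set.mem_Ioc] at hmI'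
  have hd := abs_le.1 (hh m)
  rw [← hy] at hd
  have hcong : (R n : ℤ) ∣ m' - y := by
    rw [← ZMod.intCast_zmod_eq_zero_iff_dvd] 
    push_cast
    rw [hm', ZMod.coe_valMinAbs, sub_self]
  obtain ⟨t, ht⟩ := hcong
  have hρ' : 8 * (ρ : ℤ) < R n := by exact_mod_cast hρ
  have ht1 : t < 2 := by
    by_contra hc
    push Not at hc
    have : (R n : ℤ) * 2 ≤ R n * t := mul_le_mul_of_nonneg_left hc (by omega)
    omega
  have ht2 : -2 < t := by
    by_contra hc
    push Not at hc
    have : (R n : ℤ) * t ≤ R n * (-2) := mul_le_mul_of_nonneg_left hc (by omega)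
    omega
  have key : g m' - m' = g y - y := by
    have ht3 : t = 0 ∨ t = 1 ∨ t = -1 := by omega
    rcases ht3 with rfl | rfl | rfl
    · have : m' = y := by
        rw [mul_zero] at ht
        omega
      rw [this]
    · -- `m' = y + p`
      refine hg y m' ?_
      intro j hj
      have hj' := abs_le.1 hj
      have e : m' + j = R n * 1 + (y + j) := by linarith
      rw [e, hT.per n 1 (y + j)]
      refine not_dvd _ _ ?_ ?_ <;> omega
    · refine hg y m' ?_
      intro j hj
      have hj' := abs_le.1 hj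
      have e : y + j = R n * 1 + (m' + j) := by linarith
      rw [e, hT.per n 1 (m' + j)]
      refine not_dvd _ _ ?_ ?_ <;> omega
  have e2 : g m' = g y + R n * t := by linarith
  rw [e2]
  push_cast
  simp

theorem exists_large (hT : Toep R θ) (M : ℕ) : ∃ n, M < R n := by
  have h : ∀ n, n ≤ R n := by
    intro n
    induction n with
    | zero => exact Nat.zero_le _
    | succ n ih =>
      have := hT.lt n
      omega
  refine ⟨M + 1, ?_⟩
  have := h (M + 1)
  omega

end Lef

open Lef in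
theorem lef_AA (hT : Toep R θ) (F : Finset (AA θ)) : ∃ (p : ℕ) (_ : NeZero p)
    (φ : AA θ → Equiv.Perm (ZMod p)), (∀ g ∈ F, ∀ h ∈ F, φ (g * h) = φ g * φ h) ∧
      ∀ g ∈ F, g ≠ 1 → φ g ≠ 1 := by
  classical
  have hloc : ∀ g : AA θ, ∃ ρ : ℕ, ∀ x, |(g : Equiv.Perm ℤ) x - x| ≤ ρ ∧
      ∀ y, Win θ ρ x y → (g : Equiv.Perm ℤ) y - y = (g : Equiv.Perm ℤ) x - x :=
    fun g => loc_AA g.2
  choose rad hrad using hloc
  have hmv : ∀ g : AA θ, g ≠ 1 → ∃ m : ℤ, (g : Equiv.Perm ℤ) m ≠ m := by
    intro g hg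
    by_contra hno
    push Not at hno
    apply hg
    ext x
    exact hno x
  choose! mv hmv using hmv
  let M : ℕ := ∑ g ∈ F, (8 * rad g + 8 * rad g⁻¹ + 2 * (mv g).natAbs)
  obtain ⟨n, hn⟩ := exists_large hT M
  have hM : ∀ g ∈ F, 8 * rad g + 8 * rad g⁻¹ + 2 * (mv g).natAbs < R n := by
    intro g hg
    refine lt_of_le_of_lt ?_ hn
    exact Finset.single_le_sum (f := fun g => 8 * rad g + 8 * rad g⁻¹ + 2 * (mv g).natAbs)
      (fun _ _ => Nat.zero_le _) hg
  haveI : NeZero (R n) := ⟨(hT.pos n).ne'⟩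
  have winmono : ∀ (a b : ℕ) (x y : ℤ), a ≤ b → Win θ b x y → Win θ a x y := by
    intro a b x y hab hw j hj
    exact hw j (hj.trans (by exact_mod_cast hab))
  -- composition
  have hcomp : ∀ g h : AA θ, 8 * rad g < R n → 8 * rad h < R n → ∀ x,
      psi (R n) g (psi (R n) h x) = psi (R n) ((g : Equiv.Perm ℤ) * h) x := by
    intro g h hg hh x
    refine psi_mul hT n g h (max (rad g) (rad h)) (by omega) ?_ ?_ x
    · intro x
      exact ((hrad h x).1).trans (by exact_mod_cast le_max_right _ _)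
    · intro x y hw
      exact (hrad g x).2 y (winmono _ _ _ _ (le_max_left _ _) hw)
  have hbij : ∀ g ∈ F, Function.Bijective (psi (R n) (g : Equiv.Perm ℤ)) := by
    intro g hg
    have h1 := hM g hg
    have hinv : ∀ x, psi (R n) (g⁻¹ : AA θ) (psi (R n) g x) = x := by
      intro x
      rw [hcomp g⁻¹ g (by omega) (by omega) x]
      have : ((g⁻¹ : AA θ) : Equiv.Perm ℤ) * (g : Equiv.Perm ℤ) = 1 := by
        rw [← Subgroup.coe_mul, inv_mul_cancel, Subgroup.coe_one]
      rw [this, psi_one]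
    have hinj : Function.Injective (psi (R n) (g : Equiv.Perm ℤ)) :=
      Function.LeftInverse.injective hinv
    exact Finite.injective_iff_bijective.1 hinj
  let φ : AA θ → Equiv.Perm (ZMod (R n)) := fun g =>
    if h : Function.Bijective (psi (R n) (g : Equiv.Perm ℤ)) then Equiv.ofBijective _ h else 1
  have hφ : ∀ g : AA θ, Function.Bijective (psi (R n) (g : Equiv.Perm ℤ)) →
      ∀ x, φ g x = psi (R n) (g : Equiv.Perm ℤ) x := by
    intro g hg x
    simp only [φ, hg, dif_pos, Equiv.ofBijective_apply]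
  refine ⟨R n, inferInstance, φ, ?_, ?_⟩
  · intro g hg h hh
    have hc := hcomp g h (by have := hM g hg; omega) (by have := hM h hh; omega)
    have hb : Function.Bijective (psi (R n) ((g * h : AA θ) : Equiv.Perm ℤ)) := by
      have : psi (R n) ((g * h : AA θ) : Equiv.Perm ℤ) =
          psi (R n) (g : Equiv.Perm ℤ) ∘ psi (R n) (h : Equiv.Perm ℤ) := by
        funext x
        rw [Function.comp_apply, hc x, Subgroup.coe_mul]
      rw [this]
      exact (hbij g hg).comp (hbij h hh)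
    ext x
    rw [hφ _ hb, Equiv.Perm.mul_apply, hφ _ (hbij g hg), hφ _ (hbij h hh), hc x,
      Subgroup.coe_mul]
  · intro g hg hne h1
    have hb := hM g hg
    have h2 := hφ g (hbij g hg) ((mv g : ℤ) : ZMod (R n))
    rw [h1, Equiv.Perm.one_apply] at h2
    unfold psi at h2
    have h3 : (((mv g : ℤ) : ZMod (R n)).valMinAbs) = mv g := by
      rw [ZMod.valMinAbs_spec]
      refine ⟨rfl, ?_⟩
      rw [Set.mem_Ioc]
      omega
    rw [h3] at h2
    have h4 : (R n : ℤ) ∣ (g : Equiv.Perm ℤ) (mv g) - mv g := by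
      rw [← ZMod.intCast_zmod_eq_zero_iff_dvd]
      push_cast
      rw [← h2, sub_self]
    have h5 := (hrad g (mv g)).1
    have h6 := hmv g hne
    have h7 : (g : Equiv.Perm ℤ) (mv g) - mv g = 0 := by
      refine Int.eq_zero_of_abs_lt_dvd h4 ?_
      refine lt_of_le_of_lt h5 ?_
      omega
    exact h6 (sub_eq_zero.1 h7)

end Pool.Agent.Lib.MP_c23930_al.AQ
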