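import Pool.Agent.Lib.MP_c23930_al.AQ.Defs
import Pool.Agent.Lib.MP_c23930_al.AQ.Lef

/-!
# Groups which are locally embeddable into finite groups are sofic
-/

set_option autoImplicit false

namespace Pool.Agent.Lib.MP_c23930_al.AQ

theorem sofic_of_lef (G : Type) [Group G] (h : ∀ F : Finset G, ∃ (M : Type) (_ : Group M)
    (_ : Finite M) (φ : G → M), (∀ g ∈ F, ∀ h ∈ F, φ (g * h) = φ g * φ h) ∧
      ∀ g ∈ F, g ≠ 1 → φ g ≠ 1) : Sofic G := by
  classical
  intro F ε hε
  obtain ⟨M, _, _, φ, hmul, hne⟩ := h F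
  haveI : Fintype M := Fintype.ofFinite M
  let e : M ≃ Fin (Fintype.card M) := Fintype.equivFin M
  have hpos : 0 < Fintype.card M := Fintype.card_pos_iff.2 ⟨1⟩
  have hle : (1 - ε) * (Fintype.card M : ℝ) ≤ Fintype.card M := by
    have : (0 : ℝ) ≤ Fintype.card M := by positivity
    nlinarith
  refine ⟨Fintype.card M, fun g => e.permCongr (Equiv.mulLeft (φ g)), hpos, ?_, ?_⟩
  · intro g hg k hk
    have : (Finset.univ.filter fun x : Fin (Fintype.card M) =>
        e.permCongr (Equiv.mulLeft (φ (g * k))) x =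
          e.permCongr (Equiv.mulLeft (φ g)) (e.permCongr (Equiv.mulLeft (φ k)) x)) =
        Finset.univ := by
      rw [Finset.filter_eq_self]
      intro x _
      rw [Equiv.permCongr_apply, Equiv.permCongr_apply, Equiv.permCongr_apply,
        Equiv.symm_apply_apply, Equiv.coe_mulLeft, Equiv.coe_mulLeft, Equiv.coe_mulLeft,
        hmul g hg k hk]
      exact congrArg e (mul_assoc _ _ _)
    rw [this, Finset.card_univ, Fintype.card_fin]
    exact hle
  · intro g hg hg1
    have : (Finset.univ.filter fun x : Fin (Fintype.card M) =>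
        e.permCongr (Equiv.mulLeft (φ g)) x ≠ x) = Finset.univ := by
      rw [Finset.filter_eq_self]
      intro x _ hx
      rw [Equiv.permCongr_apply, Equiv.coe_mulLeft] at hx
      have h1 : φ g * e.symm x = e.symm x := by
        apply e.injective
        rw [hx, Equiv.apply_symm_apply]
      exact hne g hg hg1 (mul_eq_right.1 h1)
    rw [this, Finset.card_univ, Fintype.card_fin]
    exact hle

variable {R : ℕ → ℕ} {θ : ℤ → Bool}

theorem sofic_AA (hT : Toep R θ) : Sofic (AA θ) := by
  refine sofic_of_lef (AA θ) fun F => ?_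
  obtain ⟨p, _, φ, h1, h2⟩ := lef_AA hT F
  exact ⟨Equiv.Perm (ZMod p), inferInstance, inferInstance, φ, h1, h2⟩

end Pool.Agent.Lib.MP_c23930_al.AQ
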