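import Pool.Agent.Lib.MP_c23930_al.AQ.Toep
import Pool.Agent.Lib.MP_c23930_al.AQ.ExFrame
import Pool.Agent.Lib.MP_c23930_al.AQ.SoficLef
import Pool.Agent.Lib.MP_c23930_al.AQ.Icc

set_option autoImplicit false

namespace Pool.Agent.Lib.MP_c23930_al.AQ

theorem fg_of_frame (Q X : Type) [Group Q] [Finite X] (F : Frame Q X) :
    ∃ T : Finset Q, Subgroup.closure (T : Set Q) = ⊤ := by
  classical
  have h1 : (Set.range F.lam ∪ {q | ∃ (i : Bool) (x y : X), x ≠ y ∧ q = F.c i x y}).Finite := by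
    have := Fintype.ofFinite X
    refine Set.Finite.union (Set.finite_range _) ?_
    refine (Set.finite_range (fun p : Bool × X × X => F.c p.1 p.2.1 p.2.2)).subset ?_
    rintro q ⟨i, x, y, _, rfl⟩
    exact ⟨(i, x, y), rfl⟩
  refine ⟨h1.toFinset, ?_⟩
  rw [Set.Finite.coe_toFinset]
  exact F.gen

namespace GroupsFile

/-- the scales -/
def sc : ℕ → ℕ
  | 0 => 1
  | m + 1 => (2 ^ m * 5).factorial

theorem sc_dvd (n : ℕ) : sc n ∣ sc (n + 1) := by
  cases n with
  | zero => exact one_dvd _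
  | succ n =>
    apply Nat.factorial_dvd_factorial
    exact Nat.mul_le_mul_right _ (Nat.pow_le_pow_right (by norm_num) (Nat.le_succ n))

theorem sc_le (n : ℕ) : 4 * sc n ≤ sc (n + 1) := by
  cases n with
  | zero => decide
  | succ n =>
    change 4 * (2 ^ n * 5).factorial ≤ (2 ^ (n + 1) * 5).factorial
    have h1 : 1 ≤ 2 ^ n := Nat.one_le_two_pow
    have h2 : 2 ^ n * 5 + 1 ≤ 2 ^ (n + 1) * 5 := by
      rw [pow_succ]; omega
    calc 4 * (2 ^ n * 5).factorial ≤ (2 ^ n * 5 + 1) * (2 ^ n * 5).factorial :=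
          Nat.mul_le_mul_right _ (by omega)
      _ = (2 ^ n * 5 + 1).factorial := (Nat.factorial_succ _).symm
      _ ≤ _ := Nat.factorial_le h2

end GroupsFile

open GroupsFile

/-- the main group -/
theorem main_Q : ∃ (Q : Type) (_ : Group Q), Infinite Q ∧ Sofic Q ∧
    (∀ g : Q, g ≠ 1 → (Set.range fun h : Q => h * g * h⁻¹).Infinite) ∧
    ∀ m, Nonempty (Frame Q (XX m)) := by
  obtain ⟨θ, hT⟩ := exists_toep sc rfl sc_dvd sc_le
  refine ⟨AA θ, inferInstance, infinite_AA hT, sofic_AA hT, fun g hg => icc_AA hT g hg, ?_⟩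
  intro m
  have hc : Fintype.card (XX m) = 2 ^ m * 5 := by
    rw [Fintype.card_prod, card_Om, Fintype.card_fin]
  refine exists_frame hT ?_ (m + 1) ?_
  · rw [hc]
    have h1 : 1 ≤ 2 ^ m := Nat.one_le_two_pow
    omega
  · rw [hc]
    rfl

end Pool.Agent.Lib.MP_c23930_al.AQ
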