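import Mathlib

set_option autoImplicit false

open scoped commutatorElement

namespace Pool.Agent.Lib.MP_c23930_al.AQ

theorem perfect_A5 : commutator (alternatingGroup (Fin 5)) = ⊤ := by
  rcases (inferInstance : (commutator (alternatingGroup (Fin 5))).Normal).eq_bot_or_eq_top with h | h
  · exfalso
    rw [commutator_def, Subgroup.commutator_eq_bot_iff_le_centralizer] at h
    let a : alternatingGroup (Fin 5) :=
      ⟨Equiv.swap 0 1 * Equiv.swap 1 2, Equiv.Perm.mem_alternatingGroup.2 (by decide)⟩
    let b : alternatingGroup (Fin 5) :=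
      ⟨Equiv.swap 0 1 * Equiv.swap 1 3, Equiv.Perm.mem_alternatingGroup.2 (by decide)⟩
    have h1 := h (Subgroup.mem_top a)
    rw [Subgroup.mem_centralizer_iff] at h1
    have h2 := congrArg (fun x : alternatingGroup (Fin 5) => (x : Equiv.Perm (Fin 5)) 0)
      (h1 b (Subgroup.mem_top b))
    exact absurd h2 (by decide)
  · exact h

end Pool.Agent.Lib.MP_c23930_al.AQ
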