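import Pool.Agent.Lib.MP_c23930_al.AQ.Defs
import Pool.Agent.Lib.MP_c23930_al.Main

set_option autoImplicit false

namespace Pool.Agent.Lib.MP_c23930_al.AQ

open scoped Pointwise

theorem ueg_A (Q : Type) [Group Q] [Infinite Q] (hQ : Sofic Q)
    (S : Finset (Wreath (Multiplicative (ZMod 60)) Q))
    (hS : Subgroup.closure (S : Set (Wreath (Multiplicative (ZMod 60)) Q)) = ⊤) (n : ℕ) :
    (1 + 1 / 64 : ℝ) ^ n ≤ (Set.ncard (((S : Set (Wreath (Multiplicative (ZMod 60)) Q)) ∪
      (S : Set (Wreath (Multiplicative (ZMod 60)) Q))⁻¹ ∪ {1}) ^ n) : ℝ) := by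
  classical
  have : Fact (Nat.Prime 2) := ⟨Nat.prime_two⟩
  let π : Multiplicative (ZMod 60) →* Multiplicative (ZMod 2) :=
    AddMonoidHom.toMultiplicative (ZMod.castHom (show 2 ∣ 60 by norm_num) (ZMod 2)).toAddMonoidHom
  let a : Multiplicative (ZMod 60) := Multiplicative.ofAdd 1
  have ha : (π a).toAdd = 1 := map_one (ZMod.castHom (show 2 ∣ 60 by norm_num) (ZMod 2))
  have hc := coc_lamp (K := ZMod 2) (G := Q) π a ha
  have hsupp : (coc (G := Q) π (slamp a : Wreath (Multiplicative (ZMod 60)) Q)).support.card = 1 := by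
    rw [hc, Finsupp.support_single _ one_ne_zero, Finset.card_singleton]
  have h := growth_cocycle S (SemidirectProduct.rightHom :
      Wreath (Multiplicative (ZMod 60)) Q →* Q) (coc (K := ZMod 2) π) (fun x y => coc_mul π x y) hQ
    (e := slamp a) (by rw [slamp, SemidirectProduct.rightHom_inl]) (by
      rw [hc]
      intro h0
      have := DFunLike.congr_fun h0 (1 : Q)
      rw [Finsupp.single_eq_same, Finsupp.zero_apply] at this
      exact one_ne_zero this) hS SemidirectProduct.rightHom_surjective n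
  rw [hsupp] at h
  have e : ((S : Set (Wreath (Multiplicative (ZMod 60)) Q)) ∪
      (S : Set (Wreath (Multiplicative (ZMod 60)) Q))⁻¹ ∪ {1}) ^ n = ((Bl S n : Finset _) : Set _) := by
    simp [Bl]
  rw [e, Set.ncard_coe_finset]
  refine le_trans (le_of_eq ?_) h
  norm_num

end Pool.Agent.Lib.MP_c23930_al.AQ
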