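import Pool.Agent.Lib.MP_c23930_al.AQ.WGen2

set_option autoImplicit false

namespace Pool.Agent.Lib.MP_c23930_al.AQ

open scoped Pointwise

/-- change of the lamps -/
def wf {A B Q : Type} [Group A] [Group B] [Group Q] (φ : A ≃ B) (hφ : φ 1 = 1)
    (x : Wreath A Q) : Wreath B Q :=
  ⟨⟨fun y => φ (x.left.1 y), x.left.2.subset (by
    intro y hy
    rw [Function.mem_mulSupport] at hy ⊢
    intro h
    exact hy (by rw [h, hφ]))⟩, x.right⟩

/-- the generating set: all lamps at `1`, and `T` -/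
noncomputable def WS (A : Type) {Q : Type} [Group A] [Group Q] [Fintype A] (T : Finset Q) :
    Finset (Wreath A Q) :=
  open Classical in
  Finset.univ.image (fun a : A => (SemidirectProduct.inl (ind {1} (Set.finite_singleton 1) a) :
    Wreath A Q)) ∪ T.image (fun t => (SemidirectProduct.inr t : Wreath A Q))

namespace WreathMap

/-- the lamp `a` at the point `1` -/
noncomputable def lp {A : Type} (Q : Type) [Group A] [Group Q] (a : A) : Wreath A Q :=
  SemidirectProduct.inl (ind {1} (Set.finite_singleton 1) a)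

theorem lp_mem {A Q : Type} [Group A] [Group Q] [Fintype A] (T : Finset Q) (a : A) :
    lp Q a ∈ WS A T := by
  classical
  exact Finset.mem_union_left _ (Finset.mem_image_of_mem _ (Finset.mem_univ a))

theorem inr_mem {A Q : Type} [Group A] [Group Q] [Fintype A] (T : Finset Q) {t : Q}
    (ht : t ∈ T) : (SemidirectProduct.inr t : Wreath A Q) ∈ WS A T := by
  classical
  exact Finset.mem_union_right _ (Finset.mem_image_of_mem _ ht)

theorem mem_cases {A Q : Type} [Group A] [Group Q] [Fintype A] (T : Finset Q) {s : Wreath A Q}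
    (hs : s ∈ WS A T) : (∃ a : A, s = lp Q a) ∨ ∃ t ∈ T, s = SemidirectProduct.inr t := by
  classical
  unfold WS at hs
  rcases Finset.mem_union.1 hs with h | h
  · obtain ⟨a, -, rfl⟩ := Finset.mem_image.1 h
    exact Or.inl ⟨a, rfl⟩
  · obtain ⟨t, ht, rfl⟩ := Finset.mem_image.1 h
    exact Or.inr ⟨t, ht, rfl⟩

theorem lp_mul {A Q : Type} [Group A] [Group Q] (a b : A) : lp Q a * lp Q b = lp Q (a * b) :=
  ((WGen.δ A Q).map_mul a b).symm

theorem lp_one {A Q : Type} [Group A] [Group Q] : lp Q (1 : A) = 1 := (WGen.δ A Q).map_one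

theorem lp_inv {A Q : Type} [Group A] [Group Q] (a : A) : (lp Q a)⁻¹ = lp Q a⁻¹ :=
  ((WGen.δ A Q).map_inv a).symm

variable {A B Q : Type} [Group A] [Group B] [Group Q] (φ : A ≃ B) (hφ : φ 1 = 1)

theorem wf_inr (x : Wreath A Q) (t : Q) :
    wf φ hφ (x * SemidirectProduct.inr t) = wf φ hφ x * SemidirectProduct.inr t := by
  apply SemidirectProduct.ext
  · apply Subtype.ext
    funext y
    rw [SemidirectProduct.mul_left, SemidirectProduct.left_inr, map_one, mul_one]
    show φ ((x * SemidirectProduct.inr t).left.1 y) = φ (x.left.1 y)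
    rw [SemidirectProduct.mul_left, SemidirectProduct.left_inr, map_one, mul_one]
  · rw [SemidirectProduct.mul_right, SemidirectProduct.right_inr]
    show (x * SemidirectProduct.inr t).right = x.right * t
    rw [SemidirectProduct.mul_right, SemidirectProduct.right_inr]

open Classical in
theorem lp_left (x : Wreath A Q) (a : A) (y : Q) :
    (x * lp Q a).left.1 y = x.left.1 y * if y = x.right then a else 1 := by
  have h : (x * lp Q a).left.1 y = x.left.1 y *
      (if x.right⁻¹ * y ∈ ({1} : Set Q) then a else 1) := by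
    unfold lp
    rw [SemidirectProduct.mul_left, SemidirectProduct.left_inl]
    rfl
  rw [h]
  congr 1
  by_cases hy : y = x.right
  · rw [if_pos hy, if_pos (by rw [hy]; simp)]
  · rw [if_neg hy, if_neg]
    intro h'
    rw [Set.mem_singleton_iff, inv_mul_eq_one] at h'
    exact hy h'.symm

theorem lp_right (x : Wreath A Q) (a : A) : (x * lp Q a).right = x.right := by
  unfold lp
  rw [SemidirectProduct.mul_right, SemidirectProduct.right_inl, mul_one]

theorem wf_lp (x : Wreath A Q) (a : A) :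
    wf φ hφ (x * lp Q a) =
      wf φ hφ x * lp Q ((φ (x.left.1 x.right))⁻¹ * φ (x.left.1 x.right * a)) := by
  classical
  apply SemidirectProduct.ext
  · apply Subtype.ext
    funext y
    rw [lp_left]
    show φ ((x * lp Q a).left.1 y) = φ (x.left.1 y) * if y = x.right then _ else 1
    rw [lp_left]
    by_cases hy : y = x.right
    · rw [if_pos hy, if_pos hy, hy]
      group
    · rw [if_neg hy, if_neg hy, mul_one, mul_one]
  · rw [lp_right]
    show (x * lp Q a).right = x.right
    rw [lp_right]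

theorem wf_step [Fintype A] [Fintype B] (T : Finset Q) (x s : Wreath A Q)
    (hs : s ∈ ((WS A T : Set (Wreath A Q)) ∪ (WS A T : Set (Wreath A Q))⁻¹ ∪ {1})) :
    (wf φ hφ x)⁻¹ * wf φ hφ (x * s) ∈
      ((WS B T : Set (Wreath B Q)) ∪ (WS B T : Set (Wreath B Q))⁻¹ ∪ {1}) := by
  have hlp : ∀ a : A, (wf φ hφ x)⁻¹ * wf φ hφ (x * lp Q a) ∈
      ((WS B T : Set (Wreath B Q)) ∪ (WS B T : Set (Wreath B Q))⁻¹ ∪ {1}) := by
    intro a
    rw [wf_lp, inv_mul_cancel_left]
    exact Or.inl (Or.inl (lp_mem T _))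
  rcases hs with (hs | hs) | hs
  · rcases mem_cases T hs with ⟨a, rfl⟩ | ⟨t, ht, rfl⟩
    · exact hlp a
    · rw [wf_inr, inv_mul_cancel_left]
      exact Or.inl (Or.inl (inr_mem T ht))
  · rcases mem_cases T hs with ⟨a, h⟩ | ⟨t, ht, h⟩
    · rw [inv_eq_iff_eq_inv, lp_inv] at h
      rw [h]
      exact hlp _
    · rw [inv_eq_iff_eq_inv, ← map_inv] at h
      rw [h, wf_inr, inv_mul_cancel_left, map_inv]
      refine Or.inl (Or.inr ?_)
      rw [Set.mem_inv, inv_inv]
      exact inr_mem T ht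
  · rw [Set.mem_singleton_iff] at hs
    rw [hs, mul_one, inv_mul_cancel]
    exact Or.inr rfl

theorem wf_ball_mp [Fintype A] [Fintype B] (T : Finset Q) (n : ℕ) (g g' : Wreath A Q)
    (h : g⁻¹ * g' ∈ ((WS A T : Set (Wreath A Q)) ∪ (WS A T : Set (Wreath A Q))⁻¹ ∪ {1}) ^ n) :
    (wf φ hφ g)⁻¹ * wf φ hφ g' ∈
      ((WS B T : Set (Wreath B Q)) ∪ (WS B T : Set (Wreath B Q))⁻¹ ∪ {1}) ^ n := by
  induction n generalizing g' with
  | zero =>
    rw [pow_zero, Set.mem_one, inv_mul_eq_one] at h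
    rw [h, inv_mul_cancel, pow_zero]
    exact Set.one_mem_one
  | succ n ih =>
    rw [pow_succ] at h ⊢
    obtain ⟨a, ha, s, hs, he⟩ := Set.mem_mul.1 h
    have hg' : g' = g * a * s := by
      rw [mul_assoc, he]; group
    have h1 := ih (g * a) (by rwa [inv_mul_cancel_left])
    have h2 := wf_step φ hφ T (g * a) s hs
    rw [hg']
    exact Set.mem_mul.2 ⟨_, h1, _, h2, by group⟩

theorem wf_symm (x : Wreath A Q) (hφ' : φ.symm 1 = 1) : wf φ.symm hφ' (wf φ hφ x) = x := by
  apply SemidirectProduct.ext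
  · apply Subtype.ext
    funext y
    exact φ.symm_apply_apply _
  · rfl

theorem wf_symm' (x : Wreath B Q) (hφ' : φ.symm 1 = 1) : wf φ hφ (wf φ.symm hφ' x) = x := by
  apply SemidirectProduct.ext
  · apply Subtype.ext
    funext y
    exact φ.apply_symm_apply _
  · rfl

end WreathMap

theorem closure_WS (A Q : Type) [Group A] [Group Q] [Fintype A] (T : Finset Q)
    (hT : Subgroup.closure (T : Set Q) = ⊤) :
    Subgroup.closure (WS A T : Set (Wreath A Q)) = ⊤ := by
  have h1 : ∀ q : Q, (SemidirectProduct.inr q : Wreath A Q) ∈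
      Subgroup.closure (WS A T : Set (Wreath A Q)) := by
    have h2 : Subgroup.closure (T : Set Q) ≤
        (Subgroup.closure (WS A T : Set (Wreath A Q))).comap
          (SemidirectProduct.inr (φ := translateHom A Q)) := by
      rw [Subgroup.closure_le]
      intro t ht
      exact Subgroup.subset_closure (WreathMap.inr_mem T ht)
    rw [hT] at h2
    intro q
    exact h2 (Subgroup.mem_top q)
  have h2 : ∀ a : A, WGen.δ A Q a ∈ Subgroup.closure (WS A T : Set (Wreath A Q)) :=
    fun a => Subgroup.subset_closure (WreathMap.lp_mem T a)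
  rw [eq_top_iff]
  intro x _
  rw [← SemidirectProduct.inl_left_mul_inr_right x]
  exact mul_mem (WGen.inl_mem _ h1 h2 _) (h1 _)

theorem wf_ball {A B Q : Type} [Group A] [Group B] [Group Q] [Fintype A] [Fintype B]
    (φ : A ≃ B) (hφ : φ 1 = 1) (T : Finset Q) (n : ℕ) (g g' : Wreath A Q) :
    g⁻¹ * g' ∈ ((WS A T : Set (Wreath A Q)) ∪ (WS A T : Set (Wreath A Q))⁻¹ ∪ {1}) ^ n ↔
    (wf φ hφ g)⁻¹ * wf φ hφ g' ∈
      ((WS B T : Set (Wreath B Q)) ∪ (WS B T : Set (Wreath B Q))⁻¹ ∪ {1}) ^ n := by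
  have hφ' : φ.symm 1 = 1 := by rw [Equiv.symm_apply_eq, hφ]
  constructor
  · exact WreathMap.wf_ball_mp φ hφ T n g g'
  · intro h
    have := WreathMap.wf_ball_mp φ.symm hφ' T n _ _ h
    rwa [WreathMap.wf_symm, WreathMap.wf_symm] at this

theorem wf_bij {A B Q : Type} [Group A] [Group B] [Group Q] (φ : A ≃ B) (hφ : φ 1 = 1) :
    Function.Bijective (wf φ hφ : Wreath A Q → Wreath B Q) := by
  have hφ' : φ.symm 1 = 1 := by rw [Equiv.symm_apply_eq, hφ]
  exact Function.bijective_iff_has_inverse.2 ⟨wf φ.symm hφ', fun x => WreathMap.wf_symm φ hφ x hφ',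
    fun x => WreathMap.wf_symm' φ hφ x hφ'⟩

theorem wf_card {A B Q : Type} [Group A] [Group B] [Group Q] [Fintype A] [Fintype B]
    (φ : A ≃ B) (hφ : φ 1 = 1) (T : Finset Q) (n : ℕ) :
    Set.ncard (((WS A T : Set (Wreath A Q)) ∪ (WS A T : Set (Wreath A Q))⁻¹ ∪ {1}) ^ n) =
    Set.ncard (((WS B T : Set (Wreath B Q)) ∪ (WS B T : Set (Wreath B Q))⁻¹ ∪ {1}) ^ n) := by
  have h1 : wf φ hφ (1 : Wreath A Q) = 1 := by
    apply SemidirectProduct.ext
    · apply Subtype.ext
      funext y
      exact hφ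
    · rfl
  have h2 : (wf φ hφ : Wreath A Q → Wreath B Q) ''
      (((WS A T : Set (Wreath A Q)) ∪ (WS A T : Set (Wreath A Q))⁻¹ ∪ {1}) ^ n) =
      ((WS B T : Set (Wreath B Q)) ∪ (WS B T : Set (Wreath B Q))⁻¹ ∪ {1}) ^ n := by
    ext y
    constructor
    · rintro ⟨x, hx, rfl⟩
      have := (wf_ball φ hφ T n 1 x).1 (by rwa [inv_one, one_mul])
      rwa [h1, inv_one, one_mul] at this
    · intro hy
      obtain ⟨x, rfl⟩ := (wf_bij (Q := Q) φ hφ).2 y
      refine ⟨x, ?_, rfl⟩
      have := (wf_ball φ hφ T n 1 x).2 (by rwa [h1, inv_one, one_mul])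
      rwa [inv_one, one_mul] at this
  rw [← h2, Set.ncard_image_of_injective _ (wf_bij φ hφ).1]

end Pool.Agent.Lib.MP_c23930_al.AQ
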