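import Pool.Agent.Lib.MP_c23930_al.AQ.WMain
import Pool.Agent.Lib.MP_c23930_al.AQ.WreathMap
import Pool.Agent.Lib.MP_c23930_al.AQ.Perfect
import Pool.Agent.Lib.MP_c23930_al.AQ.UegA
import Pool.Agent.Lib.MP_c23930_al.AQ.Groups

/-!
# Uniform exponential growth is not a quasi-isometry invariant

`G = C₆₀ wr Q` and `H = A₅ wr Q` (restricted, regular), where `Q` is the alternating full group of a
Toeplitz sequence. The groups have the same Cayley graphs, `G` has uniform exponential growth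
(because `Q` is sofic), `H` has not (slow generating sets of `Q`).
-/

set_option autoImplicit false
open scoped Pointwise

namespace Pool.Agent.Lib.MP_c23930_al.AQ

theorem final_aq :
    ¬ (∀ (G H : Type) [Group G] [Group H],
      (∃ S : Finset G, Subgroup.closure (S : Set G) = ⊤ ∧
        ∃ c : ℝ, 1 < c ∧ ∀ n : ℕ,
          c ^ n ≤ (Set.ncard (((S : Set G) ∪ (S : Set G)⁻¹ ∪ {1}) ^ n) : ℝ)) →
      (∃ T : Finset H, Subgroup.closure (T : Set H) = ⊤ ∧
        ∃ c : ℝ, 1 < c ∧ ∀ n : ℕ,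
          c ^ n ≤ (Set.ncard (((T : Set H) ∪ (T : Set H)⁻¹ ∪ {1}) ^ n) : ℝ)) →
      (∃ (S : Finset G) (T : Finset H),
        Subgroup.closure (S : Set G) = ⊤ ∧ Subgroup.closure (T : Set H) = ⊤ ∧
        ∃ (f : G → H) (K C : ℕ),
          (∀ g g' : G, ∀ n : ℕ,
            g⁻¹ * g' ∈ ((S : Set G) ∪ (S : Set G)⁻¹ ∪ {1}) ^ n →
            (f g)⁻¹ * f g' ∈ ((T : Set H) ∪ (T : Set H)⁻¹ ∪ {1}) ^ (K * n + C)) ∧
          (∀ g g' : G, ∀ n : ℕ,
            (f g)⁻¹ * f g' ∈ ((T : Set H) ∪ (T : Set H)⁻¹ ∪ {1}) ^ n →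
            g⁻¹ * g' ∈ ((S : Set G) ∪ (S : Set G)⁻¹ ∪ {1}) ^ (K * n + C)) ∧
          (∀ h : H, ∃ g : G,
            (f g)⁻¹ * h ∈ ((T : Set H) ∪ (T : Set H)⁻¹ ∪ {1}) ^ C)) →
      (∃ c : ℝ, 1 < c ∧ ∀ S : Finset G, Subgroup.closure (S : Set G) = ⊤ →
        ∀ n : ℕ, c ^ n ≤ (Set.ncard (((S : Set G) ∪ (S : Set G)⁻¹ ∪ {1}) ^ n) : ℝ)) →
      (∃ c : ℝ, 1 < c ∧ ∀ T : Finset H, Subgroup.closure (T : Set H) = ⊤ →
        ∀ n : ℕ, c ^ n ≤ (Set.ncard (((T : Set H) ∪ (T : Set H)⁻¹ ∪ {1}) ^ n) : ℝ))) := by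
  intro hmain
  obtain ⟨Q, hQg, hinf, hsof, hicc, hfr⟩ := main_Q
  have hcard : Fintype.card (Multiplicative (ZMod 60)) = Fintype.card (alternatingGroup (Fin 5)) := by
    have h1 : Fintype.card (Multiplicative (ZMod 60)) = 60 := by
      rw [Fintype.card_multiplicative, ZMod.card]
    have h2 := two_mul_card_alternatingGroup (α := Fin 5)
    rw [Fintype.card_perm, Fintype.card_fin] at h2
    have h3 : Nat.factorial 5 = 120 := rfl
    rw [h3] at h2
    rw [h1]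
    have h4 : 2 * Fintype.card (alternatingGroup (Fin 5)) = 120 := by
      simpa [Nat.card_eq_fintype_card] using h2
    omega
  let e := Fintype.equivOfCardEq hcard
  let φ : Multiplicative (ZMod 60) ≃ alternatingGroup (Fin 5) := e.trans (Equiv.swap (e 1) 1)
  have hφ : φ 1 = 1 := by simp [φ]
  obtain ⟨F0⟩ := hfr 0
  have : Finite (XX 0) := inferInstance
  obtain ⟨T, hT⟩ := fg_of_frame Q (XX 0) F0
  have hA := ueg_A Q hsof
  have hWA := closure_WS (Multiplicative (ZMod 60)) Q T hT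
  have hWB := closure_WS (alternatingGroup (Fin 5)) Q T hT
  have hc1 : (1 : ℝ) < 1 + 1 / 64 := by norm_num
  obtain ⟨c, hc, hB⟩ := hmain (Wreath (Multiplicative (ZMod 60)) Q)
    (Wreath (alternatingGroup (Fin 5)) Q)
    ⟨WS _ T, hWA, _, hc1, fun n => hA _ hWA n⟩
    ⟨WS _ T, hWB, _, hc1, fun n => by
      rw [← wf_card φ hφ T n]
      exact hA _ hWA n⟩
    ⟨WS _ T, WS _ T, hWA, hWB, wf φ hφ, 1, 0,
      fun g g' n h => by
        rw [one_mul, add_zero]
        exact (wf_ball φ hφ T n g g').1 h,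
      fun g g' n h => by
        rw [one_mul, add_zero]
        exact (wf_ball φ hφ T n g g').2 h,
      fun h => by
        obtain ⟨g, hg⟩ := (wf_bij φ hφ).2 h
        exact ⟨g, by rw [hg, inv_mul_cancel, pow_zero]; exact rfl⟩⟩
    ⟨_, hc1, fun S hS n => hA S hS n⟩
  obtain ⟨S, hS, n, hn⟩ := not_ueg_wreath Q hicc hfr (alternatingGroup (Fin 5)) perfect_A5 c hc
  exact absurd (hB S hS n) (not_le.2 hn)

end Pool.Agent.Lib.MP_c23930_al.AQ
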