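import Pool.Agent.Lib.MP_c23930_al.AQ.Clop
import Pool.Agent.Lib.MP_c23930_al.AQ.Is3

set_option autoImplicit false

namespace Pool.Agent.Lib.MP_c23930_al.AQ

variable {R : ℕ → ℕ} {θ : ℤ → Bool} {X : Type} [Fintype X] [DecidableEq X]

theorem sign_lmul (h4 : 4 ≤ Fintype.card X) (π : Equiv.Perm X) :
    haveI : Nonempty X := Fintype.card_pos_iff.1 (by omega)
    Equiv.Perm.sign (Equiv.equivCongr (Equiv.refl (ZMod (Fintype.card X))) π :
      Equiv.Perm (Lst X)) = 1 := by
  have hne : Nonempty X := Fintype.card_pos_iff.1 (by omega)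
  have hc : Fintype.card (Lst X) = (Fintype.card X).factorial := by
    have h1 : Nonempty (ZMod (Fintype.card X) ≃ X) := by
      rw [← Fintype.card_eq, ZMod.card]
    rw [Fintype.card_equiv h1.some, ZMod.card]
  induction π using Equiv.Perm.swap_induction_on with
  | one =>
    have : (Equiv.equivCongr (Equiv.refl (ZMod (Fintype.card X))) (1 : Equiv.Perm X) :
      Equiv.Perm (Lst X)) = 1 := by
      refine Equiv.ext fun σ => Equiv.ext fun i => ?_
      rfl
    rw [this, Equiv.Perm.sign_one]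
  | swap_mul f x y hxy ih =>
    have h1 : (Equiv.equivCongr (Equiv.refl (ZMod (Fintype.card X))) (Equiv.swap x y * f) :
        Equiv.Perm (Lst X)) =
      (Equiv.equivCongr (Equiv.refl (ZMod (Fintype.card X))) (Equiv.swap x y) :
        Equiv.Perm (Lst X)) * (Equiv.equivCongr (Equiv.refl (ZMod (Fintype.card X))) f :
        Equiv.Perm (Lst X)) := by
      refine Equiv.ext fun σ => Equiv.ext fun i => ?_
      rfl
    rw [h1, Equiv.Perm.sign_mul, ih, mul_one]
    set τ : Equiv.Perm (Lst X) :=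
      Equiv.equivCongr (Equiv.refl (ZMod (Fintype.card X))) (Equiv.swap x y) with hτ
    have hτapp : ∀ (σ : Lst X) (i : ZMod (Fintype.card X)), (τ σ) i = Equiv.swap x y (σ i) :=
      fun _ _ => rfl
    have hsq : τ ^ 2 = 1 := by
      refine Equiv.ext fun σ => Equiv.ext fun i => ?_
      rw [pow_two, Equiv.Perm.mul_apply, hτapp, hτapp, Equiv.swap_apply_self]
      rfl
    have hfix : Fintype.card (Function.fixedPoints τ) = 0 := by
      rw [Fintype.card_eq_zero_iff]
      constructor
      rintro ⟨σ, hσ⟩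
      have h2 : τ σ = σ := hσ
      have h3 := DFunLike.congr_fun h2 (σ.symm x)
      rw [hτapp, Equiv.apply_symm_apply, Equiv.swap_apply_left] at h3
      exact hxy h3.symm
    have h2 := Equiv.Perm.sign_of_cycleType_eq_replicate (σ := τ) (n := 2) (by norm_num)
      (Equiv.Perm.cycleType_of_pow_prime_eq_one hsq)
    rw [h2, if_neg (by decide), hfix, hc, Nat.sub_zero]
    have h5 : 4 ∣ (Fintype.card X).factorial := Nat.dvd_factorial (by norm_num) h4
    obtain ⟨t, ht⟩ := h5
    have h6 : (Fintype.card X).factorial / 2 = 2 * t := by omega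
    rw [h6, pow_mul]
    simp

namespace LmMem

/-- permutations of the lists act on the lists with an integer -/
def E (X : Type) [Fintype X] : Equiv.Perm (Lst X) →* Equiv.Perm (LZ X) where
  toFun τ := Equiv.prodCongr τ (Equiv.refl ℤ)
  map_one' := rfl
  map_mul' _ _ := rfl

end LmMem

theorem lm_mem_AW (hT : Toep R θ) (h4 : 4 ≤ Fintype.card X) (n : ℕ) (β : LZ X ≃ ℤ)
    (hβ : ∀ σ k, β (σ, k) = (R n : ℤ) * k + β (σ, 0)) (π : Equiv.Perm X) :
    lm X π ∈ AW θ β := by
  classical
  have hne : Nonempty X := Fintype.card_pos_iff.1 (by omega)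
  have hinjβ : ∀ σ σ' : Lst X, ∀ k l : ℤ, β (σ, k) = β (σ', l) → σ = σ' ∧ k = l := by
    intro σ σ' k l e
    have := β.injective e
    exact ⟨congrArg Prod.fst this, congrArg Prod.snd this⟩
  -- three cycles
  have h3 : ∀ τ : Equiv.Perm (Lst X), τ.IsThreeCycle → LmMem.E X τ ∈ AW θ β := by
    intro τ hτ
    obtain ⟨σ₁, hσ₁⟩ : ∃ σ₁, τ σ₁ ≠ σ₁ := by
      by_contra hcon
      push Not at hcon
      have h1 : τ = 1 := Equiv.ext hcon
      have h2 := hτ.orderOf
      rw [h1, orderOf_one] at h2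
      norm_num at h2
    have hcyc := hτ.isCycle
    have hord : τ ^ 3 = 1 := by rw [← hτ.orderOf, pow_orderOf_eq_one]
    have h3app : τ (τ (τ σ₁)) = σ₁ := by
      have := DFunLike.congr_fun hord σ₁
      rw [pow_succ, pow_two] at this
      exact this
    set σ₂ := τ σ₁ with hσ₂
    set σ₃ := τ σ₂ with hσ₃
    have h12 : σ₁ ≠ σ₂ := fun e => hσ₁ e.symm
    have h23 : σ₂ ≠ σ₃ := fun e => h12 (τ.injective e)
    have h31 : σ₃ ≠ σ₁ := fun e => h12 (h3app.symm.trans (congrArg τ e))
    have hfixτ : ∀ σ, σ ≠ σ₁ → σ ≠ σ₂ → σ ≠ σ₃ → τ σ = σ := by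
      intro σ n1 n2 n3
      by_contra hcon
      have hcard := hτ.card_support
      have hsub : ({σ, σ₁, σ₂, σ₃} : Finset (Lst X)) ⊆ τ.support := by
        intro s hs
        simp only [Finset.mem_insert, Finset.mem_singleton] at hs
        rw [Equiv.Perm.mem_support]
        rcases hs with rfl | rfl | rfl | rfl
        · exact hcon
        · exact hσ₁
        · rw [← hσ₃]; exact h23.symm
        · rw [h3app]; exact h31.symm
      have h4c : ({σ, σ₁, σ₂, σ₃} : Finset (Lst X)).card = 4 := by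
        rw [Finset.card_insert_of_notMem, Finset.card_insert_of_notMem,
          Finset.card_insert_of_notMem, Finset.card_singleton]
        · simpa using h23
        · simp only [Finset.mem_insert, Finset.mem_singleton, not_or]
          exact ⟨h12, h31.symm⟩
        · simp only [Finset.mem_insert, Finset.mem_singleton, not_or]
          exact ⟨n1, n2, n3⟩
      have := Finset.card_le_card hsub
      rw [hcard, h4c] at this
      omega
    change β.permCongr (LmMem.E X τ) ∈ AA θ
    refine Subgroup.subset_closure ⟨{x | ∃ k ∈ (Set.univ : Set ℤ), x = (R n : ℤ) * k + β (σ₁, 0)},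
      β (σ₂, 0) - β (σ₁, 0), β (σ₃, 0) - β (σ₁, 0), clop_ext hT n _ Clop.univ, ?_, ?_, ?_, ?_⟩
    · intro e
      exact h12 (hinjβ _ _ _ _ (sub_eq_zero.1 e)).1.symm
    · intro e
      exact h31 (hinjβ _ _ _ _ (sub_eq_zero.1 e)).1
    · intro e
      exact h23 (hinjβ _ _ _ _ (by linarith)).1
    · have hbase : Is3 (LmMem.E X τ) (Set.univ : Set ℤ) (fun k => ((σ₁, k) : LZ X))
          (fun k => ((σ₂, k) : LZ X)) (fun k => ((σ₃, k) : LZ X)) := by
        refine ⟨fun k _ => ?_, fun k _ => ?_, fun k _ => ?_, ?_⟩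
        · rfl
        · rfl
        · exact Prod.ext h3app rfl
        · rintro ⟨σ, k⟩ hx
          refine Prod.ext (hfixτ σ ?_ ?_ ?_) rfl
          · intro e; exact (hx k trivial).1 (by rw [e])
          · intro e; exact (hx k trivial).2.1 (by rw [e])
          · intro e; exact (hx k trivial).2.2 (by rw [e])
      have h5 := (Is3.permCongr β).2 hbase
      have himg : (fun k : ℤ => β (σ₁, k)) '' (Set.univ : Set ℤ) =
          {x | ∃ k ∈ (Set.univ : Set ℤ), x = (R n : ℤ) * k + β (σ₁, 0)} := by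
        ext x
        constructor
        · rintro ⟨k, hk, rfl⟩
          exact ⟨k, hk, hβ σ₁ k⟩
        · rintro ⟨k, hk, rfl⟩
          exact ⟨k, hk, hβ σ₁ k⟩
      refine (Is3.reindex (fun k : ℤ => β (σ₁, k)) Set.univ himg).2 (h5.congr ?_ ?_ ?_)
      · intro k _; rfl
      · intro k _
        rw [hβ σ₂ k, hβ σ₁ k]; ring
      · intro k _
        rw [hβ σ₃ k, hβ σ₁ k]; ring
  have h5 : (Subgroup.closure {τ : Equiv.Perm (Lst X) | τ.IsThreeCycle}) ≤
      (AW θ β).comap (LmMem.E X) := by
    rw [Subgroup.closure_le]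
    exact fun τ hτ => h3 τ hτ
  rw [Equiv.Perm.closure_three_cycles_eq_alternating] at h5
  have h6 := h5 (show (Equiv.equivCongr (Equiv.refl (ZMod (Fintype.card X))) π :
    Equiv.Perm (Lst X)) ∈ alternatingGroup (Lst X) from
    Equiv.Perm.mem_alternatingGroup.2 (sign_lmul h4 π))
  have h7 : lm X π = LmMem.E X (Equiv.equivCongr (Equiv.refl (ZMod (Fintype.card X))) π) := by
    refine Equiv.ext fun w => Prod.ext (Equiv.ext fun i => ?_) ?_
    · rfl
    · rfl
  rw [h7]
  exact h6

end Pool.Agent.Lib.MP_c23930_al.AQ
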