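import Pool.Agent.Lib.MP_c23930_al.AQ.HdMem
import Pool.Agent.Lib.MP_c23930_al.AQ.LmMem
import Pool.Agent.Lib.MP_c23930_al.AQ.AWle
import Pool.Agent.Lib.MP_c23930_al.AQ.Cylinders

set_option autoImplicit false

namespace Pool.Agent.Lib.MP_c23930_al.AQ

variable {R : ℕ → ℕ} {θ : ℤ → Bool} {X : Type} [Fintype X] [DecidableEq X]

theorem GamW_eq (hT : Toep R θ) (h4 : 4 ≤ Fintype.card X) (n : ℕ) (β : LZ X ≃ ℤ)
    (hβ : ∀ σ k, β (σ, k) = (R n : ℤ) * k + β (σ, 0)) :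
    GamW X (fun k => θ (R n * k)) = AW θ β := by
  apply le_antisymm
  · unfold GamW
    rw [Subgroup.closure_le]
    rintro π (⟨τ, rfl⟩ | ⟨x, y, i, hxy, hπ⟩)
    · exact lm_mem_AW hT h4 n β hβ τ
    · exact hd_mem_AW hT (by omega) n β hβ hxy i π hπ
  · refine AW_le hT (by omega) n β hβ _ ?_
    intro σ₀ K hK π hπ
    refine lamp_mem (by omega) (fun k => θ (R n * k)) _ ?_ σ₀ K hK π hπ
    intro x y i hxy π' hπ'
    exact Subgroup.subset_closure (Or.inr ⟨x, y, i, hxy, hπ'⟩)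

end Pool.Agent.Lib.MP_c23930_al.AQ
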