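import Pool.Agent.Lib.MP_c23930_al.AQ.Clop
import Pool.Agent.Lib.MP_c23930_al.AQ.Is3

set_option autoImplicit false

namespace Pool.Agent.Lib.MP_c23930_al.AQ

variable {X : Type} [Fintype X] [DecidableEq X]

theorem good_rot {θ' : ℤ → Bool} {Γ : Subgroup (Equiv.Perm (LZ X))} {p q s : LZ X}
    (h : Good θ' Γ p q s) : Good θ' Γ q s p := by
  obtain ⟨D, hD⟩ := h
  exact ⟨D, fun K hK hs π hπ => hD K hK hs π hπ.rot.rot⟩

theorem good_inv {θ' : ℤ → Bool} {Γ : Subgroup (Equiv.Perm (LZ X))} {p q s : LZ X}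
    (h : Good θ' Γ p q s) : Good θ' Γ s q p := by
  obtain ⟨D, hD⟩ := h
  refine ⟨D, fun K hK hs π hπ => ?_⟩
  have := hD K hK hs π⁻¹ hπ.inv
  exact (Subgroup.inv_mem_iff Γ).1 this

theorem good_step {θ' : ℤ → Bool} {Γ : Subgroup (Equiv.Perm (LZ X))}
    (hΓ : ∀ (σ₀ : Lst X) (K : Set ℤ), Clop θ' K → ∀ π : Equiv.Perm (LZ X),
      Lamp {w | w.1 = σ₀ ∧ w.2 ∈ K} π → π ∈ Γ) (p : LZ X) :
    Good θ' Γ p (mr X p) (ms X p) := by
  refine ⟨0, fun K hK _ π hπ => ?_⟩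
  refine hΓ p.1 {k | k + (-p.2) ∈ K} (hK.shift (-p.2)) π ?_
  have himg : (shf p) '' K = {w : LZ X | w.1 = p.1 ∧ w.2 ∈ {k | k + (-p.2) ∈ K}} := by
    ext w
    constructor
    · rintro ⟨k, hk, rfl⟩
      refine ⟨rfl, ?_⟩
      simpa [shf] using hk
    · rintro ⟨h1, h2⟩
      refine ⟨w.2 + (-p.2), h2, ?_⟩
      refine Prod.ext h1.symm ?_
      simp [shf]
  refine (Is3.reindex (shf p) K himg).2 ?_
  refine hπ.congr (fun _ _ => rfl) ?_ ?_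
  · intro k _
    refine Prod.ext rfl ?_
    simp only [shf, mr, Equiv.coe_fn_mk]
    ring
  · intro k _
    rfl

namespace GoodAux

/-- separation of translates -/
theorem shf_ne {K : Set ℤ} {D : ℕ} (hs : Sep D K) {p q : LZ X} (h : |p.2 - q.2| ≤ D) (hpq : p ≠ q) :
    ∀ k ∈ K, ∀ l ∈ K, shf p k ≠ shf q l := by
  intro k hk l hl e
  have h1 : (shf p k).1 = (shf q l).1 := congrArg Prod.fst e
  have h2 : (shf p k).2 = (shf q l).2 := congrArg Prod.snd e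
  change p.1 = q.1 at h1
  change p.2 + k = q.2 + l at h2
  by_cases hkl : k = l
  · subst hkl
    exact hpq (Prod.ext h1 (by linarith))
  · have h3 := hs k hk l hl hkl
    have h4 : |k - l| = |p.2 - q.2| := by
      rw [← abs_neg (p.2 - q.2)]
      congr 1
      linarith
    rw [h4] at h3
    exact absurd h (not_le.2 h3)

theorem inj3 {K : Set ℤ} {D : ℕ} (hs : Sep D K) {p q s : LZ X} (h1 : |p.2 - q.2| ≤ D)
    (h2 : |q.2 - s.2| ≤ D) (h3 : |s.2 - p.2| ≤ D) (hpq : p ≠ q) (hqs : q ≠ s) (hps : p ≠ s) :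
    Inj3 K (shf p) (shf q) (shf s) where
  ff u _ v _ e := by simpa [shf] using e
  gg u _ v _ e := by simpa [shf] using e
  hh u _ v _ e := by simpa [shf] using e
  fg := shf_ne hs h1 hpq
  gh := shf_ne hs h2 hqs
  hf := shf_ne hs h3 hps.symm

end GoodAux

open GoodAux

theorem good_trans {θ' : ℤ → Bool} {Γ : Subgroup (Equiv.Perm (LZ X))} {p q s t u : LZ X}
    (h₁ : Good θ' Γ p q s) (h₂ : Good θ' Γ q t u) (hpq : p ≠ q) (hqs : q ≠ s) (hps : p ≠ s)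
    (hqt : q ≠ t) (htu : t ≠ u) (hqu : q ≠ u) (hpt : p ≠ t) : Good θ' Γ p q t := by
  by_cases hst : s = t
  · subst hst; exact h₁
  by_cases hup : u = p
  · subst hup; exact good_rot (good_rot h₂)
  obtain ⟨D₁, hD₁⟩ := h₁
  obtain ⟨D₂, hD₂⟩ := h₂
  obtain ⟨M, hM⟩ : ∃ M : ℕ, |p.2| ≤ M ∧ |q.2| ≤ M ∧ |s.2| ≤ M ∧ |t.2| ≤ M ∧ |u.2| ≤ M := by
    refine ⟨(|p.2| + |q.2| + |s.2| + |t.2| + |u.2|).toNat, ?_⟩
    have e : (((|p.2| + |q.2| + |s.2| + |t.2| + |u.2|).toNat : ℕ) : ℤ) =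
      |p.2| + |q.2| + |s.2| + |t.2| + |u.2| := Int.toNat_of_nonneg (by positivity)
    rw [e]
    have := abs_nonneg p.2
    have := abs_nonneg q.2
    have := abs_nonneg s.2
    have := abs_nonneg t.2
    have := abs_nonneg u.2
    refine ⟨?_, ?_, ?_, ?_, ?_⟩ <;> linarith
  obtain ⟨mp, mq, ms', mt, mu⟩ := hM
  refine ⟨D₁ + D₂ + 2 * M, fun K hK hs π hπ => ?_⟩
  have hs1 : Sep D₁ K := fun k hk l hl e => lt_of_le_of_lt (by push_cast; linarith) (hs k hk l hl e)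
  have hs2 : Sep D₂ K := fun k hk l hl e => lt_of_le_of_lt (by push_cast; linarith) (hs k hk l hl e)
  have bd : ∀ x y : ℤ, |x| ≤ M → |y| ≤ M → |x - y| ≤ ((D₁ + D₂ + 2 * M : ℕ) : ℤ) := by
    intro x y hx hy
    have := abs_sub x y
    push_cast
    have h1 : (0 : ℤ) ≤ D₁ := Int.natCast_nonneg _
    have h2 : (0 : ℤ) ≤ D₂ := Int.natCast_nonneg _
    linarith
  obtain ⟨π₁, hπ₁⟩ := (inj3 hs (bd _ _ mp mq) (bd _ _ mq ms') (bd _ _ ms' mp) hpq hqs hps).ex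
  obtain ⟨π₂, hπ₂⟩ := (inj3 hs (bd _ _ mq mt) (bd _ _ mt mu) (bd _ _ mu mq) hqt htu hqu).ex
  have g1 := hD₁ K hK hs1 π₁ hπ₁
  have g2 := hD₂ K hK hs2 π₂ hπ₂
  -- separations needed
  have n1 : ∀ k ∈ K, ∀ l ∈ K, shf p k ≠ shf t l := shf_ne hs (bd _ _ mp mt) hpt
  have n2 : ∀ k ∈ K, ∀ l ∈ K, shf p k ≠ shf u l := shf_ne hs (bd _ _ mp mu) (Ne.symm hup)
  have n3 : ∀ k ∈ K, ∀ l ∈ K, shf s k ≠ shf t l := shf_ne hs (bd _ _ ms' mt) hst
  have n4 : ∀ k ∈ K, ∀ l ∈ K, shf p k ≠ shf q l := shf_ne hs (bd _ _ mp mq) hpq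
  have n5 : ∀ k ∈ K, ∀ l ∈ K, shf q k ≠ shf s l := shf_ne hs (bd _ _ mq ms') hqs
  have n6 : ∀ k ∈ K, ∀ l ∈ K, shf p k ≠ shf s l := shf_ne hs (bd _ _ mp ms') hps
  have n7 : ∀ k ∈ K, ∀ l ∈ K, shf q k ≠ shf t l := shf_ne hs (bd _ _ mq mt) hqt
  have n8 : ∀ k ∈ K, ∀ l ∈ K, shf t k ≠ shf u l := shf_ne hs (bd _ _ mt mu) htu
  have n9 : ∀ k ∈ K, ∀ l ∈ K, shf q k ≠ shf u l := shf_ne hs (bd _ _ mq mu) hqu
  by_cases hus : u = s
  · subst hus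
    -- 4 points
    have e : π = π₁ * π₂ := by
      refine hπ.unique ?_
      have fp2 : ∀ k ∈ K, π₂ (shf p k) = shf p k := fun k hk =>
        hπ₂.fix _ (fun l hl => ⟨n4 k hk l hl, n1 k hk l hl, n2 k hk l hl⟩)
      have ft1 : ∀ k ∈ K, π₁ (shf t k) = shf t k := fun k hk =>
        hπ₁.fix _ (fun l hl => ⟨(n1 l hl k hk).symm, (n7 l hl k hk).symm, (n3 l hl k hk).symm⟩)
      refine ⟨?_, ?_, ?_, ?_⟩
      · intro k hk
        rw [Equiv.Perm.mul_apply, fp2 k hk, hπ₁.fg k hk]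
      · intro k hk
        rw [Equiv.Perm.mul_apply, hπ₂.fg k hk, ft1 k hk]
      · intro k hk
        rw [Equiv.Perm.mul_apply, hπ₂.gh k hk, hπ₁.hf k hk]
      · intro x hx
        rw [Equiv.Perm.mul_apply]
        by_cases hxu : ∃ k ∈ K, x = shf u k
        · obtain ⟨k, hk, rfl⟩ := hxu
          rw [hπ₂.hf k hk, hπ₁.gh k hk]
        · push Not at hxu
          rw [hπ₂.fix x (fun k hk => ⟨(hx k hk).2.1, (hx k hk).2.2, hxu k hk⟩),
            hπ₁.fix x (fun k hk => ⟨(hx k hk).1, (hx k hk).2.1, hxu k hk⟩)]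
    rw [e]
    exact Γ.mul_mem g1 g2
  · -- 5 points
    have n10 : ∀ k ∈ K, ∀ l ∈ K, shf s k ≠ shf u l := shf_ne hs (bd _ _ ms' mu) (Ne.symm hus)
    have i1 := hπ₁.inv
    have i2 := hπ₂.inv
    have e : π = π₂ * π₁⁻¹ * π₂⁻¹ * π₁ := by
      refine hπ.unique ?_
      have fp2 : ∀ k ∈ K, π₂ (shf p k) = shf p k := fun k hk =>
        hπ₂.fix _ (fun l hl => ⟨n4 k hk l hl, n1 k hk l hl, n2 k hk l hl⟩)
      have fs2 : ∀ k ∈ K, π₂ (shf s k) = shf s k := fun k hk =>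
        hπ₂.fix _ (fun l hl => ⟨(n5 l hl k hk).symm, n3 k hk l hl, n10 k hk l hl⟩)
      have ft1 : ∀ k ∈ K, π₁ (shf t k) = shf t k := fun k hk =>
        hπ₁.fix _ (fun l hl => ⟨(n1 l hl k hk).symm, (n7 l hl k hk).symm, (n3 l hl k hk).symm⟩)
      have fu1 : ∀ k ∈ K, π₁ (shf u k) = shf u k := fun k hk =>
        hπ₁.fix _ (fun l hl => ⟨(n2 l hl k hk).symm, (n9 l hl k hk).symm, (n10 l hl k hk).symm⟩)
      have fp2' : ∀ k ∈ K, π₂⁻¹ (shf p k) = shf p k := fun k hk => by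
        rw [Equiv.Perm.inv_eq_iff_eq, fp2 k hk]
      have fs2' : ∀ k ∈ K, π₂⁻¹ (shf s k) = shf s k := fun k hk => by
        rw [Equiv.Perm.inv_eq_iff_eq, fs2 k hk]
      have ft1' : ∀ k ∈ K, π₁⁻¹ (shf t k) = shf t k := fun k hk => by
        rw [Equiv.Perm.inv_eq_iff_eq, ft1 k hk]
      have fu1' : ∀ k ∈ K, π₁⁻¹ (shf u k) = shf u k := fun k hk => by
        rw [Equiv.Perm.inv_eq_iff_eq, fu1 k hk]
      refine ⟨?_, ?_, ?_, ?_⟩
      · intro k hk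
        -- p -> q
        simp only [Equiv.Perm.mul_apply]
        rw [hπ₁.fg k hk, i2.hf k hk, fu1' k hk, hπ₂.hf k hk]
      · intro k hk
        -- q -> t : π₁ q = s, π₂⁻¹ s = s, π₁⁻¹ s = q, π₂ q = t
        simp only [Equiv.Perm.mul_apply]
        rw [hπ₁.gh k hk, fs2' k hk, i1.fg k hk, hπ₂.fg k hk]
      · intro k hk
        -- t -> p : π₁ t = t, π₂⁻¹ t = q, π₁⁻¹ q = p, π₂ p = p
        simp only [Equiv.Perm.mul_apply]
        rw [ft1 k hk, i2.gh k hk, i1.gh k hk, fp2 k hk]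
      · intro x hx
        simp only [Equiv.Perm.mul_apply]
        by_cases hxu : ∃ k ∈ K, x = shf u k
        · obtain ⟨k, hk, rfl⟩ := hxu
          -- π₁ u = u, π₂⁻¹ u = t, π₁⁻¹ t = t, π₂ t = u
          rw [fu1 k hk, i2.fg k hk, ft1' k hk, hπ₂.gh k hk]
        by_cases hxs : ∃ k ∈ K, x = shf s k
        · obtain ⟨k, hk, rfl⟩ := hxs
          -- π₁ s = p, π₂⁻¹ p = p, π₁⁻¹ p = s, π₂ s = s
          rw [hπ₁.hf k hk, fp2' k hk, i1.hf k hk, fs2 k hk]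
        · push Not at hxu hxs
          have hx2 : π₂ x = x := hπ₂.fix x (fun k hk => ⟨(hx k hk).2.1, (hx k hk).2.2, hxu k hk⟩)
          have hx1 : π₁ x = x := hπ₁.fix x (fun k hk => ⟨(hx k hk).1, (hx k hk).2.1, hxs k hk⟩)
          have hx2' : π₂⁻¹ x = x := by rw [Equiv.Perm.inv_eq_iff_eq, hx2]
          have hx1' : π₁⁻¹ x = x := by rw [Equiv.Perm.inv_eq_iff_eq, hx1]
          rw [hx1, hx2', hx1', hx2]
    rw [e]
    exact Γ.mul_mem (Γ.mul_mem (Γ.mul_mem g2 (Γ.inv_mem g1)) (Γ.inv_mem g2)) g1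

end Pool.Agent.Lib.MP_c23930_al.AQ
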