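import Pool.Agent.Lib.MP_c23930_al.AQ.Defs

set_option autoImplicit false

namespace Pool.Agent.Lib.MP_c23930_al.AQ

variable {X : Type} [Fintype X] [DecidableEq X]

theorem moves_trans [Nonempty X] (p q : LZ X) :
    ∃ g ∈ Subgroup.closure {mr X, ms X}, g p = q := by
  classical
  set H : Subgroup (Equiv.Perm (LZ X)) := Subgroup.closure {mr X, ms X} with hH
  have hmr : mr X ∈ H := Subgroup.subset_closure (by simp)
  have hms : ms X ∈ H := Subgroup.subset_closure (by simp)
  -- powers of mr
  have hpow : ∀ (j : ℕ) (σ : Lst X) (k : ℤ), ((mr X) ^ j) (σ, k) =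
      ((Equiv.addRight (j : ZMod (Fintype.card X))).trans σ, k + j) := by
    intro j
    induction j with
    | zero =>
      intro σ k
      refine Prod.ext (Equiv.ext fun i => ?_) ?_ <;> simp
    | succ j ih =>
      intro σ k
      rw [pow_succ', Equiv.Perm.mul_apply, ih]
      refine Prod.ext (Equiv.ext fun i => ?_) ?_
      · simp only [mr, Equiv.coe_fn_mk, Equiv.trans_apply, Equiv.coe_addRight]
        congr 1
        push_cast
        ring
      · simp only [mr, Equiv.coe_fn_mk]
        push_cast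
        ring
  -- reachable permutations of the positions
  let T : Subgroup (Equiv.Perm (ZMod (Fintype.card X))) :=
    { carrier := {τ | ∀ (σ : Lst X) (k : ℤ), ∃ g ∈ H, g (σ, k) = (τ.trans σ, k)}
      one_mem' := fun σ k => ⟨1, H.one_mem, by
        refine Prod.ext (Equiv.ext fun i => ?_) rfl
        simp⟩
      mul_mem' := by
        intro a b ha hb σ k
        obtain ⟨g, hg, hg'⟩ := ha σ k
        obtain ⟨g2, hg2, hg2'⟩ := hb (a.trans σ) k
        refine ⟨g2 * g, H.mul_mem hg2 hg, ?_⟩
        rw [Equiv.Perm.mul_apply, hg', hg2']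
        refine Prod.ext (Equiv.ext fun i => ?_) rfl
        simp
      inv_mem' := by
        intro a ha σ k
        obtain ⟨g, hg, hg'⟩ := ha ((a⁻¹ : Equiv.Perm _).trans σ) k
        refine ⟨g⁻¹, H.inv_mem hg, ?_⟩
        rw [Equiv.Perm.inv_eq_iff_eq, hg']
        refine Prod.ext (Equiv.ext fun i => ?_) rfl
        simp }
  have hswap : ∀ j : ℕ, Equiv.swap (j : ZMod (Fintype.card X)) (j - 1) ∈ T := by
    intro j σ k
    refine ⟨((mr X) ^ j)⁻¹ * ms X * (mr X) ^ j,
      H.mul_mem (H.mul_mem (H.inv_mem (H.pow_mem hmr j)) hms) (H.pow_mem hmr j), ?_⟩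
    rw [Equiv.Perm.mul_apply, Equiv.Perm.mul_apply, Equiv.Perm.inv_eq_iff_eq, hpow, hpow]
    refine Prod.ext (Equiv.ext fun i => ?_) rfl
    simp only [ms, Equiv.coe_fn_mk, Equiv.trans_apply, Equiv.coe_addRight]
    congr 1
    rw [Equiv.swap_apply_def, Equiv.swap_apply_def]
    by_cases h1 : i = 0
    · simp [h1]; ring
    · by_cases h2 : i = -1
      · subst h2
        have e1 : (-1 : ZMod (Fintype.card X)) + j = j - 1 := by ring
        have h3 : (j : ZMod (Fintype.card X)) - 1 ≠ j := by
          intro e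
          apply h1
          have : (1 : ZMod (Fintype.card X)) = 0 := by
            have := sub_eq_self.1 e
            exact this
          rw [this, neg_zero]
        rw [if_neg h1, if_pos rfl, e1, if_neg h3, if_pos rfl, zero_add]
      · have h3 : i + j ≠ (j : ZMod (Fintype.card X)) := by simpa using h1
        have h4 : i + j ≠ (j : ZMod (Fintype.card X)) - 1 := by
          intro e
          apply h2
          have : i + j - j = (j : ZMod (Fintype.card X)) - 1 - j := by rw [e]
          simpa using this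
        rw [if_neg h1, if_neg h2, if_neg h3, if_neg h4]
  have hT : T = ⊤ := by
    by_cases h1 : Fintype.card X = 1
    · have hs : Subsingleton (ZMod (Fintype.card X)) := by
        rw [h1]; exact inferInstanceAs (Subsingleton (Fin 1))
      rw [eq_top_iff]
      intro τ _
      have : τ = 1 := Equiv.ext fun i => Subsingleton.elim _ _
      rw [this]; exact T.one_mem
    have hcard : 2 ≤ Fintype.card X := by
      have := Fintype.card_pos (α := X)
      omega
    have hfin : Finite (ZMod (Fintype.card X)) := inferInstance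
    set S : Set (Equiv.Perm (ZMod (Fintype.card X))) :=
      {τ | ∃ j : ℕ, τ = Equiv.swap (j : ZMod (Fintype.card X)) (j - 1)} with hS
    have hsw : ∀ τ ∈ S, τ.IsSwap := by
      rintro τ ⟨j, rfl⟩
      refine ⟨_, _, ?_, rfl⟩
      intro e
      have h5 : (1 : ZMod (Fintype.card X)) = 0 := sub_eq_self.1 e.symm
      have h6 : ((1 : ℕ) : ZMod (Fintype.card X)) = 0 := by rw [Nat.cast_one, h5]
      rw [ZMod.natCast_eq_zero_iff] at h6
      have := Nat.le_of_dvd one_pos h6
      omega
    have htr : MulAction.IsPretransitive (Subgroup.closure S) (ZMod (Fintype.card X)) := by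
      have key : ∀ j : ℕ, ∃ g ∈ Subgroup.closure S, g (0 : ZMod (Fintype.card X)) = j := by
        intro j
        induction j with
        | zero => exact ⟨1, Subgroup.one_mem _, by simp⟩
        | succ j ih =>
          obtain ⟨g, hg, hg'⟩ := ih
          refine ⟨Equiv.swap ((j + 1 : ℕ) : ZMod (Fintype.card X)) ((j + 1 : ℕ) - 1) * g,
            Subgroup.mul_mem _ (Subgroup.subset_closure ⟨j + 1, rfl⟩) hg, ?_⟩
          rw [Equiv.Perm.mul_apply, hg']
          have : (j : ZMod (Fintype.card X)) = ((j + 1 : ℕ) : ZMod (Fintype.card X)) - 1 := by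
            push_cast; ring
          rw [this, Equiv.swap_apply_right]
      have key2 : ∀ x : ZMod (Fintype.card X), ∃ g ∈ Subgroup.closure S, g 0 = x := by
        intro x
        obtain ⟨g, hg, hg'⟩ := key x.val
        exact ⟨g, hg, by rw [hg', ZMod.natCast_zmod_val]⟩
      constructor
      intro x y
      obtain ⟨g, hg, hg'⟩ := key2 x
      obtain ⟨g2, hg2, hg2'⟩ := key2 y
      refine ⟨⟨g2 * g⁻¹, Subgroup.mul_mem _ hg2 (Subgroup.inv_mem _ hg)⟩, ?_⟩
      change (g2 * g⁻¹) x = y
      have h9 : g⁻¹ (g 0) = 0 := by rw [← Equiv.Perm.mul_apply, inv_mul_cancel]; rfl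
      rw [Equiv.Perm.mul_apply, ← hg', h9, hg2']
    have hcl := closure_of_isSwap_of_isPretransitive hsw
    rw [eq_top_iff, ← hcl, Subgroup.closure_le]
    rintro τ ⟨j, rfl⟩
    exact hswap j
  -- change of the list
  have hlist : ∀ (σ σ' : Lst X) (k : ℤ), ∃ g ∈ H, g (σ, k) = (σ', k) := by
    intro σ σ' k
    have : (σ'.trans σ.symm : Equiv.Perm (ZMod (Fintype.card X))) ∈ T := by rw [hT]; trivial
    obtain ⟨g, hg, hg'⟩ := this σ k
    refine ⟨g, hg, ?_⟩
    rw [hg']
    refine Prod.ext (Equiv.ext fun i => ?_) rfl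
    simp
  -- change of the integer
  have hint : ∀ (n : ℕ) (σ : Lst X) (k : ℤ), ∃ g ∈ H, g (σ, k) = (σ, k + n) := by
    intro n σ k
    obtain ⟨g, hg, hg'⟩ := hlist ((Equiv.addRight (n : ZMod (Fintype.card X))).trans σ) σ (k + n)
    exact ⟨g * (mr X) ^ n, H.mul_mem hg (H.pow_mem hmr n), by
      rw [Equiv.Perm.mul_apply, hpow, hg']⟩
  obtain ⟨σ, k⟩ := p
  obtain ⟨σ', l⟩ := q
  rcases le_total k l with h | h
  · obtain ⟨g, hg, hg'⟩ := hint (l - k).toNat σ k
    obtain ⟨g2, hg2, hg2'⟩ := hlist σ σ' l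
    refine ⟨g2 * g, H.mul_mem hg2 hg, ?_⟩
    rw [Equiv.Perm.mul_apply, hg', Int.toNat_of_nonneg (by omega)]
    have : k + (l - k) = l := by ring
    rw [this, hg2']
  · obtain ⟨g, hg, hg'⟩ := hint (k - l).toNat σ l
    obtain ⟨g2, hg2, hg2'⟩ := hlist σ σ' l
    refine ⟨g2 * g⁻¹, H.mul_mem hg2 (H.inv_mem hg), ?_⟩
    rw [Int.toNat_of_nonneg (by omega)] at hg'
    have : l + (k - l) = k := by ring
    rw [this] at hg'
    have h9 : g⁻¹ (g (σ, l)) = (σ, l) := by rw [← Equiv.Perm.mul_apply, inv_mul_cancel]; rfl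
    rw [Equiv.Perm.mul_apply, ← hg', h9, hg2']

end Pool.Agent.Lib.MP_c23930_al.AQ
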