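import Pool.Agent.Lib.MP_c23930_al.AQ.Good
import Pool.Agent.Lib.MP_c23930_al.AQ.Moves

set_option autoImplicit false

namespace Pool.Agent.Lib.MP_c23930_al.AQ

variable {X : Type} [Fintype X] [DecidableEq X]

namespace GoodAllAux

/-- related points -/
def Rl (θ' : ℤ → Bool) (Γ : Subgroup (Equiv.Perm (LZ X))) (p q : LZ X) : Prop :=
  p = q ∨ ∃ s, p ≠ q ∧ q ≠ s ∧ p ≠ s ∧ Good θ' Γ p q s

theorem Rl.symm {θ' : ℤ → Bool} {Γ : Subgroup (Equiv.Perm (LZ X))} {p q : LZ X}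
    (h : Rl θ' Γ p q) : Rl θ' Γ q p := by
  rcases h with h | ⟨s, h1, h2, h3, h4⟩
  · exact Or.inl h.symm
  · exact Or.inr ⟨s, h1.symm, h3, h2, good_rot (good_inv h4)⟩

theorem Rl.trans {θ' : ℤ → Bool} {Γ : Subgroup (Equiv.Perm (LZ X))} {p q t : LZ X}
    (h : Rl θ' Γ p q) (h' : Rl θ' Γ q t) : Rl θ' Γ p t := by
  by_cases hpt : p = t
  · exact Or.inl hpt
  rcases h with h | ⟨s, h1, h2, h3, h4⟩
  · subst h; exact h'
  rcases h' with h' | ⟨u, k1, k2, k3, k4⟩
  · subst h'; exact Or.inr ⟨s, h1, h2, h3, h4⟩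
  have h5 := good_trans h4 k4 h1 h2 h3 k1 k2 k3 hpt
  -- Good p q t ; want Good p t q
  exact Or.inr ⟨q, hpt, k1.symm, h1, good_inv (good_rot h5)⟩

end GoodAllAux

open GoodAllAux

theorem good_all (h3 : 3 ≤ Fintype.card X) {θ' : ℤ → Bool} {Γ : Subgroup (Equiv.Perm (LZ X))}
    (hΓ : ∀ (σ₀ : Lst X) (K : Set ℤ), Clop θ' K → ∀ π : Equiv.Perm (LZ X),
      Lamp {w | w.1 = σ₀ ∧ w.2 ∈ K} π → π ∈ Γ) {p q s : LZ X} (hpq : p ≠ q) (hqs : q ≠ s)
    (hps : p ≠ s) : Good θ' Γ p q s := by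
  have hne : Nonempty X := Fintype.card_pos_iff.1 (by omega)
  have hz : (0 : ZMod (Fintype.card X)) ≠ -1 := by
    intro e
    have h1 : ((1 : ℕ) : ZMod (Fintype.card X)) = 0 := by
      rw [Nat.cast_one]
      have := congrArg (fun x => x + 1) e
      simpa using this
    rw [ZMod.natCast_eq_zero_iff] at h1
    have := Nat.le_of_dvd one_pos h1
    omega
  have d1 : ∀ p : LZ X, p ≠ mr X p := by
    intro p e
    have h1 : p.2 = (mr X p).2 := congrArg Prod.snd e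
    change p.2 = p.2 + 1 at h1
    omega
  have d2 : ∀ p : LZ X, p ≠ ms X p := by
    intro p e
    have h1 : p.1 = (ms X p).1 := congrArg Prod.fst e
    have h2 := DFunLike.congr_fun h1 0
    change p.1 0 = p.1 (Equiv.swap 0 (-1) 0) at h2
    rw [Equiv.swap_apply_left] at h2
    exact hz (p.1.injective h2)
  have d3 : ∀ p : LZ X, mr X p ≠ ms X p := by
    intro p e
    have h1 : (mr X p).2 = (ms X p).2 := congrArg Prod.snd e
    change p.2 + 1 = p.2 at h1
    omega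
  have r1 : ∀ p : LZ X, Rl θ' Γ p (mr X p) := fun p =>
    Or.inr ⟨ms X p, d1 p, d3 p, d2 p, good_step hΓ p⟩
  have r2 : ∀ p : LZ X, Rl θ' Γ p (ms X p) := fun p =>
    Or.inr ⟨mr X p, d2 p, (d3 p).symm, d1 p, good_inv (good_rot (good_step hΓ p))⟩
  have hcl : ∀ g ∈ Subgroup.closure {mr X, ms X}, ∀ p : LZ X, Rl θ' Γ p (g p) := by
    intro g hg
    induction hg using Subgroup.closure_induction with
    | mem g hg =>
      rcases hg with rfl | hg
      · exact r1
      · rw [Set.mem_singleton_iff.1 hg]; exact r2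
    | one => exact fun p => Or.inl rfl
    | mul g h _ _ ihg ihh => exact fun p => (ihh p).trans (ihg (h p))
    | inv g _ ih =>
      intro p
      have h1 := ih (g⁻¹ p)
      have h2 : g (g⁻¹ p) = p := by rw [← Equiv.Perm.mul_apply, mul_inv_cancel]; rfl
      rw [h2] at h1
      exact h1.symm
  have hall : ∀ p q : LZ X, Rl θ' Γ p q := by
    intro p q
    obtain ⟨g, hg, rfl⟩ := moves_trans p q
    exact hcl g hg p
  rcases hall p q with h | ⟨s', h1, h2, h3', h4⟩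
  · exact absurd h hpq
  rcases hall q s with h | ⟨u', k1, k2, k3, k4⟩
  · exact absurd h hqs
  exact good_trans h4 k4 h1 h2 h3' k1 k2 k3 hps

end Pool.Agent.Lib.MP_c23930_al.AQ
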