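import Pool.Agent.Lib.MP_c23930_al.AQ.Clop
import Pool.Agent.Lib.MP_c23930_al.AQ.Is3
import Pool.Agent.Lib.MP_c23930_al.AQ.Extend

set_option autoImplicit false

namespace Pool.Agent.Lib.MP_c23930_al.AQ

variable {R : ℕ → ℕ} {θ : ℤ → Bool} {X : Type} [Fintype X] [DecidableEq X]

theorem hd_mem_AW (hT : Toep R θ) (h3 : 3 ≤ Fintype.card X) (n : ℕ) (β : LZ X ≃ ℤ)
    (hβ : ∀ σ k, β (σ, k) = (R n : ℤ) * k + β (σ, 0)) {x y : X} (hxy : x ≠ y) (i : Bool)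
    (π : Equiv.Perm (LZ X)) (hπ : Lamp (hd (fun k => θ (R n * k)) x y i) π) : π ∈ AW θ β := by
  classical
  have hne : NeZero (Fintype.card X) := ⟨by omega⟩
  have hβ2 : ∀ (σ : Lst X) (k l : ℤ), β (σ, l + k) = β (σ, l) + R n * k := by
    intro σ k l
    rw [hβ σ (l + k), hβ σ l]
    ring
  refine is3_cover (κ := Lst X) (fun w : LZ X => w.1) (inj3_lamp h3 hxy (fun w hw => ⟨hw.1, hw.2.1⟩))
    ?_ hπ
  intro σ₀ τ hτ
  by_cases hσ₀ : σ₀ 0 = x ∧ σ₀ (-1) = y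
  swap
  · have : {u : LZ X | u ∈ hd (fun k => θ (R n * k)) x y i ∧ u.1 = σ₀} = ∅ := by
      ext w
      simp only [Set.mem_empty_iff_false, iff_false]
      rintro ⟨hw, h1⟩
      exact hσ₀ ⟨by rw [← h1]; exact hw.1, by rw [← h1]; exact hw.2.1⟩
    rw [this] at hτ
    rw [hτ.unique Is3.empty]
    exact Subgroup.one_mem _
  change β.permCongr τ ∈ AA θ
  set K : Set ℤ := {k | θ (R n * k) = i} with hK
  have hinj := (inj3_lamp h3 hxy (C := {w : LZ X | w.1 = σ₀}) (fun w hw => by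
    have hw' : w.1 = σ₀ := hw
    rw [hw']; exact hσ₀))
  have p0 : ((σ₀, 0) : LZ X) ∈ {w : LZ X | w.1 = σ₀} := rfl
  refine Subgroup.subset_closure ⟨{x | ∃ k ∈ K, x = (R n : ℤ) * k + β (σ₀, 0)},
    β (mr X (σ₀, 0)) - β (σ₀, 0), β (ms X (σ₀, 0)) - β (σ₀, 0),
    clop_ext hT n _ (clop_val i), ?_, ?_, ?_, ?_⟩
  · intro e
    exact hinj.fg _ p0 _ p0 (β.injective (sub_eq_zero.1 e)).symm
  · intro e
    exact hinj.hf _ p0 _ p0 (β.injective (sub_eq_zero.1 e))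
  · intro e
    refine hinj.gh _ p0 _ p0 (β.injective ?_)
    linarith
  · have himg0 : (fun k : ℤ => ((σ₀, k) : LZ X)) '' K =
        {u : LZ X | u ∈ hd (fun k => θ (R n * k)) x y i ∧ u.1 = σ₀} := by
      ext w
      constructor
      · rintro ⟨k, hk, rfl⟩
        exact ⟨⟨hσ₀.1, hσ₀.2, hk⟩, rfl⟩
      · rintro ⟨hw, h1⟩
        refine ⟨w.2, hw.2.2, ?_⟩
        exact Prod.ext h1.symm rfl
    have h5 := (Is3.permCongr β).2 ((Is3.reindex (fun k : ℤ => ((σ₀, k) : LZ X)) K himg0).1 hτ)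
    have himg : (fun k : ℤ => β (σ₀, k)) '' K = {x | ∃ k ∈ K, x = (R n : ℤ) * k + β (σ₀, 0)} := by
      ext x
      constructor
      · rintro ⟨k, hk, rfl⟩
        exact ⟨k, hk, hβ σ₀ k⟩
      · rintro ⟨k, hk, rfl⟩
        exact ⟨k, hk, hβ σ₀ k⟩
    refine (Is3.reindex (fun k : ℤ => β (σ₀, k)) K himg).2 (h5.congr ?_ ?_ ?_)
    · intro k _; rfl
    · intro k _
      have e1 : mr X ((σ₀, k) : LZ X) = ((mr X (σ₀, 0)).1, (mr X (σ₀, 0)).2 + k) := by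
        refine Prod.ext rfl ?_
        change k + 1 = 0 + 1 + k
        ring
      rw [e1, hβ2, hβ σ₀ k]
      ring
    · intro k _
      have e1 : ms X ((σ₀, k) : LZ X) = ((ms X (σ₀, 0)).1, (ms X (σ₀, 0)).2 + k) := by
        refine Prod.ext rfl ?_
        change k = 0 + k
        ring
      rw [e1, hβ2, hβ σ₀ k]
      ring

end Pool.Agent.Lib.MP_c23930_al.AQ
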