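import Pool.Agent.Lib.MP_c23930_al.AQ.Defs

set_option autoImplicit false

namespace Pool.Agent.Lib.MP_c23930_al.AQ

namespace ToepFile

variable {R : ℕ → ℕ}

/-- the Toeplitz condition -/
def Tc (R : ℕ → ℕ) (m : ℤ) : Prop :=
  ∃ l : ℕ, (R (l + 1) : ℤ) ∣ m - R l ∨ (R (l + 1) : ℤ) ∣ m - 2 * R l

theorem dvd_le (hd : ∀ n, R n ∣ R (n + 1)) {m n : ℕ} (h : m ≤ n) : (R m : ℤ) ∣ R n := by
  have : R m ∣ R n := by
    induction n, h using Nat.le_induction with
    | base => exact dvd_rfl
    | succ n _ ih => exact ih.trans (hd n)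
  exact_mod_cast this

theorem pos (h0 : R 0 = 1) (h4 : ∀ n, 4 * R n ≤ R (n + 1)) (n : ℕ) : 0 < R n := by
  induction n with
  | zero => rw [h0]; norm_num
  | succ n ih => have := h4 n; omega

/-- small multiples are not divisible -/
theorem not_dvd (h0 : R 0 = 1) (h4 : ∀ n, 4 * R n ≤ R (n + 1)) (l : ℕ) (c : ℤ) (hc : 0 < c)
    (hc' : c < 4) : ¬ (R (l + 1) : ℤ) ∣ c * R l := by
  intro h
  have hp : (0 : ℤ) < R l := by exact_mod_cast pos h0 h4 l
  have h1 := Int.le_of_dvd (by positivity) h
  have h2 : (4 : ℤ) * R l ≤ R (l + 1) := by exact_mod_cast h4 l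
  nlinarith

theorem lemA (h0 : R 0 = 1) (hd : ∀ n, R n ∣ R (n + 1)) (h4 : ∀ n, 4 * R n ≤ R (n + 1)) (l : ℕ)
    (x : ℤ) (h1 : (R l : ℤ) ∣ x) (h2 : ¬ (R (l + 1) : ℤ) ∣ x) :
    Tc R x ↔ ((R (l + 1) : ℤ) ∣ x - R l ∨ (R (l + 1) : ℤ) ∣ x - 2 * R l) := by
  constructor
  · rintro ⟨l', h⟩
    rcases lt_trichotomy l' l with hl | hl | hl
    · exfalso
      have h3 : (R (l' + 1) : ℤ) ∣ x := dvd_trans (dvd_le hd (by omega)) h1
      rcases h with h | h
      · have h5 := dvd_sub h3 h
        rw [sub_sub_cancel] at h5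
        exact not_dvd h0 h4 l' 1 (by norm_num) (by norm_num) (by rwa [one_mul])
      · have h5 := dvd_sub h3 h
        rw [sub_sub_cancel] at h5
        exact not_dvd h0 h4 l' 2 (by norm_num) (by norm_num) h5
    · subst hl; exact h
    · exfalso
      have h3 : (R (l + 1) : ℤ) ∣ R l' := dvd_le hd (by omega)
      have h5 : (R (l + 1) : ℤ) ∣ R (l' + 1) := dvd_le hd (by omega)
      rcases h with h | h
      · have h6 := dvd_add (dvd_trans h5 h) h3
        rw [sub_add_cancel] at h6
        exact h2 h6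
      · have h6 := dvd_add (dvd_trans h5 h) (Dvd.dvd.mul_left h3 2)
        rw [sub_add_cancel] at h6
        exact h2 h6
  · intro h
    exact ⟨l, h⟩

theorem recog_iff (h0 : R 0 = 1) (hd : ∀ n, R n ∣ R (n + 1)) (h4 : ∀ n, 4 * R n ≤ R (n + 1))
    (l : ℕ) (m : ℤ) : (R (l + 1) : ℤ) ∣ m ↔
      (R l : ℤ) ∣ m ∧ Tc R (m + R l) ∧ Tc R (m + 2 * R l) ∧ ¬ Tc R (m + 3 * R l) := by
  have hself : ∀ c : ℤ, (R l : ℤ) ∣ c * R l := fun c => Dvd.intro_left c rfl
  constructor
  · intro h
    refine ⟨dvd_trans (dvd_le hd (by omega)) h, ⟨l, Or.inl ?_⟩, ⟨l, Or.inr ?_⟩, ?_⟩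
    · rwa [add_sub_cancel_right]
    · rwa [add_sub_cancel_right]
    · have h1 : (R l : ℤ) ∣ m := dvd_trans (dvd_le hd (by omega)) h
      rw [lemA h0 hd h4 l _ (dvd_add h1 (hself 3))]
      · rintro (h2 | h2)
        · have h3 := dvd_sub h2 h
          have e : m + 3 * (R l : ℤ) - R l - m = 2 * R l := by ring
          rw [e] at h3
          exact not_dvd h0 h4 l 2 (by norm_num) (by norm_num) h3
        · have h3 := dvd_sub h2 h
          have e : m + 3 * (R l : ℤ) - 2 * R l - m = 1 * R l := by ring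
          rw [e] at h3
          exact not_dvd h0 h4 l 1 (by norm_num) (by norm_num) h3
      · intro h2
        have h3 := dvd_sub h2 h
        have e : m + 3 * (R l : ℤ) - m = 3 * R l := by ring
        rw [e] at h3
        exact not_dvd h0 h4 l 3 (by norm_num) (by norm_num) h3
  · rintro ⟨h1, h2, h3, h5⟩
    by_contra hn
    have a1 : (R (l + 1) : ℤ) ∣ m + R l ∨ (R (l + 1) : ℤ) ∣ m - R l := by
      by_cases hdv : (R (l + 1) : ℤ) ∣ m + R l
      · exact Or.inl hdv
      · right
        rw [lemA h0 hd h4 l _ (dvd_add h1 dvd_rfl) hdv] at h2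
        rcases h2 with h2 | h2
        · rw [add_sub_cancel_right] at h2
          exact absurd h2 hn
        · have e : m + (R l : ℤ) - 2 * R l = m - R l := by ring
          rwa [e] at h2
    have a2 : (R (l + 1) : ℤ) ∣ m + 2 * R l ∨ (R (l + 1) : ℤ) ∣ m + R l := by
      by_cases hdv : (R (l + 1) : ℤ) ∣ m + 2 * R l
      · exact Or.inl hdv
      · right
        rw [lemA h0 hd h4 l _ (dvd_add h1 (hself 2)) hdv] at h3
        rcases h3 with h3 | h3
        · have e : m + 2 * (R l : ℤ) - R l = m + R l := by ring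
          rwa [e] at h3
        · rw [add_sub_cancel_right] at h3
          exact absurd h3 hn
    have a3 : (R (l + 1) : ℤ) ∣ m + R l := by
      rcases a1 with a1 | a1
      · exact a1
      · exfalso
        rcases a2 with a2 | a2
        · have h6 := dvd_sub a2 a1
          have e : m + 2 * (R l : ℤ) - (m - R l) = 3 * R l := by ring
          rw [e] at h6
          exact not_dvd h0 h4 l 3 (by norm_num) (by norm_num) h6
        · have h6 := dvd_sub a2 a1
          have e : m + (R l : ℤ) - (m - R l) = 2 * R l := by ring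
          rw [e] at h6
          exact not_dvd h0 h4 l 2 (by norm_num) (by norm_num) h6
    apply h5
    refine ⟨l, Or.inr ?_⟩
    have e : m + 3 * (R l : ℤ) - 2 * R l = m + R l := by ring
    rw [e]
    exact a3

end ToepFile

open ToepFile

theorem exists_toep (R : ℕ → ℕ) (h0 : R 0 = 1) (hd : ∀ n, R n ∣ R (n + 1))
    (h4 : ∀ n, 4 * R n ≤ R (n + 1)) : ∃ θ : ℤ → Bool, Toep R θ := by
  classical
  refine ⟨fun m => decide (Tc R m), ⟨pos h0 h4, hd, ?_, ?_, ?_⟩⟩
  · intro n
    have := pos h0 h4 n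
    have := h4 n
    omega
  · intro n k c hc
    have key : Tc R ((R n : ℤ) * k + c) ↔ Tc R c := by
      have hl : ∀ l, ((R (l + 1) : ℤ) ∣ (R n : ℤ) * k + c - R l ↔ (R (l + 1) : ℤ) ∣ c - R l) ∧
          ((R (l + 1) : ℤ) ∣ (R n : ℤ) * k + c - 2 * R l ↔ (R (l + 1) : ℤ) ∣ c - 2 * R l) := by
        intro l
        rcases Nat.lt_or_ge l n with h | h
        · have h1 : (R (l + 1) : ℤ) ∣ (R n : ℤ) * k := Dvd.dvd.mul_right (dvd_le hd (by omega)) k
          constructor
          · rw [add_sub_assoc]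
            exact dvd_add_right h1
          · rw [add_sub_assoc]
            exact dvd_add_right h1
        · have h1 : (R n : ℤ) ∣ R l := dvd_le hd h
          have h2 : (R n : ℤ) ∣ R (l + 1) := dvd_le hd (by omega)
          have h3 : (R n : ℤ) ∣ (R n : ℤ) * k := Dvd.intro k rfl
          have f1 : ¬ (R (l + 1) : ℤ) ∣ (R n : ℤ) * k + c - R l := by
            intro h5
            apply hc
            have h6 := dvd_sub (dvd_add (dvd_trans h2 h5) h1) h3
            have e : (R n : ℤ) * k + c - R l + R l - R n * k = c := by ring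
            rwa [e] at h6
          have f2 : ¬ (R (l + 1) : ℤ) ∣ c - R l := by
            intro h5
            apply hc
            have h6 := dvd_add (dvd_trans h2 h5) h1
            rwa [sub_add_cancel] at h6
          have f3 : ¬ (R (l + 1) : ℤ) ∣ (R n : ℤ) * k + c - 2 * R l := by
            intro h5
            apply hc
            have h6 := dvd_sub (dvd_add (dvd_trans h2 h5) (Dvd.dvd.mul_left h1 2)) h3
            have e : (R n : ℤ) * k + c - 2 * R l + 2 * R l - R n * k = c := by ring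
            rwa [e] at h6
          have f4 : ¬ (R (l + 1) : ℤ) ∣ c - 2 * R l := by
            intro h5
            apply hc
            have h6 := dvd_add (dvd_trans h2 h5) (Dvd.dvd.mul_left h1 2)
            rwa [sub_add_cancel] at h6
          exact ⟨iff_of_false f1 f2, iff_of_false f3 f4⟩
      unfold Tc
      exact exists_congr fun l => or_congr (hl l).1 (hl l).2
    simp only [key]
  · intro n
    induction n with
    | zero =>
      refine ⟨0, fun x y _ _ => ?_⟩
      rw [h0]
      exact one_dvd _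
    | succ l ih =>
      obtain ⟨ρ, hρ⟩ := ih
      refine ⟨ρ + 3 * R l, fun x y hxy hx => ?_⟩
      have hT : ∀ c : ℤ, 0 ≤ c → c ≤ 3 → (Tc R (x + c * R l) ↔ Tc R (y + c * R l)) := by
        intro c hc0 hc3
        have h1 := hxy (c * R l) (by
          rw [abs_of_nonneg (by positivity)]
          push_cast
          have : (0 : ℤ) ≤ R l := Int.natCast_nonneg _
          have h2 : (0 : ℤ) ≤ ρ := Int.natCast_nonneg _
          nlinarith)
        simpa using h1
      rw [recog_iff h0 hd h4] at hx ⊢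
      obtain ⟨h1, h2, h3, h5⟩ := hx
      refine ⟨hρ x y (fun j hj => hxy j (hj.trans (by push_cast; omega))) h1, ?_, ?_, ?_⟩
      · have := hT 1 (by norm_num) (by norm_num)
        rw [one_mul] at this
        exact this.1 h2
      · exact (hT 2 (by norm_num) (by norm_num)).1 h3
      · exact fun h => h5 ((hT 3 (by norm_num) (by norm_num)).2 h)

end Pool.Agent.Lib.MP_c23930_al.AQ
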