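import Pool.Agent.Lib.MP_c23930_al.AQ.WDefs

set_option autoImplicit false

namespace Pool.Agent.Lib.MP_c23930_al.AQ

section W1

variable {Q : Type} [Group Q] {m : ℕ} {F : Frame Q (XX m)} {u : Om m} {P : Subgroup Q}

theorem up_apply (h : Equiv.Perm (Om m)) (p : Om m) (l : Fin 5) : up m h (p, l) = (h p, l) := rfl

theorem up_inv_apply (h : Equiv.Perm (Om m)) (p : Om m) (l : Fin 5) :
    (up m h)⁻¹ (p, l) = (h⁻¹ p, l) := rfl

theorem cs_up (hP : PHyp F u P) (h : Equiv.Perm (Om m)) (x : Q) :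
    x ∈ cs F u P (h u) ↔ (F.lam (up m h))⁻¹ * x ∈ P := by
  constructor
  · rintro ⟨π, h1, h2⟩
    have h3 : F.lam ((up m h)⁻¹ * π) ∈ P := by
      rw [hP.lam, Equiv.Perm.mul_apply, h1, up_inv_apply]
      simp
    have h4 : (F.lam (up m h))⁻¹ * x = F.lam ((up m h)⁻¹ * π) * ((F.lam π)⁻¹ * x) := by
      rw [map_mul, map_inv]; group
    rw [h4]
    exact mul_mem h3 h2
  · intro h1
    exact ⟨up m h, rfl, h1⟩

theorem cs_disj (hP : PHyp F u P) {p p' : Om m} {x : Q} (h : x ∈ cs F u P p)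
    (h' : x ∈ cs F u P p') : p = p' := by
  obtain ⟨π, h1, h2⟩ := h
  obtain ⟨π', h1', h2'⟩ := h'
  have h3 : F.lam (π⁻¹ * π') ∈ P := by
    have : F.lam (π⁻¹ * π') = ((F.lam π)⁻¹ * x) * ((F.lam π')⁻¹ * x)⁻¹ := by
      rw [map_mul, map_inv]; group
    rw [this]
    exact mul_mem h2 (inv_mem h2')
  rw [hP.lam, Equiv.Perm.mul_apply, h1', Equiv.Perm.inv_eq_iff_eq, h1] at h3
  exact (congrArg Prod.fst h3).symm

theorem cs_g_disj {g : Q} (hg : GHyp F P g) {p p' : Om m} {x : Q} (h : x ∈ cs F u P p) :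
    x * g⁻¹ ∉ cs F u P p' := by
  rintro ⟨π', h1', h2'⟩
  obtain ⟨π, h1, h2⟩ := h
  refine hg (π'⁻¹ * π) ((F.lam π')⁻¹ * (x * g⁻¹))⁻¹ (inv_mem h2') ((F.lam π)⁻¹ * x) h2 ?_
  rw [map_mul, map_inv]; group

theorem lamps_conj (hP : PHyp F u P) {O : Finset (Om m)} {Λ : Q} (hΛ : Λ ∈ LL F O)
    (h : Equiv.Perm (Om m)) : (F.lam (up m h))⁻¹ * Λ * F.lam (up m h) ∈ P := by
  unfold LL at hΛ
  induction hΛ using Subgroup.closure_induction with
  | mem x hx =>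
    obtain ⟨i, p, -, rfl⟩ := hx
    have h1 := F.conj (up m h)⁻¹ i (p, 2) (p, 3) (by simp)
    rw [map_inv, inv_inv] at h1
    rw [h1, up_inv_apply, up_inv_apply]
    exact hP.c i _ _ (by simp) (by simp) (by simp)
  | one => simp
  | mul x y _ _ hx hy =>
    have : (F.lam (up m h))⁻¹ * (x * y) * F.lam (up m h) =
      ((F.lam (up m h))⁻¹ * x * F.lam (up m h)) * ((F.lam (up m h))⁻¹ * y * F.lam (up m h)) := by
      group
    rw [this]
    exact mul_mem hx hy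
  | inv x _ hx =>
    have : (F.lam (up m h))⁻¹ * x⁻¹ * F.lam (up m h) =
      ((F.lam (up m h))⁻¹ * x * F.lam (up m h))⁻¹ := by
      group
    rw [this]
    exact inv_mem hx

theorem right_mem (hP : PHyp F u P) {O : Finset (Om m)} {Λ : Q} (hΛ : Λ ∈ LL F O)
    {π : Equiv.Perm (XX m)} {h : Equiv.Perm (Om m)} (hπ : π (h u, 4) = (h u, 4)) (x : Q) :
    (Λ * F.lam π * F.lam (up m h))⁻¹ * x ∈ P ↔ x ∈ cs F u P (h u) := by
  rw [cs_up hP]
  have h1 := lamps_conj hP hΛ h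
  have h2 : F.lam ((up m h)⁻¹ * π * up m h) ∈ P := by
    rw [hP.lam, Equiv.Perm.mul_apply, Equiv.Perm.mul_apply, up_apply, hπ, up_inv_apply]
    simp
  have h3 := mul_mem h1 h2
  have h4 : (Λ * F.lam π * F.lam (up m h))⁻¹ * x =
      ((F.lam (up m h))⁻¹ * Λ * F.lam (up m h) * F.lam ((up m h)⁻¹ * π * up m h))⁻¹ *
        ((F.lam (up m h))⁻¹ * x) := by
    rw [map_mul, map_mul, map_inv]; group
  rw [h4]
  exact Subgroup.mul_mem_cancel_left P (inv_mem h3)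

end W1

end Pool.Agent.Lib.MP_c23930_al.AQ
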