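import Pool.Agent.Lib.MP_c23930_al.AQ.WDefs

set_option autoImplicit false

namespace Pool.Agent.Lib.MP_c23930_al.AQ

namespace WLamps

variable {G : Type} [Group G]

/-- the subgroup generated by `H` and an element commuting with `H` -/
def ext (H : Subgroup G) (c : G) (hc : ∀ x ∈ H, Commute c x) : Subgroup G where
  carrier := {y | ∃ x ∈ H, ∃ k : ℤ, y = x * c ^ k}
  mul_mem' := by
    rintro _ _ ⟨x, hx, k, rfl⟩ ⟨y, hy, l, rfl⟩
    refine ⟨x * y, mul_mem hx hy, k + l, ?_⟩
    have h : c ^ k * y = y * c ^ k := ((hc y hy).zpow_left k).eq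
    rw [zpow_add]
    calc x * c ^ k * (y * c ^ l) = x * (c ^ k * y) * c ^ l := by group
      _ = x * y * (c ^ k * c ^ l) := by rw [h]; group
  one_mem' := ⟨1, one_mem H, 0, by simp⟩
  inv_mem' := by
    rintro _ ⟨x, hx, k, rfl⟩
    refine ⟨x⁻¹, inv_mem hx, -k, ?_⟩
    have h : c ^ (-k) * x⁻¹ = x⁻¹ * c ^ (-k) := ((hc _ (inv_mem hx)).zpow_left (-k)).eq
    rw [mul_inv_rev, ← zpow_neg, h]

theorem le_ext (H : Subgroup G) (c : G) (hc : ∀ x ∈ H, Commute c x) : H ≤ ext H c hc :=
  fun x hx => ⟨x, hx, 0, by simp⟩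

theorem mem_ext (H : Subgroup G) (c : G) (hc : ∀ x ∈ H, Commute c x) : c ∈ ext H c hc :=
  ⟨1, one_mem H, 1, by simp⟩

theorem card_ext (H : Subgroup G) (c : G) (hc : ∀ x ∈ H, Commute c x) (h3 : c ^ 3 = 1) (N : ℕ)
    (hf : (H : Set G).Finite) (hN : Set.ncard (H : Set G) ≤ N) :
    (ext H c hc : Set G).Finite ∧ Set.ncard (ext H c hc : Set G) ≤ 3 * N := by
  have hsub : (ext H c hc : Set G) ⊆
      (fun p : G × ℤ => p.1 * c ^ p.2) '' ((H : Set G) ×ˢ (Finset.Ico (0 : ℤ) 3 : Set ℤ)) := by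
    rintro _ ⟨x, hx, k, rfl⟩
    refine ⟨(x, k % 3), ⟨hx, ?_⟩, ?_⟩
    · simp only [Finset.coe_Ico, Set.mem_Ico]
      omega
    · show x * c ^ (k % 3) = x * c ^ k
      rw [zpow_eq_zpow_emod k (n := 3) (by exact_mod_cast h3)]
  have hf2 : ((H : Set G) ×ˢ (Finset.Ico (0 : ℤ) 3 : Set ℤ)).Finite :=
    hf.prod (Finset.finite_toSet _)
  refine ⟨(hf2.image _).subset hsub, ?_⟩
  refine (Set.ncard_le_ncard hsub (hf2.image _)).trans ((Set.ncard_image_le hf2).trans ?_)
  rw [Set.ncard_prod, Set.ncard_coe_finset]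
  have : (Finset.Ico (0 : ℤ) 3).card = 3 := by simp
  rw [this, mul_comm]
  exact Nat.mul_le_mul_left 3 hN

end WLamps

theorem card_LL {Q : Type} [Group Q] {m : ℕ} (F : Frame Q (XX m)) (O : Finset (Om m)) :
    (LL F O : Set Q).Finite ∧ Set.ncard (LL F O : Set Q) ≤ 9 ^ O.card := by
  classical
  have hne : ∀ p : Om m, ((p, 2) : XX m) ≠ (p, 3) := fun p => by simp
  -- all lamps commute
  have hcomm : ∀ (i j : Bool) (p p' : Om m), Commute (F.c i (p, 2) (p, 3)) (F.c j (p', 2) (p', 3)) := by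
    intro i j p p'
    apply F.comm i j _ _ _ _ (hne p) (hne p')
    by_cases h : p = p'
    · right; rw [h]; exact ⟨rfl, rfl⟩
    · left
      refine ⟨?_, ?_, ?_, ?_⟩
      · intro h'; exact h (congrArg Prod.fst h')
      · intro h'; exact absurd (congrArg Prod.snd h') (show ¬ (2 : Fin 5) = 3 by decide)
      · intro h'; exact absurd (congrArg Prod.snd h') (show ¬ (3 : Fin 5) = 2 by decide)
      · intro h'; exact h (congrArg Prod.fst h')
  induction O using Finset.induction_on with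
  | empty =>
    have : LL F ∅ = ⊥ := by
      unfold LL
      rw [eq_bot_iff, Subgroup.closure_le]
      rintro q ⟨i, p, hp, -⟩
      exact absurd hp (Finset.notMem_empty p)
    rw [this, Subgroup.coe_bot, Finset.card_empty, pow_zero, Set.ncard_singleton]
    exact ⟨Set.finite_singleton _, le_refl _⟩
  | insert p O hp ih =>
    obtain ⟨hf, hN⟩ := ih
    have hc : ∀ (i : Bool), ∀ x ∈ LL F O, Commute (F.c i (p, 2) (p, 3)) x := by
      intro i x hx
      unfold LL at hx
      induction hx using Subgroup.closure_induction with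
      | mem x hx =>
        obtain ⟨j, p', -, rfl⟩ := hx
        exact hcomm i j p p'
      | one => exact Commute.one_right _
      | mul x y _ _ hx hy => exact hx.mul_right hy
      | inv x _ hx => exact hx.inv_right
    have hc2 : ∀ x ∈ WLamps.ext (LL F O) (F.c false (p, 2) (p, 3)) (hc false),
        Commute (F.c true (p, 2) (p, 3)) x := by
      rintro _ ⟨x, hx, k, rfl⟩
      exact (hc true x hx).mul_right ((hcomm true false p p).zpow_right k)
    obtain ⟨hf1, hN1⟩ := WLamps.card_ext (LL F O) (F.c false (p, 2) (p, 3)) (hc false)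
      (F.cube _ _ _ (hne p)) _ hf hN
    obtain ⟨hf2, hN2⟩ := WLamps.card_ext _ (F.c true (p, 2) (p, 3)) hc2
      (F.cube _ _ _ (hne p)) _ hf1 hN1
    have hle : LL F (insert p O) ≤
        WLamps.ext (WLamps.ext (LL F O) (F.c false (p, 2) (p, 3)) (hc false))
          (F.c true (p, 2) (p, 3)) hc2 := by
      have hb := WLamps.le_ext (LL F O) (F.c false (p, 2) (p, 3)) (hc false)
      have hb2 := WLamps.le_ext _ (F.c true (p, 2) (p, 3)) hc2
      show Subgroup.closure _ ≤ _
      rw [Subgroup.closure_le]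
      rintro q ⟨i, p', hp', rfl⟩
      rcases Finset.mem_insert.1 hp' with h | h
      · rw [h]
        cases i with
        | false => exact hb2 (WLamps.mem_ext _ _ _)
        | true => exact WLamps.mem_ext _ _ _
      · exact hb2 (hb (Subgroup.subset_closure ⟨i, p', h, rfl⟩))
    refine ⟨hf2.subset hle, (Set.ncard_le_ncard hle hf2).trans (hN2.trans ?_)⟩
    rw [Finset.card_insert_of_notMem hp, pow_succ]
    omega

end Pool.Agent.Lib.MP_c23930_al.AQ
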