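import Pool.Agent.Lib.MP_c23930_al.AQ.WNormal
import Pool.Agent.Lib.MP_c23930_al.AQ.WLamps
import Pool.Agent.Lib.MP_c23930_al.Codes
import Pool.Agent.Lib.MP_c23930_al.CodeCount
import Pool.Agent.Lib.MP_c23930_al.BallCount

set_option autoImplicit false
open scoped Pointwise

namespace Pool.Agent.Lib.MP_c23930_al.AQ

namespace WCount

variable {B Q : Type} [Group B] [Group Q] {m : ℕ}

/-- `x` has the normal form given by the permutation `h` and the data `q` -/
structure WRel (F : Frame Q (XX m)) (u : Om m) (P : Subgroup Q) (g : Q) (h : Equiv.Perm (Om m))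
    (q : Equiv.Perm (XX m) × Q × (Om m → B) × (Om m → B)) (x : Wreath B Q) : Prop where
  right : x.right = q.2.1 * F.lam q.1 * F.lam (up m h)
  left1 : ∀ p, ∀ y ∈ cs F u P p, x.left.1 y = q.2.2.1 p
  left2 : ∀ p y, y * g⁻¹ ∈ cs F u P p → x.left.1 y = q.2.2.2 p
  left3 : ∀ y, (∀ p, y ∉ cs F u P p) → (∀ p, y * g⁻¹ ∉ cs F u P p) → x.left.1 y = 1

theorem WRel.unique {F : Frame Q (XX m)} {u : Om m} {P : Subgroup Q} {g : Q}
    {h : Equiv.Perm (Om m)} {q : Equiv.Perm (XX m) × Q × (Om m → B) × (Om m → B)}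
    {x x' : Wreath B Q} (hx : WRel F u P g h q x) (hx' : WRel F u P g h q x') : x = x' := by
  apply SemidirectProduct.ext
  · apply Subtype.ext
    funext y
    by_cases h1 : ∃ p, y ∈ cs F u P p
    · obtain ⟨p, hp⟩ := h1
      rw [hx.left1 p y hp, hx'.left1 p y hp]
    · by_cases h2 : ∃ p, y * g⁻¹ ∈ cs F u P p
      · obtain ⟨p, hp⟩ := h2
        rw [hx.left2 p y hp, hx'.left2 p y hp]
      · push Not at h1 h2
        rw [hx.left3 y h1 h2, hx'.left3 y h1 h2]
  · rw [hx.right, hx'.right]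

open Classical in
/-- functions supported in `O` -/
noncomputable def fs {Ω : Type} (B : Type) [Group B] [Fintype B] (O : Finset Ω) :
    Finset (Ω → B) :=
  (Finset.univ : Finset ({z // z ∈ O} → B)).image
    fun f p => if h : p ∈ O then f ⟨p, h⟩ else 1

theorem mem_fs {Ω : Type} [Fintype B] (O : Finset Ω) (f : Ω → B) (hf : ∀ p, f p ≠ 1 → p ∈ O) :
    f ∈ fs B O := by
  classical
  unfold fs
  rw [Finset.mem_image]
  refine ⟨fun p => f p.1, Finset.mem_univ _, ?_⟩
  funext p
  by_cases h : p ∈ O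
  · simp [h]
  · simp only [h, dite_false]
    by_contra h'
    exact h (hf p (Ne.symm h'))

theorem card_fs {Ω : Type} [Fintype B] (O : Finset Ω) (M : ℕ) (hO : O.card ≤ M) :
    (fs B O).card ≤ Nat.card B ^ M := by
  classical
  unfold fs
  refine Finset.card_image_le.trans ?_
  rw [Finset.card_univ, Fintype.card_fun, Fintype.card_coe, Nat.card_eq_fintype_card]
  exact Nat.pow_le_pow_right Fintype.card_pos hO

end WCount

theorem wcount {B Q : Type} [Group B] [Finite B] [Group Q] (m L R E : ℕ)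
    (F : Frame Q (XX (m + L))) (u u' : Om (m + L)) (P : Subgroup Q) (g : Q) (hP : PHyp F u P)
    (hg : GHyp F P g) (hu : u ∉ Sball (m + L) u' R)
    (hE : 9 ^ L * (7 * R) + 3 * 10 ^ L * 2 ^ L ≤ 10 ^ L * E) :
    {x : Wreath B Q | ∃ l : List (Gn B), l.length ≤ R ∧
      x = (l.map (Gn.val F u u' P hP.fin g)).prod}.Finite ∧
    Set.ncard {x : Wreath B Q | ∃ l : List (Gn B), l.length ≤ R ∧
      x = (l.map (Gn.val F u u' P hP.fin g)).prod} ≤
      (8 * (E + 1)) ^ (2 ^ (L + 1)) * 2 ^ E * (220 * E) ^ (220 * E) * 9 ^ (22 * E) *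
        Nat.card B ^ (22 * E) * Nat.card B ^ (22 * E) := by
  classical
  have : Fintype B := Fintype.ofFinite B
  have h10 : 0 < 10 ^ L := by positivity
  have h2E : 3 * 2 ^ L ≤ E := by
    have : 10 ^ L * (3 * 2 ^ L) ≤ 10 ^ L * E := by
      calc 10 ^ L * (3 * 2 ^ L) = 3 * 10 ^ L * 2 ^ L := by ring
        _ ≤ _ := le_trans (Nat.le_add_left _ _) hE
    exact Nat.le_of_mul_le_mul_left this h10
  have hE1 : 1 ≤ E := le_trans (by have := Nat.one_le_two_pow (n := L); omega) h2E
  -- the orbit bounds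
  have hO : ∀ (t : Cd L) (z : Om (m + L)), Cd.wt L t ≤ E → (Cd.io m L t z).card ≤ 22 * E := by
    intro t z ht
    have := cd_io_card m L t z
    omega
  -- weights of codes
  have hW : ∀ w : MW, w.wt ≤ 7 * R → Cd.wt L (Cd.of L w) ≤ E := by
    intro w hw
    have h1 := cd_wt L w
    have h2 : 9 ^ L * w.wt ≤ 9 ^ L * (7 * R) := Nat.mul_le_mul_left _ hw
    have h3 : 10 ^ L * Cd.wt L (Cd.of L w) ≤ 10 ^ L * E := by
      refine le_trans ?_ hE
      omega
    exact Nat.le_of_mul_le_mul_left h3 h10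
  -- the permutation attached to a code
  let hc : Cd L → Equiv.Perm (Om (m + L)) := fun t =>
    if h : ∃ g : Equiv.Perm (Om (m + L)), ∀ z, g z = Cd.ev m L t z then h.choose else 1
  have hcof : ∀ w : MW, hc (Cd.of L w) = w.ev (m + L) := by
    intro w
    have h : ∃ g : Equiv.Perm (Om (m + L)), ∀ z, g z = Cd.ev m L (Cd.of L w) z :=
      ⟨w.ev (m + L), fun z => (cd_ev m L w z).symm⟩
    have h1 : hc (Cd.of L w) = h.choose := dif_pos h
    rw [h1]
    ext z
    rw [h.choose_spec z, cd_ev]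
  let f : Cd L → (Equiv.Perm (XX (m + L)) × Q × (Om (m + L) → B) × (Om (m + L) → B)) →
      Wreath B Q := fun t q =>
    if h : ∃ x, WCount.WRel F u P g (hc t) q x then h.choose else 1
  have hf : ∀ t q x, WCount.WRel F u P g (hc t) q x → f t q = x := by
    intro t q x hx
    have h : ∃ x, WCount.WRel F u P g (hc t) q x := ⟨x, hx⟩
    have h1 : f t q = h.choose := dif_pos h
    rw [h1]
    exact h.choose_spec.unique hx
  have hLL : ∀ O : Finset (Om (m + L)), (LL F O : Set Q).Finite := fun O => (card_LL F O).1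
  let D : Cd L → Finset (Equiv.Perm (XX (m + L)) × Q × (Om (m + L) → B) × (Om (m + L) → B)) :=
    fun t => BallCount.ps ((Cd.io m L t u ∪ Cd.io m L t u') ×ˢ (Finset.univ : Finset (Fin 5))) ×ˢ
      ((hLL (Cd.io m L t u)).toFinset ×ˢ
        (WCount.fs B (Cd.io m L t u) ×ˢ WCount.fs B (Cd.io m L t u)))
  have hDcard : ∀ t, Cd.wt L t ≤ E → (D t).card ≤ (220 * E) ^ (220 * E) * (9 ^ (22 * E) *
      (Nat.card B ^ (22 * E) * Nat.card B ^ (22 * E))) := by
    intro t ht
    simp only [D, Finset.card_product]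
    have h0 : ((Cd.io m L t u ∪ Cd.io m L t u') ×ˢ (Finset.univ : Finset (Fin 5))).card ≤
        220 * E := by
      rw [Finset.card_product, Finset.card_univ, Fintype.card_fin]
      have h1 := Finset.card_union_le (Cd.io m L t u) (Cd.io m L t u')
      have h2 := hO t u ht
      have h3 := hO t u' ht
      omega
    have h1 := BallCount.card_ps _ (220 * E) h0 (by omega)
    have h2 : (hLL (Cd.io m L t u)).toFinset.card ≤ 9 ^ (22 * E) := by
      rw [← Set.ncard_eq_toFinset_card _ (hLL (Cd.io m L t u))]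
      refine (card_LL F (Cd.io m L t u)).2.trans ?_
      exact Nat.pow_le_pow_right (by norm_num) (hO t u ht)
    have h3 := WCount.card_fs (B := B) (Cd.io m L t u) (22 * E) (hO t u ht)
    exact Nat.mul_le_mul h1 (Nat.mul_le_mul h2 (Nat.mul_le_mul h3 h3))
  have hfin := finite_cd L E
  let S : Finset (Cd L) := hfin.toFinset
  have hS : S.card ≤ (8 * (E + 1)) ^ (2 ^ (L + 1)) * 2 ^ E := by
    have h1 : S.card = Set.ncard {t : Cd L | Cd.wt L t ≤ E} :=
      (Set.ncard_eq_toFinset_card _ hfin).symm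
    rw [h1]
    refine (card_cd L E).trans (Nat.mul_le_mul_right _ ?_)
    exact Nat.pow_le_pow_right (by omega) (Nat.sub_le _ _)
  let U : Finset (Wreath B Q) := S.biUnion fun t => (D t).image (f t)
  have hsub : {x : Wreath B Q | ∃ l : List (Gn B), l.length ≤ R ∧
      x = (l.map (Gn.val F u u' P hP.fin g)).prod} ⊆ (U : Set (Wreath B Q)) := by
    rintro x ⟨l, hl, rfl⟩
    obtain ⟨w, π, Λ, f₁, f₂, hx⟩ := wnormal F u u' P g hP hg hu l hl
    have hsubO := fun z => cd_io m L w z
    simp only [U, Finset.coe_biUnion, Set.mem_iUnion, Finset.mem_coe]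
    refine ⟨Cd.of L w, ?_, ?_⟩
    · have : w.wt ≤ 7 * R := hx.wt.trans (by omega)
      simpa [S] using hW w this
    · rw [Finset.mem_image]
      refine ⟨(π, Λ, f₁, f₂), ?_, ?_⟩
      · simp only [D, Finset.mem_product]
        refine ⟨?_, ?_, ?_, ?_⟩
        · simp only [BallCount.ps, Finset.mem_filter, Finset.mem_univ, true_and,
            Finset.mem_product, and_true]
          rintro ⟨p, k⟩ hne
          rcases Finset.mem_union.1 (hx.supp p k hne) with h | h
          · exact Finset.mem_union_left _ (hsubO u h)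
          · exact Finset.mem_union_right _ (hsubO u' h)
        · rw [Set.Finite.mem_toFinset]
          have h1 : LL F (w.io (m + L) u) ≤ LL F (Cd.io m L (Cd.of L w) u) := by
            apply Subgroup.closure_mono
            rintro q ⟨i, p, hp, rfl⟩
            exact ⟨i, p, hsubO u hp, rfl⟩
          exact h1 hx.lamps
        · exact WCount.mem_fs _ _ fun p hp => hsubO u (hx.supp1 p hp)
        · exact WCount.mem_fs _ _ fun p hp => hsubO u (hx.supp2 p hp)
      · apply hf
        refine ⟨?_, hx.left1, hx.left2, hx.left3⟩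
        rw [hcof]
        exact hx.right
  refine ⟨(Finset.finite_toSet U).subset hsub, ?_⟩
  calc _ ≤ Set.ncard (U : Set (Wreath B Q)) :=
        Set.ncard_le_ncard hsub (Finset.finite_toSet U)
    _ = U.card := Set.ncard_coe_finset U
    _ ≤ ∑ t ∈ S, ((D t).image (f t)).card := Finset.card_biUnion_le
    _ ≤ ∑ t ∈ S, ((220 * E) ^ (220 * E) * (9 ^ (22 * E) *
          (Nat.card B ^ (22 * E) * Nat.card B ^ (22 * E)))) := by
        refine Finset.sum_le_sum fun t ht => ?_
        refine Finset.card_image_le.trans (hDcard t ?_)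
        simpa [S] using ht
    _ = S.card * ((220 * E) ^ (220 * E) * (9 ^ (22 * E) *
          (Nat.card B ^ (22 * E) * Nat.card B ^ (22 * E)))) := by
        rw [Finset.sum_const, smul_eq_mul]
    _ ≤ ((8 * (E + 1)) ^ (2 ^ (L + 1)) * 2 ^ E) * ((220 * E) ^ (220 * E) * (9 ^ (22 * E) *
          (Nat.card B ^ (22 * E) * Nat.card B ^ (22 * E)))) :=
        Nat.mul_le_mul_right _ hS
    _ = _ := by ring

end Pool.Agent.Lib.MP_c23930_al.AQ
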