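import Pool.Agent.Lib.MP_c23930_al.AQ.Defs

/-!
# W block: hypotheses used for the slow generating set of `B wr Q`
-/

set_option autoImplicit false

namespace Pool.Agent.Lib.MP_c23930_al.AQ

/-- hypotheses on the finite subgroup `P` attached to the letter `(u, 4)` -/
structure PHyp {Q : Type} [Group Q] {m : ℕ} (F : Frame Q (XX m)) (u : Om m) (P : Subgroup Q) :
    Prop where
  fin : (P : Set Q).Finite
  lam : ∀ π : Equiv.Perm (XX m), F.lam π ∈ P ↔ π (u, 4) = (u, 4)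
  c : ∀ (i : Bool) (x y : XX m), x ≠ y → x ≠ (u, 4) → y ≠ (u, 4) → F.c i x y ∈ P

/-- `g` is in none of the double cosets `P λ(π) P` -/
def GHyp {Q : Type} [Group Q] {m : ℕ} (F : Frame Q (XX m)) (P : Subgroup Q) (g : Q) : Prop :=
  ∀ (π : Equiv.Perm (XX m)), ∀ a ∈ P, ∀ b ∈ P, g ≠ a * F.lam π * b

end Pool.Agent.Lib.MP_c23930_al.AQ
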