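import Pool.Agent.Lib.MP_c23930_al.AQ.Defs
import Pool.Agent.Lib.MP_c23930_al.Grig1

set_option autoImplicit false

namespace Pool.Agent.Lib.MP_c23930_al.AQ

namespace WGen

/-- a subgroup of a finite symmetric group in which any two points are connected by a chain of
transpositions is everything -/
theorem top_of_rel {Ω : Type} [Fintype Ω] [DecidableEq Ω] (H : Subgroup (Equiv.Perm Ω)) (x₀ : Ω)
    (h : ∀ x : Ω, Relation.ReflTransGen (fun a b => Equiv.swap a b ∈ H) x₀ x) : H = ⊤ := by
  let S : Set (Equiv.Perm Ω) := {σ | σ.IsSwap ∧ σ ∈ H}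
  have hS : Subgroup.closure S ≤ H := (Subgroup.closure_le H).2 fun σ hσ => hσ.2
  have key : ∀ x : Ω, ∃ σ ∈ Subgroup.closure S, σ x₀ = x := by
    intro x
    induction h x with
    | refl => exact ⟨1, one_mem _, rfl⟩
    | @tail b c _ hbc ih =>
      obtain ⟨σ, hσ, he⟩ := ih
      by_cases hne : b = c
      · exact ⟨σ, hσ, he.trans hne⟩
      · refine ⟨Equiv.swap b c * σ,
          mul_mem (Subgroup.subset_closure ⟨⟨_, _, hne, rfl⟩, hbc⟩) hσ, ?_⟩
        rw [Equiv.Perm.mul_apply, he, Equiv.swap_apply_left]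
  have : MulAction.IsPretransitive (Subgroup.closure S) Ω := ⟨by
    intro x z
    obtain ⟨σ, hσ, he⟩ := key x
    obtain ⟨τ, hτ, he'⟩ := key z
    refine ⟨⟨τ * σ⁻¹, mul_mem hτ (inv_mem hσ)⟩, ?_⟩
    show (τ * σ⁻¹) x = z
    rw [Equiv.Perm.mul_apply, ← he, ← he']
    congr 1
    exact σ.symm_apply_apply x₀⟩
  have h1 := closure_of_isSwap_of_isPretransitive (S := S) (fun σ hσ => hσ.1)
  rw [eq_top_iff, ← h1]
  exact hS

end WGen

theorem wgen_lam (m : ℕ) (u u' : Om m) (H : Subgroup (Equiv.Perm (XX m)))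
    (hq : ∀ s, up m (gq m s) ∈ H)
    (hk : ∀ s : Option Q4, Equiv.swap ((u, 0) : XX m) (s.elim u (fun t => gq m t u), 1) ∈ H)
    (hj : ∀ l : Fin 3, Equiv.swap ((u, 1) : XX m) (u', lab l) ∈ H) : H = ⊤ := by
  have hl : ∀ l : List Q4, up m ((l.map (gq m)).prod) ∈ H := by
    intro l
    induction l with
    | nil => rw [List.map_nil, List.prod_nil, map_one]; exact one_mem _
    | cons s l ih => rw [List.map_cons, List.prod_cons, map_mul]; exact mul_mem (hq s) ih
  have hconj : ∀ (l : List Q4) (a b : XX m), Equiv.swap a b ∈ H →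
      Equiv.swap (up m ((l.map (gq m)).prod) a) (up m ((l.map (gq m)).prod) b) ∈ H := by
    intro l a b h
    rw [Equiv.swap_apply_apply]
    exact mul_mem (mul_mem (hl l) h) (inv_mem (hl l))
  have hsymm : ∀ a b : XX m, Equiv.swap a b ∈ H → Equiv.swap b a ∈ H := fun a b h => by
    rw [Equiv.swap_comm]; exact h
  -- vertical edges
  have h01 : ∀ p : Om m, Equiv.swap ((p, 0) : XX m) (p, 1) ∈ H := by
    intro p
    obtain ⟨l, rfl⟩ := gq_trans m u p
    exact hconj l _ _ (hk none)
  have hs1 : ∀ (l : List Q4) (s : Q4),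
      Equiv.swap (((l.map (gq m)).prod u, 0) : XX m) ((l.map (gq m)).prod (gq m s u), 1) ∈ H :=
    fun l s => hconj l _ _ (hk (some s))
  have key0 : ∀ l : List Q4, Relation.ReflTransGen (fun a b : XX m => Equiv.swap a b ∈ H)
      (u, 0) ((l.map (gq m)).prod u, 0) := by
    intro l
    induction l using List.reverseRecOn with
    | nil => exact .refl
    | append_singleton l s ih =>
      have hp : ((l ++ [s]).map (gq m)).prod u = (l.map (gq m)).prod (gq m s u) := by
        simp [List.map_append, List.prod_append, Equiv.Perm.mul_apply]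
      rw [hp]
      exact (ih.tail (hs1 l s)).tail (hsymm _ _ (h01 _))
  have key : ∀ p : Om m, Relation.ReflTransGen (fun a b : XX m => Equiv.swap a b ∈ H)
      (u, 0) (p, 0) := by
    intro p
    obtain ⟨l, rfl⟩ := gq_trans m u p
    exact key0 l
  refine WGen.top_of_rel H (u, 0) ?_
  rintro ⟨p, k⟩
  have hlab : ∀ l : Fin 3, Relation.ReflTransGen (fun a b : XX m => Equiv.swap a b ∈ H)
      (u, 0) (p, lab l) := by
    intro l
    obtain ⟨w, hw⟩ := gq_trans m u' p
    have h1 := hconj w _ _ (hj l)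
    have h2 : up m ((w.map (gq m)).prod) (u', lab l) = (p, lab l) := by
      show ((w.map (gq m)).prod u', lab l) = (p, lab l)
      rw [hw]
    rw [h2] at h1
    exact ((key ((w.map (gq m)).prod u)).tail (h01 _)).tail h1
  fin_cases k
  · exact key p
  · exact (key p).tail (h01 p)
  · exact hlab 0
  · exact hlab 1
  · exact hlab 2

theorem wgen_inr {B Q : Type} [Group B] [Group Q] {m : ℕ} (F : Frame Q (XX m)) (u u' : Om m)
    (P : Subgroup Q) (hP : (P : Set Q).Finite) (g q : Q) :
    (SemidirectProduct.inr q : Wreath B Q) ∈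
      Subgroup.closure (Set.range (Gn.val (B := B) F u u' P hP g)) := by
  have hv : ∀ a : Gn B, Gn.val F u u' P hP g a ∈
      Subgroup.closure (Set.range (Gn.val (B := B) F u u' P hP g)) :=
    fun a => Subgroup.subset_closure ⟨a, rfl⟩
  let φ : Q →* Wreath B Q := SemidirectProduct.inr
  have hlam : ∀ π : Equiv.Perm (XX m), F.lam π ∈
      (Subgroup.closure (Set.range (Gn.val (B := B) F u u' P hP g))).comap φ := by
    have h := wgen_lam m u u'
      (((Subgroup.closure (Set.range (Gn.val (B := B) F u u' P hP g))).comap φ).comap F.lam)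
      (fun s => hv (.q s)) (fun s => hv (.k s)) (fun l => hv (.j l))
    intro π
    have : π ∈ ((Subgroup.closure (Set.range (Gn.val (B := B) F u u' P hP g))).comap
        φ).comap F.lam := by
      rw [h]; trivial
    exact this
  have htop : (Subgroup.closure (Set.range (Gn.val (B := B) F u u' P hP g))).comap φ = ⊤ := by
    rw [eq_top_iff, ← F.gen, Subgroup.closure_le]
    rintro x (⟨π, rfl⟩ | ⟨i, a, b, hab, rfl⟩)
    · exact hlam π
    · -- a permutation with (u,2) ↦ a, (u,3) ↦ b
      let σ : Equiv.Perm (XX m) := Equiv.swap (u, 2) a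
      let τ : Equiv.Perm (XX m) := Equiv.swap (σ (u, 3)) b
      have h1 : (τ * σ) (u, 2) = a := by
        rw [Equiv.Perm.mul_apply]
        have h2 : σ (u, 2) = a := Equiv.swap_apply_left _ _
        rw [h2]
        apply Equiv.swap_apply_of_ne_of_ne
        · intro h3
          have h4 : σ (u, 2) = σ (u, 3) := h2.trans h3
          exact absurd (congrArg Prod.snd (σ.injective h4)) (show ¬ (2 : Fin 5) = 3 by decide)
        · exact hab
      have h2 : (τ * σ) (u, 3) = b := by
        rw [Equiv.Perm.mul_apply]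
        exact Equiv.swap_apply_left _ _
      have h3 := F.conj (τ * σ) i (u, 2) (u, 3) (by simp)
      rw [h1, h2] at h3
      rw [← h3]
      exact mul_mem (mul_mem (hlam _) (hv (.c i))) (inv_mem (hlam _))
  have : q ∈ (Subgroup.closure (Set.range (Gn.val (B := B) F u u' P hP g))).comap φ := by
    rw [htop]; trivial
  exact this

end Pool.Agent.Lib.MP_c23930_al.AQ
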