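import Pool.Agent.Lib.MP_c23930_al.AQ.WGen

set_option autoImplicit false

open scoped commutatorElement

namespace Pool.Agent.Lib.MP_c23930_al.AQ

namespace WGen

open Classical in
theorem ind_apply {B Q : Type} [Group B] (s : Set Q) (hs : s.Finite) (b : B) (x : Q) :
    (ind s hs b).1 x = if x ∈ s then b else 1 := rfl

theorem translate_apply {B Q : Type} [Group B] [Group Q] (q : Q) (f : base B Q) (x : Q) :
    (translateHom B Q q f).1 x = f.1 (q⁻¹ * x) := rfl

/-- lamps at the point `1` -/
noncomputable def δ (B Q : Type) [Group B] [Group Q] : B →* Wreath B Q :=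
  (SemidirectProduct.inl (φ := translateHom B Q)).comp
    { toFun := fun b => ind ({1} : Set Q) (Set.finite_singleton 1) b
      map_one' := by
        classical
        apply Subtype.ext
        funext x
        rw [ind_apply]
        split_ifs <;> rfl
      map_mul' := fun b b' => by
        classical
        apply Subtype.ext
        funext x
        change _ = (ind ({1} : Set Q) (Set.finite_singleton 1) b).1 x *
          (ind ({1} : Set Q) (Set.finite_singleton 1) b').1 x
        rw [ind_apply, ind_apply, ind_apply]
        split_ifs <;> simp }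

theorem comm_eq {B Q : Type} [Group B] [Group Q] (P : Subgroup Q) (hP : (P : Set Q).Finite)
    (g : Q) (hPg : ∀ x ∈ P, g * x * g⁻¹ ∈ P → x = 1) (b b' : B) :
    ⁅(ind (P : Set Q) hP b : base B Q),
      translateHom B Q g⁻¹ (ind ((fun x => x * g) '' (P : Set Q)) (hP.image _) b')⁆ =
      ind ({1} : Set Q) (Set.finite_singleton 1) ⁅b, b'⁆ := by
  classical
  apply Subtype.ext
  funext y
  have e1 : (⁅(ind (P : Set Q) hP b : base B Q),
      translateHom B Q g⁻¹ (ind ((fun x => x * g) '' (P : Set Q)) (hP.image _) b')⁆).1 y =
      ⁅(ind (P : Set Q) hP b).1 y,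
        (ind ((fun x => x * g) '' (P : Set Q)) (hP.image _) b').1 (g⁻¹⁻¹ * y)⁆ := rfl
  rw [e1, ind_apply, ind_apply, ind_apply]
  have hmem : g⁻¹⁻¹ * y ∈ (fun x => x * g) '' (P : Set Q) ↔ g * y * g⁻¹ ∈ P := by
    rw [inv_inv]
    constructor
    · rintro ⟨z, hz, he⟩
      have : g * y * g⁻¹ = z := by rw [← he]; group
      rw [this]; exact hz
    · intro h
      exact ⟨_, h, by group⟩
  by_cases h1 : y ∈ (P : Set Q)
  · by_cases h2 : g⁻¹⁻¹ * y ∈ (fun x => x * g) '' (P : Set Q)
    · have h3 : y = 1 := hPg y h1 (hmem.1 h2)
      rw [if_pos h1, if_pos h2, if_pos (by rw [h3]; rfl)]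
    · have h3 : y ≠ 1 := by
        intro h
        apply h2
        rw [hmem, h]
        have : g * 1 * g⁻¹ = 1 := by group
        rw [this]; exact one_mem P
      have h4 : y ∉ ({1} : Set Q) := h3
      rw [if_neg h2, if_neg h4, commutatorElement_one_right]
  · have h3 : y ≠ 1 := by
      intro h
      exact h1 (by rw [h]; exact one_mem P)
    have h4 : y ∉ ({1} : Set Q) := h3
    rw [if_neg h1, if_neg h4, commutatorElement_one_left]

theorem inl_mem {B Q : Type} [Group B] [Group Q] (H : Subgroup (Wreath B Q))
    (h1 : ∀ (q : Q), (SemidirectProduct.inr q : Wreath B Q) ∈ H) (h2 : ∀ b : B, δ B Q b ∈ H)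
    (f : base B Q) : (SemidirectProduct.inl f : Wreath B Q) ∈ H := by
  classical
  have hq : ∀ (q : Q) (b : B),
      (SemidirectProduct.inl (ind ({q} : Set Q) (Set.finite_singleton q) b) : Wreath B Q) ∈ H := by
    intro q b
    have h3 : (ind ({q} : Set Q) (Set.finite_singleton q) b : base B Q) =
        translateHom B Q q (ind ({1} : Set Q) (Set.finite_singleton 1) b) := by
      apply Subtype.ext
      funext x
      rw [translate_apply, ind_apply, ind_apply]
      have : x ∈ ({q} : Set Q) ↔ q⁻¹ * x ∈ ({1} : Set Q) := by
        rw [Set.mem_singleton_iff, Set.mem_singleton_iff, inv_mul_eq_one, eq_comm]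
      by_cases hx : x ∈ ({q} : Set Q)
      · rw [if_pos hx, if_pos (this.1 hx)]
      · rw [if_neg hx, if_neg (fun h => hx (this.2 h))]
    rw [h3, SemidirectProduct.inl_aut]
    exact mul_mem (mul_mem (h1 q) (h2 b)) (h1 q⁻¹)
  have key : ∀ (s : Finset Q) (f : base B Q), Function.mulSupport f.1 ⊆ (s : Set Q) →
      (SemidirectProduct.inl f : Wreath B Q) ∈ H := by
    intro s
    induction s using Finset.induction_on with
    | empty =>
      intro f hf
      have : f = 1 := by
        apply Subtype.ext
        funext x
        by_contra h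
        exact absurd (hf h) (by simp)
      rw [this, map_one]
      exact one_mem _
    | insert q s hqs ih =>
      intro f hf
      let f' : base B Q := ⟨fun y => if y = q then 1 else f.1 y, f.2.subset (by
        intro y hy
        by_cases h : y = q
        · exact absurd (if_pos h) hy
        · intro h'
          exact hy ((if_neg h).trans h'))⟩
      have hf' : Function.mulSupport f'.1 ⊆ (s : Set Q) := by
        intro y hy
        by_cases h : y = q
        · exact absurd (if_pos h) hy
        · have h3 : f.1 y ≠ 1 := by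
            intro h'
            exact hy ((if_neg h).trans h')
          have h4 := hf h3
          rw [Finset.coe_insert, Set.mem_insert_iff] at h4
          exact h4.resolve_left h
      have he : f = ind ({q} : Set Q) (Set.finite_singleton q) (f.1 q) * f' := by
        apply Subtype.ext
        funext y
        change f.1 y = (ind ({q} : Set Q) (Set.finite_singleton q) (f.1 q)).1 y * f'.1 y
        rw [ind_apply]
        change f.1 y = (if y ∈ ({q} : Set Q) then f.1 q else 1) * (if y = q then 1 else f.1 y)
        by_cases h : y = q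
        · rw [if_pos h, if_pos (by rw [h]; rfl), mul_one, h]
        · rw [if_neg h, if_neg (by simpa using h), one_mul]
      rw [he, map_mul]
      exact mul_mem (hq _ _) (ih f' hf')
  exact key f.2.toFinset f (by rw [Set.Finite.coe_toFinset])

end WGen

theorem wgen {B Q : Type} [Group B] [Group Q] (hB : commutator B = ⊤) {m : ℕ}
    (F : Frame Q (XX m)) (u u' : Om m) (P : Subgroup Q) (hP : (P : Set Q).Finite) (g : Q)
    (hPg : ∀ x ∈ P, g * x * g⁻¹ ∈ P → x = 1) :
    Subgroup.closure (Set.range (Gn.val (B := B) F u u' P hP g)) = ⊤ := by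
  have hv : ∀ a : Gn B, Gn.val F u u' P hP g a ∈
      Subgroup.closure (Set.range (Gn.val (B := B) F u u' P hP g)) :=
    fun a => Subgroup.subset_closure ⟨a, rfl⟩
  have hr : ∀ q : Q, (SemidirectProduct.inr q : Wreath B Q) ∈
      Subgroup.closure (Set.range (Gn.val (B := B) F u u' P hP g)) :=
    fun q => wgen_inr F u u' P hP g q
  have hδ : ∀ b : B, WGen.δ B Q b ∈
      Subgroup.closure (Set.range (Gn.val (B := B) F u u' P hP g)) := by
    have h1 : commutator B ≤ (Subgroup.closure (Set.range
        (Gn.val (B := B) F u u' P hP g))).comap (WGen.δ B Q) := by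
      rw [commutator_def, Subgroup.commutator_le]
      intro b _ b' _
      have h2 : WGen.δ B Q ⁅b, b'⁆ = ⁅(SemidirectProduct.inl (ind (P : Set Q) hP b) : Wreath B Q),
          SemidirectProduct.inl (translateHom B Q g⁻¹
            (ind ((fun x => x * g) '' (P : Set Q)) (hP.image _) b'))⁆ := by
        rw [← map_commutatorElement, WGen.comm_eq P hP g hPg]
        rfl
      rw [Subgroup.mem_comap, h2, SemidirectProduct.inl_aut]
      have h3 : (SemidirectProduct.inl (ind (P : Set Q) hP b) : Wreath B Q) ∈
          Subgroup.closure (Set.range (Gn.val (B := B) F u u' P hP g)) := hv (.b1 b)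
      have h4 : (SemidirectProduct.inl (ind ((fun x => x * g) '' (P : Set Q))
          (hP.image _) b') : Wreath B Q) ∈
          Subgroup.closure (Set.range (Gn.val (B := B) F u u' P hP g)) := hv (.b2 b')
      have h5 := mul_mem (mul_mem (hr g⁻¹) h4) (hr g⁻¹⁻¹)
      rw [commutatorElement_def]
      exact mul_mem (mul_mem (mul_mem h3 h5) (inv_mem h3)) (inv_mem h5)
    intro b
    rw [hB] at h1
    exact h1 (Subgroup.mem_top b)
  rw [eq_top_iff]
  intro x _
  rw [← SemidirectProduct.inl_left_mul_inr_right x]
  exact mul_mem (WGen.inl_mem _ hr hδ _) (hr _)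

end Pool.Agent.Lib.MP_c23930_al.AQ
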