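import Mathlib

set_option autoImplicit false

open Filter Topology

namespace Pool.Agent.Lib.MP_c23930_al.AQ

theorem wlim_aux (b c : ℝ) (hc : 1 < c) :
    ∃ L : ℕ, (3962 * (9 + 2 * (L : ℝ)) + 1206 + 792 * b) * (9 / 10 : ℝ) ^ L < Real.log c := by
  have h1 : Tendsto (fun L : ℕ => (L : ℝ) * (9 / 10 : ℝ) ^ L) atTop (𝓝 0) :=
    tendsto_self_mul_const_pow_of_lt_one (by norm_num) (by norm_num)
  have h2 : Tendsto (fun L : ℕ => (9 / 10 : ℝ) ^ L) atTop (𝓝 0) :=
    tendsto_pow_atTop_nhds_zero_of_lt_one (by norm_num) (by norm_num)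
  have h3 : Tendsto (fun L : ℕ => (3962 * (9 + 2 * (L : ℝ)) + 1206 + 792 * b) *
      (9 / 10 : ℝ) ^ L) atTop (𝓝 0) := by
    have h := (h2.const_mul (3962 * 9 + 1206 + 792 * b)).add (h1.const_mul (3962 * 2))
    simp only [mul_zero, add_zero] at h
    refine h.congr fun L => ?_
    ring
  exact (h3.eventually (gt_mem_nhds (Real.log_pos hc))).exists

theorem wlim (β : ℕ) (c : ℝ) (hc : 1 < c) : ∃ L E : ℕ,
    9 ^ L * (7 * (2 * 4 ^ L)) + 3 * 10 ^ L * 2 ^ L ≤ 10 ^ L * E ∧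
      (((8 * (E + 1)) ^ (2 ^ (L + 1)) * 2 ^ E * (220 * E) ^ (220 * E) * 9 ^ (22 * E) *
        β ^ (22 * E) * β ^ (22 * E) : ℕ) : ℝ) < c ^ (4 ^ L) := by
  obtain ⟨L, hL⟩ := wlim_aux (Real.log ((β : ℝ) + 1)) c hc
  set b : ℝ := Real.log ((β : ℝ) + 1) with hb
  have hb0 : 0 ≤ b := Real.log_nonneg (by have := Nat.cast_nonneg (α := ℝ) β; linarith)
  set a : ℝ := (18 / 5 : ℝ) ^ L with ha
  have ha1 : 1 ≤ a := one_le_pow₀ (by norm_num)
  have h2a : (2 : ℝ) ^ L ≤ a := pow_le_pow_left₀ (by norm_num) (by norm_num) L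
  refine ⟨L, ⌈14 * a⌉₊ + 3 * 2 ^ L, ?_, ?_⟩
  · have h : (9 : ℝ) ^ L * (7 * (2 * 4 ^ L)) + 3 * 10 ^ L * 2 ^ L ≤
        10 ^ L * ((⌈14 * a⌉₊ : ℕ) + 3 * 2 ^ L) := by
      have h7 : 14 * a ≤ (⌈14 * a⌉₊ : ℝ) := Nat.le_ceil _
      have h10 : (0 : ℝ) < 10 ^ L := by positivity
      have he : (9 : ℝ) ^ L * (7 * (2 * 4 ^ L)) = 10 ^ L * (14 * a) := by
        have : (9 : ℝ) ^ L * 4 ^ L = 10 ^ L * (18 / 5) ^ L := by
          rw [← mul_pow, ← mul_pow]; norm_num
        rw [ha]; linear_combination 14 * this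
      rw [he]
      nlinarith [mul_le_mul_of_nonneg_left h7 h10.le]
    exact_mod_cast h
  · set E : ℕ := ⌈14 * a⌉₊ + 3 * 2 ^ L with hE
    have hE1 : (1 : ℝ) ≤ E := by
      have : 1 ≤ E := by
        have : 1 ≤ 2 ^ L := Nat.one_le_two_pow
        omega
      exact_mod_cast this
    have hE2 : (E : ℝ) ≤ 18 * a := by
      have h7 : (⌈14 * a⌉₊ : ℝ) < 14 * a + 1 := Nat.ceil_lt_add_one (by positivity)
      rw [hE]; push_cast
      linarith
    have hloga : Real.log a ≤ 2 * L := by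
      rw [ha, Real.log_pow]
      have : Real.log (18 / 5 : ℝ) ≤ 2 := by
        have h := Real.log_le_sub_one_of_pos (show (0 : ℝ) < 9 / 5 by norm_num)
        have h2 : Real.log (18 / 5 : ℝ) = Real.log 2 + Real.log (9 / 5) := by
          rw [← Real.log_mul (by norm_num) (by norm_num)]; norm_num
        have h3 := Real.log_two_lt_d9
        linarith
      nlinarith [(Nat.cast_nonneg L : (0 : ℝ) ≤ (L : ℝ))]
    have hlog3960 : Real.log 3960 ≤ 9 := by
      have h : Real.log (3960 : ℝ) ≤ Real.log (2 ^ 12 : ℝ) :=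
        Real.log_le_log (by norm_num) (by norm_num)
      rw [Real.log_pow] at h
      have h3 := Real.log_two_lt_d9
      push_cast at h
      linarith
    have hlog9 : Real.log 9 ≤ 3 := by
      have h : Real.log (9 : ℝ) ≤ Real.log (2 ^ 4 : ℝ) :=
        Real.log_le_log (by norm_num) (by norm_num)
      rw [Real.log_pow] at h
      have h3 := Real.log_two_lt_d9
      push_cast at h
      linarith
    have hE3 : Real.log (220 * (E : ℝ)) ≤ 9 + 2 * L := by
      have h : Real.log (220 * (E : ℝ)) ≤ Real.log (3960 * a) :=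
        Real.log_le_log (by positivity) (by linarith)
      rw [Real.log_mul (show (3960 : ℝ) ≠ 0 by norm_num) (by positivity)] at h
      linarith
    have hE4 : Real.log (8 * ((E : ℝ) + 1)) ≤ 9 + 2 * L := by
      have h : Real.log (8 * ((E : ℝ) + 1)) ≤ Real.log (220 * (E : ℝ)) :=
        Real.log_le_log (by positivity) (by linarith)
      linarith
    have hcpos : 0 < c := by linarith
    have hβ : (β : ℝ) ≤ (β : ℝ) + 1 := by linarith
    have hβ0 : (0 : ℝ) ≤ β := Nat.cast_nonneg β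
    have hmono : (((8 * (E + 1)) ^ (2 ^ (L + 1)) * 2 ^ E * (220 * E) ^ (220 * E) * 9 ^ (22 * E) *
        β ^ (22 * E) * β ^ (22 * E) : ℕ) : ℝ) ≤
        (8 * ((E : ℝ) + 1)) ^ (2 ^ (L + 1)) * 2 ^ E * (220 * (E : ℝ)) ^ (220 * E) * 9 ^ (22 * E) *
        ((β : ℝ) + 1) ^ (22 * E) * ((β : ℝ) + 1) ^ (22 * E) := by
      push_cast
      have h := pow_le_pow_left₀ hβ0 hβ (22 * E)
      gcongr
    refine lt_of_le_of_lt hmono ?_
    rw [← Real.log_lt_log_iff (by positivity) (by positivity)]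
    have hlog : Real.log ((8 * ((E : ℝ) + 1)) ^ (2 ^ (L + 1)) * 2 ^ E *
        (220 * (E : ℝ)) ^ (220 * E) * 9 ^ (22 * E) *
        ((β : ℝ) + 1) ^ (22 * E) * ((β : ℝ) + 1) ^ (22 * E)) =
          2 ^ (L + 1) * Real.log (8 * ((E : ℝ) + 1)) + E * Real.log 2 +
          220 * E * Real.log (220 * (E : ℝ)) + 22 * E * Real.log 9 + 44 * E * b := by
      have hEpos : (0 : ℝ) < E := by linarith
      rw [Real.log_mul (by positivity) (by positivity), Real.log_mul (by positivity) (by positivity),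
        Real.log_mul (by positivity) (by positivity), Real.log_mul (by positivity) (by positivity),
        Real.log_mul (by positivity) (by positivity), Real.log_pow, Real.log_pow, Real.log_pow,
        Real.log_pow, Real.log_pow]
      push_cast
      ring
    rw [hlog, Real.log_pow]
    have hl2 : Real.log 2 ≤ 1 := by linarith [Real.log_two_lt_d9]
    have hLL : (0 : ℝ) ≤ (L : ℝ) := Nat.cast_nonneg L
    have hK : (0 : ℝ) ≤ 9 + 2 * (L : ℝ) := by linarith
    have hEpos : (0 : ℝ) < E := by linarith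
    have t1 : (2 : ℝ) ^ (L + 1) * Real.log (8 * ((E : ℝ) + 1)) ≤ 2 * a * (9 + 2 * L) := by
      rw [pow_succ]
      have := mul_le_mul (show (2 : ℝ) ^ L * 2 ≤ 2 * a by linarith) hE4
        (Real.log_nonneg (by linarith)) (by positivity)
      linarith
    have t2 : (E : ℝ) * Real.log 2 ≤ 18 * a * 1 :=
      mul_le_mul hE2 hl2 (Real.log_nonneg (by norm_num)) (by positivity)
    have t3 : (E : ℝ) * Real.log (220 * (E : ℝ)) ≤ 18 * a * (9 + 2 * L) :=
      mul_le_mul hE2 hE3 (Real.log_nonneg (by linarith)) (by positivity)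
    have t4 : (E : ℝ) * Real.log 9 ≤ 18 * a * 3 :=
      mul_le_mul hE2 hlog9 (Real.log_nonneg (by norm_num)) (by positivity)
    have t5 : (E : ℝ) * b ≤ 18 * a * b := mul_le_mul_of_nonneg_right hE2 hb0
    have hfin : (3962 * (9 + 2 * (L : ℝ)) + 1206 + 792 * b) * a < 4 ^ L * Real.log c := by
      have h4 : (4 : ℝ) ^ L * (9 / 10) ^ L = a := by
        rw [← mul_pow, ha]; norm_num
      have := mul_lt_mul_of_pos_left hL (show (0 : ℝ) < 4 ^ L by positivity)
      calc (3962 * (9 + 2 * (L : ℝ)) + 1206 + 792 * b) * a =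
            4 ^ L * ((3962 * (9 + 2 * (L : ℝ)) + 1206 + 792 * b) * (9 / 10 : ℝ) ^ L) := by
            rw [← h4]; ring
        _ < _ := this
    push_cast
    calc 2 ^ (L + 1) * Real.log (8 * ((E : ℝ) + 1)) + E * Real.log 2 +
          220 * E * Real.log (220 * (E : ℝ)) + 22 * E * Real.log 9 + 44 * E * b
        ≤ 2 * a * (9 + 2 * L) + 18 * a * 1 + 220 * (18 * a * (9 + 2 * L)) +
            22 * (18 * a * 3) + 44 * (18 * a * b) := by linarith
      _ = (3962 * (9 + 2 * (L : ℝ)) + 1206 + 792 * b) * a := by ring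
      _ < 4 ^ L * Real.log c := hfin

end Pool.Agent.Lib.MP_c23930_al.AQ
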