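import Mathlib

/-! MP_c23930_al, AQ route, block W, piece W8: in an infinite ICC group every finite subgroup `P`
can be moved off itself by conjugation with an element outside a given finite set
(B. H. Neumann's lemma). -/

set_option autoImplicit false
open scoped Pointwise

namespace Pool.Agent.Lib.MP_c23930_al.AQ

/-- If the centraliser of `x` has finite index, the conjugacy class of `x` is finite. -/
theorem wneu_fin {Q : Type} [Group Q] (x : Q) (h : (Subgroup.centralizer ({x} : Set Q)).FiniteIndex) :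
    (Set.range fun h : Q => h * x * h⁻¹).Finite := by
  have hf : Finite (Q ⧸ Subgroup.centralizer ({x} : Set Q)) :=
    Subgroup.finite_quotient_of_finiteIndex
  refine Set.Finite.subset (Set.finite_range
    (fun c : Q ⧸ Subgroup.centralizer ({x} : Set Q) => c.out * x * c.out⁻¹)) ?_
  rintro _ ⟨g, rfl⟩
  refine ⟨(g : Q ⧸ Subgroup.centralizer ({x} : Set Q)), ?_⟩
  obtain ⟨z, hz⟩ := QuotientGroup.mk_out_eq_mul (Subgroup.centralizer ({x} : Set Q)) g
  have hz' : x * (z : Q) = z * x := by
    have := Subgroup.mem_centralizer_iff.1 z.2 x rfl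
    exact this
  simp only []
  rw [hz]
  have : (z : Q) * x * (z : Q)⁻¹ = x := by
    rw [← hz']; group
  calc g * (z : Q) * x * (g * (z : Q))⁻¹ = g * ((z : Q) * x * (z : Q)⁻¹) * g⁻¹ := by group
    _ = g * x * g⁻¹ := by rw [this]

theorem exists_conj (Q : Type) [Group Q] [Infinite Q]
    (hicc : ∀ g : Q, g ≠ 1 → (Set.range fun h : Q => h * g * h⁻¹).Infinite) (P : Subgroup Q)
    (hP : (P : Set Q).Finite) (A : Set Q) (hA : A.Finite) :
    ∃ g ∉ A, ∀ x ∈ P, g * x * g⁻¹ ∈ P → x = 1 := by
  classical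
  by_contra hcon
  push Not at hcon
  let s : Finset (Q ⊕ (Q × Q)) :=
    (hA.toFinset.map Function.Embedding.inl) ∪
      (((hP.toFinset.erase 1) ×ˢ hP.toFinset).map Function.Embedding.inr)
  let H : Q ⊕ (Q × Q) → Subgroup Q := Sum.elim (fun _ => ⊥) (fun p => Subgroup.centralizer {p.1})
  let g : Q ⊕ (Q × Q) → Q := Sum.elim id
    (fun p => if h : ∃ g : Q, g * p.1 * g⁻¹ = p.2 then h.choose else 1)
  have hcov : ⋃ i ∈ s, (g i) • (H i : Set Q) = Set.univ := by
    refine Set.eq_univ_of_forall fun y => ?_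
    rw [Set.mem_iUnion₂]
    by_cases hy : y ∈ A
    · refine ⟨Sum.inl y, ?_, ?_⟩
      · exact Finset.mem_union_left _ (Finset.mem_map.2 ⟨y, by simpa using hy, rfl⟩)
      · rw [Set.mem_smul_set]
        exact ⟨1, by simp [H], by simp [g]⟩
    · obtain ⟨x, hx, hyx, hx1⟩ := hcon y hy
      refine ⟨Sum.inr (x, y * x * y⁻¹), ?_, ?_⟩
      · refine Finset.mem_union_right _ (Finset.mem_map.2 ⟨(x, y * x * y⁻¹), ?_, rfl⟩)
        rw [Finset.mem_product]
        exact ⟨Finset.mem_erase.2 ⟨hx1, by simpa using hx⟩, by simpa using hyx⟩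
      · have hex : ∃ g : Q, g * x * g⁻¹ = y * x * y⁻¹ := ⟨y, rfl⟩
        have hg : g (Sum.inr (x, y * x * y⁻¹)) = hex.choose := by
          simp only [g, Sum.elim_inr]
          exact dif_pos hex
        rw [hg, Set.mem_smul_set_iff_inv_smul_mem]
        have h0 := hex.choose_spec
        set g0 := hex.choose with hg0
        show g0⁻¹ * y ∈ Subgroup.centralizer {x}
        rw [Subgroup.mem_centralizer_singleton_iff]
        have h1 : x = g0⁻¹ * (y * x * y⁻¹) * g0 := by rw [← h0]; group
        calc g0⁻¹ * y * x = (g0⁻¹ * (y * x * y⁻¹) * g0) * (g0⁻¹ * y) := by group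
          _ = x * (g0⁻¹ * y) := by rw [← h1]
  obtain ⟨k, hk, hfi⟩ := Subgroup.exists_finiteIndex_of_leftCoset_cover hcov
  rcases k with a | ⟨x, y⟩
  · have : (⊥ : Subgroup Q).FiniteIndex := hfi
    have h1 : (⊥ : Subgroup Q).index ≠ 0 := this.index_ne_zero
    rw [Subgroup.index_bot] at h1
    exact h1 Nat.card_eq_zero_of_infinite
  · have hx1 : x ≠ 1 := by
      rcases Finset.mem_union.1 hk with h | h
      · obtain ⟨_, _, h⟩ := Finset.mem_map.1 h
        cases h
      · obtain ⟨⟨x', y'⟩, h', h⟩ := Finset.mem_map.1 h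
        have h2 : (x', y') = (x, y) := by simpa using h
        rw [← (Prod.mk.inj h2).1]
        exact (Finset.mem_erase.1 (Finset.mem_product.1 h').1).1
    exact hicc x hx1 (wneu_fin x hfi)

end Pool.Agent.Lib.MP_c23930_al.AQ
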