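import Pool.Agent.Lib.MP_c23930_al.AQ.WCount
import Pool.Agent.Lib.MP_c23930_al.AQ.WLim
import Pool.Agent.Lib.MP_c23930_al.AQ.WGen2
import Pool.Agent.Lib.MP_c23930_al.AQ.WNeumann

set_option autoImplicit false
open scoped Pointwise

namespace Pool.Agent.Lib.MP_c23930_al.AQ

section W9

variable {B Q : Type} [Group B] [Group Q] {m : ℕ} {F : Frame Q (XX m)} {u u' : Om m}
  {P : Subgroup Q} {hP : (P : Set Q).Finite} {g : Q}

/-- all letters of `Gn B` -/
def gnList (B : Type) : Set (Gn B) := Set.univ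

theorem finite_Gn (B : Type) [Finite B] : Finite (Gn B) := by
  have h : Function.Injective (fun x : Gn B =>
      (match x with
        | .q s => Sum.inl (Sum.inl s)
        | .k s => Sum.inl (Sum.inr (Sum.inl s))
        | .j l => Sum.inl (Sum.inr (Sum.inr (Sum.inl l)))
        | .c i => Sum.inl (Sum.inr (Sum.inr (Sum.inr i)))
        | .b1 b => Sum.inr (Sum.inl b)
        | .b2 b => Sum.inr (Sum.inr b) :
          (Q4 ⊕ Option Q4 ⊕ Fin 3 ⊕ Bool) ⊕ (B ⊕ B))) := by
    intro x y h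
    cases x <;> cases y <;> simp_all
  exact Finite.of_injective _ h

open Classical in
theorem ind_mul (s : Set Q) (hs : s.Finite) (b b' : B) :
    (ind s hs b : base B Q) * ind s hs b' = ind s hs (b * b') := by
  ext x
  change (if x ∈ s then b else 1) * (if x ∈ s then b' else 1) = if x ∈ s then b * b' else 1
  split_ifs <;> simp

open Classical in
theorem ind_one (s : Set Q) (hs : s.Finite) : (ind s hs (1 : B) : base B Q) = 1 := by
  ext x
  change (if x ∈ s then (1 : B) else 1) = 1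
  split_ifs <;> rfl

/-- the inverse of a generator is a product of at most two generators -/
theorem gn_inv (a : Gn B) : ∃ l : List (Gn B), l.length ≤ 2 ∧
    (Gn.val F u u' P hP g a)⁻¹ = (l.map (Gn.val F u u' P hP g)).prod := by
  cases a with
  | q s =>
    refine ⟨[.q s], by simp, ?_⟩
    rw [List.map_singleton, List.prod_singleton]
    apply inv_eq_of_mul_eq_one_left
    simp only [Gn.val]
    rw [← map_mul, ← map_mul, ← map_mul, gq_sq, map_one, map_one, map_one]
  | k s =>
    refine ⟨[.k s], by simp, ?_⟩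
    rw [List.map_singleton, List.prod_singleton]
    apply inv_eq_of_mul_eq_one_left
    simp only [Gn.val]
    rw [← map_mul, ← map_mul, Equiv.swap_mul_self, map_one, map_one]
  | j l =>
    refine ⟨[.j l], by simp, ?_⟩
    rw [List.map_singleton, List.prod_singleton]
    apply inv_eq_of_mul_eq_one_left
    simp only [Gn.val]
    rw [← map_mul, ← map_mul, Equiv.swap_mul_self, map_one, map_one]
  | c i =>
    refine ⟨[.c i, .c i], by simp, ?_⟩
    rw [List.map_cons, List.map_singleton, List.prod_cons, List.prod_singleton]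
    apply inv_eq_of_mul_eq_one_left
    simp only [Gn.val]
    have h := F.cube i (u, 2) (u, 3) (by simp)
    rw [← map_mul, ← map_mul, ← pow_two, ← pow_succ, h, map_one]
  | b1 b =>
    refine ⟨[.b1 b⁻¹], by simp, ?_⟩
    rw [List.map_singleton, List.prod_singleton]
    apply inv_eq_of_mul_eq_one_left
    simp only [Gn.val]
    rw [← map_mul, ind_mul, inv_mul_cancel, ind_one, map_one]
  | b2 b =>
    refine ⟨[.b2 b⁻¹], by simp, ?_⟩
    rw [List.map_singleton, List.prod_singleton]
    apply inv_eq_of_mul_eq_one_left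
    simp only [Gn.val]
    rw [← map_mul, ind_mul, inv_mul_cancel, ind_one, map_one]

theorem w9_mem_ball (S : Set (Wreath B Q)) (hS : S ⊆ Set.range (Gn.val F u u' P hP g)) (R : ℕ)
    (x : Wreath B Q) (hx : x ∈ (S ∪ S⁻¹ ∪ {1}) ^ R) :
    ∃ l : List (Gn B), l.length ≤ 2 * R ∧ x = (l.map (Gn.val F u u' P hP g)).prod := by
  induction R generalizing x with
  | zero =>
    rw [pow_zero, Set.mem_one] at hx
    exact ⟨[], by simp, by simpa using hx⟩
  | succ R ih =>
    rw [pow_succ] at hx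
    obtain ⟨a, ha, b, hb, rfl⟩ := Set.mem_mul.1 hx
    obtain ⟨l, hl, rfl⟩ := ih a ha
    rcases hb with (hb | hb) | hb
    · obtain ⟨t, rfl⟩ := hS hb
      refine ⟨l ++ [t], ?_, by simp⟩
      rw [List.length_append, List.length_singleton]; omega
    · obtain ⟨t, ht⟩ := hS hb
      obtain ⟨l', hl', he⟩ := gn_inv (F := F) (u := u) (u' := u') (P := P) (hP := hP) (g := g) t
      refine ⟨l ++ l', ?_, ?_⟩
      · rw [List.length_append]; omega
      · rw [List.map_append, List.prod_append, ← he, ht, inv_inv]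
    · rw [Set.mem_singleton_iff] at hb
      subst hb
      exact ⟨l, by omega, by simp⟩

end W9

theorem not_ueg_wreath (Q : Type) [Group Q] [Infinite Q]
    (hicc : ∀ g : Q, g ≠ 1 → (Set.range fun h : Q => h * g * h⁻¹).Infinite)
    (hfr : ∀ m, Nonempty (Frame Q (XX m))) (B : Type) [Group B] [Finite B]
    (hB : commutator B = ⊤) (c : ℝ) (hc : 1 < c) :
    ∃ S : Finset (Wreath B Q), Subgroup.closure (S : Set (Wreath B Q)) = ⊤ ∧
      ∃ n : ℕ, (Set.ncard (((S : Set (Wreath B Q)) ∪ (S : Set (Wreath B Q))⁻¹ ∪ {1}) ^ n) : ℝ) <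
        c ^ n := by
  classical
  obtain ⟨L, E, h1, h2⟩ := wlim (Nat.card B) c hc
  obtain ⟨m, hpow⟩ : ∃ m : ℕ, 5 ^ (2 * 4 ^ L) < 2 ^ (m + L) := by
    refine ⟨5 ^ (2 * 4 ^ L), ?_⟩
    calc 5 ^ (2 * 4 ^ L) < 2 ^ (5 ^ (2 * 4 ^ L)) := Nat.lt_two_pow_self
      _ ≤ 2 ^ (5 ^ (2 * 4 ^ L) + L) := Nat.pow_le_pow_right (by norm_num) (Nat.le_add_right _ _)
  obtain ⟨F⟩ := hfr (m + L)
  obtain ⟨u, hu⟩ := exists_far (m + L) (2 * 4 ^ L) hpow default
  obtain ⟨P, hfin, hlam, hcc⟩ := F.fin (u, 4)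
  have hP : PHyp F u P := ⟨Set.toFinite _, hlam, hcc⟩
  let A : Set Q := (P : Set Q) * Set.range F.lam * (P : Set Q)
  have hA : A.Finite := (hP.fin.mul (Set.finite_range _)).mul hP.fin
  obtain ⟨g, hgA, hPg⟩ := exists_conj Q hicc P hP.fin A hA
  have hg : GHyp F P g := by
    intro π a ha b hb he
    exact hgA ⟨a * F.lam π, ⟨a, ha, F.lam π, ⟨π, rfl⟩, rfl⟩, b, hb, he.symm⟩
  have hfinG : Finite (Gn B) := finite_Gn B
  have hfinS : (Set.range (Gn.val (B := B) F u default P hP.fin g)).Finite := Set.finite_range _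
  refine ⟨hfinS.toFinset, ?_, 4 ^ L, ?_⟩
  · rw [Set.Finite.coe_toFinset]
    exact wgen hB F u default P hP.fin g hPg
  · obtain ⟨hf, hcnt⟩ := wcount (B := B) m L (2 * 4 ^ L) E F u default P g hP hg hu h1
    refine lt_of_le_of_lt ?_ h2
    refine le_trans ?_ (Nat.cast_le.2 hcnt)
    refine Nat.cast_le.2 (Set.ncard_le_ncard ?_ hf)
    intro x hx
    rw [Set.Finite.coe_toFinset] at hx
    exact w9_mem_ball _ (le_refl _) _ x hx

end Pool.Agent.Lib.MP_c23930_al.AQ
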