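import Pool.Agent.Lib.MP_c23930_al.AQ.WCoset
import Pool.Agent.Lib.MP_c23930_al.Grig2
import Pool.Agent.Lib.MP_c23930_al.Normal

set_option autoImplicit false

namespace Pool.Agent.Lib.MP_c23930_al.AQ

section

variable {B Q : Type} [Group B] [Group Q] {m : ℕ} {F : Frame Q (XX m)} {u u' : Om m}
  {P : Subgroup Q} {g : Q}

theorem wn_inr_left (x : Wreath B Q) (q : Q) :
    (x * SemidirectProduct.inr q).left = x.left := by
  rw [SemidirectProduct.mul_left, SemidirectProduct.left_inr, map_one, mul_one]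

theorem wn_inr_right (x : Wreath B Q) (q : Q) :
    (x * SemidirectProduct.inr q).right = x.right * q := by
  rw [SemidirectProduct.mul_right, SemidirectProduct.right_inr]

theorem wn_inl_left (x : Wreath B Q) (f : base B Q) (y : Q) :
    (x * SemidirectProduct.inl f).left.1 y = x.left.1 y * f.1 (x.right⁻¹ * y) := by
  rw [SemidirectProduct.mul_left, SemidirectProduct.left_inl]
  rfl

theorem wn_inl_right (x : Wreath B Q) (f : base B Q) :
    (x * SemidirectProduct.inl f).right = x.right := by
  rw [SemidirectProduct.mul_right, SemidirectProduct.right_inl, mul_one]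

theorem wn_up_swap (h : Equiv.Perm (Om m)) (a b : XX m) :
    up m h * Equiv.swap a b = Equiv.swap (up m h a) (up m h b) * up m h := by
  rw [Equiv.swap_apply_apply]
  group

/-- `π` fixes the points with label at least `2` above `h u` -/
theorem wn_fix {i : ℕ} {w : MW} {π : Equiv.Perm (XX m)} {Λ : Q} {f₁ f₂ : Om m → B}
    {x : Wreath B Q} (hx : NF F u u' P g i w π Λ f₁ f₂ x) (hu : u ∉ Sball m u' i) (l : Fin 5)
    (hl : 2 ≤ l) : π (w.ev m u, l) = (w.ev m u, l) := by
  by_contra hne
  obtain ⟨v, hv, he⟩ := hx.far _ l hl hne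
  have : u = v := (w.ev m).injective he
  exact hu (this ▸ hv)

theorem wn_one : NF F u u' P g 0 (.base .o) 1 1 (fun _ => 1) (fun _ => 1) (1 : Wreath B Q) where
  wt := le_refl _
  supp p l h := absurd rfl h
  far p l _ h := absurd rfl h
  lamps := one_mem _
  supp1 p h := absurd rfl h
  supp2 p h := absurd rfl h
  right := by
    have h1 : MW.ev m (.base .o) = 1 := gb_o m
    rw [h1, map_one, map_one, map_one, SemidirectProduct.one_right, mul_one, mul_one]
  left1 p y _ := rfl
  left2 p y _ := rfl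
  left3 y _ _ := rfl

theorem wn_q {i : ℕ} {w : MW} {π : Equiv.Perm (XX m)} {Λ : Q} {f₁ f₂ : Om m → B}
    {x : Wreath B Q} (hx : NF F u u' P g i w π Λ f₁ f₂ x) (s : Q4) :
    NF F u u' P g (i + 1) (w.mulQ s) π Λ f₁ f₂
      (x * SemidirectProduct.inr (F.lam (up m (gq m s)))) where
  wt := by
    have h1 := wt_mulQ w s
    have h2 := hx.wt
    omega
  supp p l h := by
    rcases Finset.mem_union.1 (hx.supp p l h) with h | h
    · exact Finset.mem_union_left _ (io_mulQ m w s u h)
    · exact Finset.mem_union_right _ (io_mulQ m w s u' h)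
  far p l hl h := by
    obtain ⟨v, hv, rfl⟩ := hx.far p l hl h
    refine ⟨gq m s v, Sball_gq m u' _ s hv, ?_⟩
    rw [ev_mulQ, Equiv.Perm.mul_apply, ← Equiv.Perm.mul_apply (gq m s), gq_sq]
    rfl
  lamps := by
    have : LL F (w.io m u) ≤ LL F ((w.mulQ s).io m u) := by
      apply Subgroup.closure_mono
      rintro q ⟨i, p, hp, rfl⟩
      exact ⟨i, p, io_mulQ m w s u hp, rfl⟩
    exact this hx.lamps
  supp1 p h := io_mulQ m w s u (hx.supp1 p h)
  supp2 p h := io_mulQ m w s u (hx.supp2 p h)
  right := by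
    rw [wn_inr_right, hx.right, ev_mulQ, map_mul, map_mul]
    group
  left1 p y h := by rw [wn_inr_left]; exact hx.left1 p y h
  left2 p y h := by rw [wn_inr_left]; exact hx.left2 p y h
  left3 y h h' := by rw [wn_inr_left]; exact hx.left3 y h h'

/-- appending a transposition -/
theorem wn_swap {i : ℕ} {w : MW} {π : Equiv.Perm (XX m)} {Λ : Q} {f₁ f₂ : Om m → B}
    {x : Wreath B Q} (hx : NF F u u' P g i w π Λ f₁ f₂ x) (a b : XX m)
    (ha : w.ev m a.1 ∈ w.io m u ∪ w.io m u') (hb : w.ev m b.1 ∈ w.io m u ∪ w.io m u')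
    (ha' : 2 ≤ a.2 → a.1 = u') (hb' : 2 ≤ b.2 → b.1 = u') :
    NF F u u' P g (i + 1) w (π * Equiv.swap (up m (w.ev m) a) (up m (w.ev m) b)) Λ f₁ f₂
      (x * SemidirectProduct.inr (F.lam (Equiv.swap a b))) where
  wt := by
    have h2 := hx.wt
    omega
  supp p l h := by
    by_cases h1 : Equiv.swap (up m (w.ev m) a) (up m (w.ev m) b) (p, l) = (p, l)
    · rw [Equiv.Perm.mul_apply, h1] at h
      exact hx.supp p l h
    · rcases Equiv.eq_or_eq_of_swap_apply_ne_self h1 with h2 | h2
      · have : p = w.ev m a.1 := congrArg Prod.fst h2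
        rw [this]; exact ha
      · have : p = w.ev m b.1 := congrArg Prod.fst h2
        rw [this]; exact hb
  far p l hl h := by
    by_cases h1 : Equiv.swap (up m (w.ev m) a) (up m (w.ev m) b) (p, l) = (p, l)
    · rw [Equiv.Perm.mul_apply, h1] at h
      obtain ⟨v, hv, he⟩ := hx.far p l hl h
      exact ⟨v, Sball_succ m u' _ hv, he⟩
    · have h0 : u' ∈ Sball m u' (i + 1) :=
        Sball_mono m u' (Nat.zero_le _) (Finset.mem_singleton_self u')
      rcases Equiv.eq_or_eq_of_swap_apply_ne_self h1 with h2 | h2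
      · have h3 : p = w.ev m a.1 := congrArg Prod.fst h2
        have h4 : l = a.2 := congrArg Prod.snd h2
        refine ⟨u', h0, ?_⟩
        rw [h3, ha' (h4 ▸ hl)]
      · have h3 : p = w.ev m b.1 := congrArg Prod.fst h2
        have h4 : l = b.2 := congrArg Prod.snd h2
        refine ⟨u', h0, ?_⟩
        rw [h3, hb' (h4 ▸ hl)]
  lamps := hx.lamps
  supp1 := hx.supp1
  supp2 := hx.supp2
  right := by
    rw [wn_inr_right, hx.right, map_mul, mul_assoc, ← map_mul, wn_up_swap, map_mul]
    group
  left1 p y h := by rw [wn_inr_left]; exact hx.left1 p y h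
  left2 p y h := by rw [wn_inr_left]; exact hx.left2 p y h
  left3 y h h' := by rw [wn_inr_left]; exact hx.left3 y h h'

theorem wn_c {i : ℕ} {w : MW} {π : Equiv.Perm (XX m)} {Λ : Q} {f₁ f₂ : Om m → B}
    {x : Wreath B Q} (hx : NF F u u' P g i w π Λ f₁ f₂ x) (hu : u ∉ Sball m u' i) (e : Bool) :
    NF F u u' P g (i + 1) w π (Λ * F.c e (w.ev m u, 2) (w.ev m u, 3)) f₁ f₂
      (x * SemidirectProduct.inr (F.c e (u, 2) (u, 3))) where
  wt := by
    have h2 := hx.wt
    omega
  supp := hx.supp
  far p l hl h := by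
    obtain ⟨v, hv, he⟩ := hx.far p l hl h
    exact ⟨v, Sball_succ m u' _ hv, he⟩
  lamps := mul_mem hx.lamps (Subgroup.subset_closure ⟨e, _, ev_mem_io m w u, rfl⟩)
  supp1 := hx.supp1
  supp2 := hx.supp2
  right := by
    rw [wn_inr_right, hx.right]
    have h1 := F.conj (up m (w.ev m)) e (u, 2) (u, 3) (by simp)
    have h2 := F.conj π e (w.ev m u, 2) (w.ev m u, 3) (by simp)
    rw [wn_fix hx hu 2 (le_refl _), wn_fix hx hu 3 (by decide)] at h2
    rw [up_apply, up_apply] at h1
    calc Λ * F.lam π * F.lam (up m (w.ev m)) * F.c e (u, 2) (u, 3)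
        = Λ * F.lam π * (F.lam (up m (w.ev m)) * F.c e (u, 2) (u, 3) *
            (F.lam (up m (w.ev m)))⁻¹) * F.lam (up m (w.ev m)) := by group
      _ = Λ * (F.lam π * F.c e (w.ev m u, 2) (w.ev m u, 3) * (F.lam π)⁻¹) * F.lam π *
            F.lam (up m (w.ev m)) := by rw [h1]; group
      _ = _ := by rw [h2]
  left1 p y h := by rw [wn_inr_left]; exact hx.left1 p y h
  left2 p y h := by rw [wn_inr_left]; exact hx.left2 p y h
  left3 y h h' := by rw [wn_inr_left]; exact hx.left3 y h h'

open Classical in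
theorem wn_b1 {i : ℕ} {w : MW} {π : Equiv.Perm (XX m)} {Λ : Q} {f₁ f₂ : Om m → B}
    {x : Wreath B Q} (hP : PHyp F u P) (hg : GHyp F P g)
    (hx : NF F u u' P g i w π Λ f₁ f₂ x) (hu : u ∉ Sball m u' i) (b : B) :
    NF F u u' P g (i + 1) w π Λ (Function.update f₁ (w.ev m u) (f₁ (w.ev m u) * b)) f₂
      (x * SemidirectProduct.inl (ind (P : Set Q) hP.fin b)) where
  wt := by
    have h2 := hx.wt
    omega
  supp := hx.supp
  far p l hl h := by
    obtain ⟨v, hv, he⟩ := hx.far p l hl h
    exact ⟨v, Sball_succ m u' _ hv, he⟩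
  lamps := hx.lamps
  supp1 p h := by
    by_cases hp : p = w.ev m u
    · rw [hp]; exact ev_mem_io m w u
    · rw [Function.update_of_ne hp] at h
      exact hx.supp1 p h
  supp2 := hx.supp2
  right := by rw [wn_inl_right]; exact hx.right
  left1 p y h := by
    rw [wn_inl_left, hx.left1 p y h]
    have hmem : x.right⁻¹ * y ∈ (P : Set Q) ↔ y ∈ cs F u P (w.ev m u) := by
      rw [hx.right]
      exact right_mem hP hx.lamps (wn_fix hx hu 4 (by decide)) y
    change f₁ p * (if x.right⁻¹ * y ∈ (P : Set Q) then b else 1) = _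
    by_cases hp : p = w.ev m u
    · rw [if_pos (hmem.2 (hp ▸ h)), hp, Function.update_self]
    · rw [if_neg (fun h' => hp (cs_disj hP h (hmem.1 h'))), Function.update_of_ne hp, mul_one]
  left2 p y h := by
    rw [wn_inl_left, hx.left2 p y h]
    have hmem : x.right⁻¹ * y ∈ (P : Set Q) ↔ y ∈ cs F u P (w.ev m u) := by
      rw [hx.right]
      exact right_mem hP hx.lamps (wn_fix hx hu 4 (by decide)) y
    change f₂ p * (if x.right⁻¹ * y ∈ (P : Set Q) then b else 1) = _
    rw [if_neg (fun h' => cs_g_disj hg (hmem.1 h') h), mul_one]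
  left3 y h h' := by
    rw [wn_inl_left, hx.left3 y h h']
    have hmem : x.right⁻¹ * y ∈ (P : Set Q) ↔ y ∈ cs F u P (w.ev m u) := by
      rw [hx.right]
      exact right_mem hP hx.lamps (wn_fix hx hu 4 (by decide)) y
    change 1 * (if x.right⁻¹ * y ∈ (P : Set Q) then b else 1) = _
    rw [if_neg (fun h'' => h _ (hmem.1 h'')), mul_one]

open Classical in
theorem wn_b2 {i : ℕ} {w : MW} {π : Equiv.Perm (XX m)} {Λ : Q} {f₁ f₂ : Om m → B}
    {x : Wreath B Q} (hP : PHyp F u P) (hg : GHyp F P g)
    (hx : NF F u u' P g i w π Λ f₁ f₂ x) (hu : u ∉ Sball m u' i) (b : B) :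
    NF F u u' P g (i + 1) w π Λ f₁ (Function.update f₂ (w.ev m u) (f₂ (w.ev m u) * b))
      (x * SemidirectProduct.inl
        (ind ((fun x => x * g) '' (P : Set Q)) (hP.fin.image _) b)) where
  wt := by
    have h2 := hx.wt
    omega
  supp := hx.supp
  far p l hl h := by
    obtain ⟨v, hv, he⟩ := hx.far p l hl h
    exact ⟨v, Sball_succ m u' _ hv, he⟩
  lamps := hx.lamps
  supp1 := hx.supp1
  supp2 p h := by
    by_cases hp : p = w.ev m u
    · rw [hp]; exact ev_mem_io m w u
    · rw [Function.update_of_ne hp] at h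
      exact hx.supp2 p h
  right := by rw [wn_inl_right]; exact hx.right
  left1 p y h := by
    rw [wn_inl_left, hx.left1 p y h]
    have hmem : x.right⁻¹ * y ∈ (fun x => x * g) '' (P : Set Q) ↔
        y * g⁻¹ ∈ cs F u P (w.ev m u) := by
      rw [← right_mem hP hx.lamps (wn_fix hx hu 4 (by decide)) (y * g⁻¹), ← hx.right]
      constructor
      · rintro ⟨z, hz, he⟩
        have : x.right⁻¹ * (y * g⁻¹) = z := by rw [← mul_assoc, ← he]; group
        rw [this]; exact hz
      · intro h
        exact ⟨_, h, by group⟩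
    change f₁ p * (if x.right⁻¹ * y ∈ (fun x => x * g) '' (P : Set Q) then b else 1) = _
    rw [if_neg (fun h' => cs_g_disj hg h (hmem.1 h')), mul_one]
  left2 p y h := by
    rw [wn_inl_left, hx.left2 p y h]
    have hmem : x.right⁻¹ * y ∈ (fun x => x * g) '' (P : Set Q) ↔
        y * g⁻¹ ∈ cs F u P (w.ev m u) := by
      rw [← right_mem hP hx.lamps (wn_fix hx hu 4 (by decide)) (y * g⁻¹), ← hx.right]
      constructor
      · rintro ⟨z, hz, he⟩
        have : x.right⁻¹ * (y * g⁻¹) = z := by rw [← mul_assoc, ← he]; group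
        rw [this]; exact hz
      · intro h
        exact ⟨_, h, by group⟩
    change f₂ p * (if x.right⁻¹ * y ∈ (fun x => x * g) '' (P : Set Q) then b else 1) = _
    by_cases hp : p = w.ev m u
    · rw [if_pos (hmem.2 (hp ▸ h)), hp, Function.update_self]
    · rw [if_neg (fun h' => hp (cs_disj hP h (hmem.1 h'))), Function.update_of_ne hp, mul_one]
  left3 y h h' := by
    rw [wn_inl_left, hx.left3 y h h']
    have hmem : x.right⁻¹ * y ∈ (fun x => x * g) '' (P : Set Q) ↔
        y * g⁻¹ ∈ cs F u P (w.ev m u) := by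
      rw [← right_mem hP hx.lamps (wn_fix hx hu 4 (by decide)) (y * g⁻¹), ← hx.right]
      constructor
      · rintro ⟨z, hz, he⟩
        have : x.right⁻¹ * (y * g⁻¹) = z := by rw [← mul_assoc, ← he]; group
        rw [this]; exact hz
      · intro h
        exact ⟨_, h, by group⟩
    change 1 * (if x.right⁻¹ * y ∈ (fun x => x * g) '' (P : Set Q) then b else 1) = _
    rw [if_neg (fun h'' => h' _ (hmem.1 h'')), mul_one]

end

/-- normal form of the product of at most `R` letters -/
theorem wnormal {B Q : Type} [Group B] [Group Q] {m R : ℕ} (F : Frame Q (XX m)) (u u' : Om m)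
    (P : Subgroup Q) (g : Q) (hP : PHyp F u P) (hg : GHyp F P g) (hu : u ∉ Sball m u' R)
    (l : List (Gn B)) (hl : l.length ≤ R) :
    ∃ (w : MW) (π : Equiv.Perm (XX m)) (Λ : Q) (f₁ f₂ : Om m → B),
      NF F u u' P g l.length w π Λ f₁ f₂ (l.map (Gn.val F u u' P hP.fin g)).prod := by
  classical
  induction l using List.reverseRecOn with
  | nil => exact ⟨_, _, _, _, _, wn_one⟩
  | append_singleton l a ih =>
    rw [List.length_append, List.length_singleton] at hl
    obtain ⟨w, π, Λ, f₁, f₂, hx⟩ := ih (by omega)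
    have hu' : u ∉ Sball m u' l.length := fun h => hu (Sball_mono m u' (by omega) h)
    rw [List.length_append, List.length_singleton, List.map_append, List.map_singleton,
      List.prod_append, List.prod_singleton]
    cases a with
    | q s => exact ⟨_, _, _, _, _, wn_q hx s⟩
    | k s =>
      refine ⟨_, _, _, _, _, wn_swap hx (u, 0) (s.elim u (fun t => gq m t u), 1) ?_ ?_ ?_ ?_⟩
      · exact Finset.mem_union_left _ (ev_mem_io m w u)
      · refine Finset.mem_union_left _ ?_
        cases s with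
        | none => exact ev_mem_io m w u
        | some t => exact ev_gq_mem_io m w t u
      · intro h; exact absurd (show (2 : Fin 5) ≤ 0 from h) (by decide)
      · intro h; exact absurd (show (2 : Fin 5) ≤ 1 from h) (by decide)
    | j s =>
      refine ⟨_, _, _, _, _, wn_swap hx (u, 1) (u', lab s) ?_ ?_ ?_ ?_⟩
      · exact Finset.mem_union_left _ (ev_mem_io m w u)
      · exact Finset.mem_union_right _ (ev_mem_io m w u')
      · intro h; exact absurd (show (2 : Fin 5) ≤ 1 from h) (by decide)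
      · intro _; rfl
    | c e => exact ⟨_, _, _, _, _, wn_c hx hu' e⟩
    | b1 b => exact ⟨_, _, _, _, _, wn_b1 hP hg hx hu' b⟩
    | b2 b => exact ⟨_, _, _, _, _, wn_b2 hP hg hx hu' b⟩

end Pool.Agent.Lib.MP_c23930_al.AQ
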